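import Pool.Agent.Helper60.MV.B.Kern

/-!
MV-C2-4. Bounds of the regularised volumes by an invertible minor.

Proofs.
* `AM_le_of_minor`: put `p_c = ∑ P c false e x_e + ξ c false`, `p'_c` similarly, both `≥ 0` on the orthant. By `kern_exp9`,
  `∏_c kern ≤ 10^|κ| exp (-(9/20) ∑_c (p_c + p'_c)) ∏_c corr ε (p_c - p'_c)` and `∑_c (p_c + p'_c) ≥ 2 ∑_e x_e` (`hcol`,
  `ξ ≥ 0`), so `≤ 10^|κ| exp (-(9/10) ∑_{e ∉ range J} x_e) ∏_c corr ε ((B x)_c + d_c)`, `d_c = ξ c false - ξ c true`,
  `B c e = P c false e - P c true e`. Integrate over the coordinates `x_J` first, over all of `ℝ^J` (use `lintegral`s of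
  `ENNReal.ofReal`; split `ι → ℝ` by `MeasurableEquiv.piEquivPiSubtypeProd`, `volume_preserving_piEquivPiSubtypeProd`; the
  coordinates in `range J` are relabelled by `κ`, `Equiv.ofInjective`): for fixed other coordinates the substitution
  `z = B_J x_J + const` gives `∏_c ∫ corr ε = 1` divided by `|det B_J| ≥ 1` (`det` is a nonzero integer;
  `Real.map_matrix_volume_pi_eq_smul_volume_pi`, `corr_integral`). The remaining integral is
  `∏_{e ∉ range J} ∫_0^∞ exp (-(9/10) x) = (10/9)^{|ι| - |κ|} ≤ (10/9)^|ι|`; in the second statement the coordinate `e₀`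
  is restricted to `(0, η]`, its factor is `≤ η`.
-/

namespace Pool.Agent.Helper62.MVC2

open Finset MeasureTheory Filter Topology Pool.Agent.Helper60.MV

private theorem lint_prod {α : Type} [Fintype α] (f : α → ℝ → ℝ) (hf : ∀ i, Integrable (f i))
    (h0 : ∀ i t, 0 ≤ f i t) :
    ∫⁻ x : α → ℝ, ENNReal.ofReal (∏ i, f i (x i)) = ENNReal.ofReal (∏ i, ∫ t, f i t) := by
  have h1 : Integrable (fun x : α → ℝ => ∏ i, f i (x i)) :=
    Integrable.fintype_prod (μ := fun _ : α => (volume : Measure ℝ)) hf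
  rw [← ofReal_integral_eq_lintegral_ofReal h1
    (Filter.Eventually.of_forall fun x => Finset.prod_nonneg fun i _ => h0 i _),
    integral_fintype_prod_volume_eq_prod]

private theorem minor_lint {ι κ : Type} [Fintype ι] [Fintype κ] [DecidableEq κ]
    (B : κ → ι → ℝ) (J : κ → ι) (hJ : Function.Injective J) [Fintype ↥(Set.range J)ᶜ]
    (hdet : 1 ≤ |(Matrix.of fun c c' : κ => B c (J c')).det|)
    (g : ℝ → ℝ) (hgc : Continuous g) (hgi : Integrable g) (hg0 : ∀ t, 0 ≤ g t)
    (hg1 : ∫ t, g t = 1) (d : κ → ℝ) (w : ι → ℝ → ℝ) (hw : ∀ e, Integrable (w e))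
    (hwm : ∀ e, Measurable (w e)) (hw0 : ∀ e t, 0 ≤ w e t) :
    ∫⁻ x : ι → ℝ, ENNReal.ofReal ((∏ e : ↥(Set.range J)ᶜ, w e (x e)) *
      ∏ c, g (∑ e, B c e * x e + d c)) ≤
      ENNReal.ofReal (∏ e : ↥(Set.range J)ᶜ, ∫ t, w e t) := by
  classical
  let eq : κ ⊕ ↥(Set.range J)ᶜ ≃ ι :=
    ((Equiv.ofInjective J hJ).sumCongr (Equiv.refl _)).trans (Equiv.Set.sumCompl (Set.range J))
  have eql : ∀ c, eq (Sum.inl c) = J c := fun _ => rfl
  have eqr : ∀ e : ↥(Set.range J)ᶜ, eq (Sum.inr e) = e := fun _ => rfl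
  let T : ((κ → ℝ) × (↥(Set.range J)ᶜ → ℝ)) ≃ᵐ (ι → ℝ) :=
    (MeasurableEquiv.sumPiEquivProdPi (fun _ : κ ⊕ ↥(Set.range J)ᶜ => ℝ)).symm.trans
      (MeasurableEquiv.piCongrLeft (fun _ => ℝ) eq)
  have hT : MeasurePreserving T volume volume :=
    (volume_measurePreserving_sumPiEquivProdPi_symm (fun _ : κ ⊕ ↥(Set.range J)ᶜ => ℝ)).trans
      (volume_measurePreserving_piCongrLeft (fun _ => ℝ) eq)
  have T1 : ∀ (z : (κ → ℝ) × (↥(Set.range J)ᶜ → ℝ)) (c : κ), T z (J c) = z.1 c := by
    intro z c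
    have h := Equiv.piCongrLeft_apply_apply (fun _ : ι => ℝ) eq
      ((Equiv.sumPiEquivProdPi (fun _ : κ ⊕ ↥(Set.range J)ᶜ => ℝ)).symm z) (Sum.inl c)
    exact h
  have T2 : ∀ (z : (κ → ℝ) × (↥(Set.range J)ᶜ → ℝ)) (e : ↥(Set.range J)ᶜ),
      T z e = z.2 e := by
    intro z e
    have h := Equiv.piCongrLeft_apply_apply (fun _ : ι => ℝ) eq
      ((Equiv.sumPiEquivProdPi (fun _ : κ ⊕ ↥(Set.range J)ᶜ => ℝ)).symm z) (Sum.inr e)
    exact h
  have hsum : ∀ (c : κ) (z : (κ → ℝ) × (↥(Set.range J)ᶜ → ℝ)), ∑ e, B c e * T z e =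
      ∑ c', B c (J c') * z.1 c' + ∑ e : ↥(Set.range J)ᶜ, B c e * z.2 e := by
    intro c z
    rw [← eq.sum_comp, Fintype.sum_sum_type]
    simp only [eql, eqr, T1, T2]
  set M : Matrix κ κ ℝ := Matrix.of fun c c' : κ => B c (J c') with hMdef
  have hM : M.det ≠ 0 := by
    intro h
    rw [h, abs_zero] at hdet
    linarith
  have hFmeas : Measurable (fun x : ι → ℝ =>
      ENNReal.ofReal ((∏ e : ↥(Set.range J)ᶜ, w e (x e)) *
      ∏ c, g (∑ e, B c e * x e + d c))) := by
    apply ENNReal.measurable_ofReal.comp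
    apply Measurable.mul
    · exact Finset.measurable_prod _ fun e _ => (hwm e).comp (measurable_pi_apply _)
    · refine Finset.measurable_prod _ fun c _ => hgc.measurable.comp ?_
      fun_prop
  have hFT := hFmeas.comp T.measurable
  rw [← hT.lintegral_comp_emb T.measurableEmbedding, Measure.volume_eq_prod]
  have hprod := lintegral_prod_symm' (μ := (volume : Measure (κ → ℝ)))
    (ν := (volume : Measure (↥(Set.range J)ᶜ → ℝ))) _ hFT
  simp only [Function.comp_def] at hprod
  rw [hprod]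
  -- inner integral
  have hinner : ∀ v : ↥(Set.range J)ᶜ → ℝ,
      ∫⁻ y : κ → ℝ, ENNReal.ofReal ((∏ e : ↥(Set.range J)ᶜ, w e (T (y, v) e)) *
        ∏ c, g (∑ e, B c e * T (y, v) e + d c)) ≤
      ENNReal.ofReal (∏ e : ↥(Set.range J)ᶜ, w e (v e)) := by
    intro v
    set q : κ → ℝ := fun c => ∑ e : ↥(Set.range J)ᶜ, B c e * v e + d c with hq
    have h1 : ∀ y : κ → ℝ, ENNReal.ofReal ((∏ e : ↥(Set.range J)ᶜ, w e (T (y, v) e)) *
        ∏ c, g (∑ e, B c e * T (y, v) e + d c)) =
        ENNReal.ofReal (∏ e : ↥(Set.range J)ᶜ, w e (v e)) *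
        (fun z : κ → ℝ => ENNReal.ofReal (∏ c, g (z c + q c))) (Matrix.toLin' M y) := by
      intro y
      rw [ENNReal.ofReal_mul (Finset.prod_nonneg fun e _ => hw0 _ _)]
      congr 1
      · congr 1
        exact Finset.prod_congr rfl fun e _ => by rw [T2]
      · show _ = ENNReal.ofReal (∏ c, g (Matrix.toLin' M y c + q c))
        congr 1
        refine Finset.prod_congr rfl fun c _ => ?_
        rw [hsum, hq, Matrix.toLin'_apply]
        simp only [hMdef, Matrix.mulVec, dotProduct, Matrix.of_apply]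
        rw [add_assoc]
    have hΦ : Measurable (fun z : κ → ℝ => ENNReal.ofReal (∏ c, g (z c + q c))) := by
      apply ENNReal.measurable_ofReal.comp
      refine Finset.measurable_prod _ fun c _ => hgc.measurable.comp ?_
      fun_prop
    have hLin : Measurable (Matrix.toLin' M) := by
      apply Continuous.measurable
      apply LinearMap.continuous_on_pi
    have hmap : ∫⁻ y : κ → ℝ, ENNReal.ofReal (∏ c, g (Matrix.toLin' M y c + q c)) =
        ENNReal.ofReal |M.det⁻¹| • ∫⁻ z : κ → ℝ, ENNReal.ofReal (∏ c, g (z c + q c)) := by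
      rw [← lintegral_map hΦ hLin,
        Real.map_matrix_volume_pi_eq_smul_volume_pi hM, lintegral_smul_measure]
    simp only [h1]
    rw [lintegral_const_mul' _ _ ENNReal.ofReal_ne_top, hmap]
    have h2 : ∫⁻ z : κ → ℝ, ENNReal.ofReal (∏ c, g (z c + q c)) = 1 := by
      rw [lint_prod (fun c t => g (t + q c)) (fun c => hgi.comp_add_right (q c))
        (fun c t => hg0 _)]
      have h3 : ∀ c, ∫ t, g (t + q c) = 1 := by
        intro c
        rw [integral_add_right_eq_self g (q c)]
        exact hg1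
      simp only [h3, Finset.prod_const_one, ENNReal.ofReal_one]
    rw [h2]
    have h4 : ENNReal.ofReal |M.det⁻¹| ≤ 1 := by
      rw [ENNReal.ofReal_le_one, abs_inv]
      exact inv_le_one_of_one_le₀ hdet
    calc ENNReal.ofReal (∏ e : ↥(Set.range J)ᶜ, w e (v e)) * (ENNReal.ofReal |M.det⁻¹| • 1)
        ≤ ENNReal.ofReal (∏ e : ↥(Set.range J)ᶜ, w e (v e)) * 1 := by
          apply mul_le_mul_right
          rw [smul_eq_mul, mul_one]
          exact h4
      _ = _ := mul_one _
  calc _ ≤ ∫⁻ v : ↥(Set.range J)ᶜ → ℝ, ENNReal.ofReal (∏ e : ↥(Set.range J)ᶜ, w e (v e)) :=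
        lintegral_mono hinner
    _ = _ := lint_prod (fun e : ↥(Set.range J)ᶜ => w e) (fun e => hw e) (fun e => hw0 e)

private theorem orthant_meas (ι : Type) [Fintype ι] :
    MeasurableSet {x : ι → ℝ | ∀ e, 0 < x e} := by
  have : {x : ι → ℝ | ∀ e, 0 < x e} = Set.pi Set.univ (fun _ => Set.Ioi (0:ℝ)) := by
    ext x
    simp
  rw [this]
  exact MeasurableSet.univ_pi fun _ => measurableSet_Ioi

private theorem AM_le_gen {ι κ : Type} [Fintype ι] [Fintype κ] [DecidableEq κ]
    (P : κ → Bool → ι → ℕ) (hcol : ∀ e, ∑ c, (P c false e + P c true e) = 2) (J : κ → ι)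
    (hJ : Function.Injective J) [Fintype ↥(Set.range J)ᶜ]
    (hdet : (Matrix.of fun c c' : κ => ((P c false (J c') : ℝ) - (P c true (J c') : ℝ))).det ≠ 0)
    (ε : ℝ) (hε : 0 < ε) (hε2 : ε ≤ 1 / 2) (ξ : κ → Bool → ℝ) (hξ : ∀ c b, 0 ≤ ξ c b)
    (w : ι → ℝ → ℝ) (hw : ∀ e, Integrable (w e))
    (hwm : ∀ e, Measurable (w e)) (hw0 : ∀ e t, 0 ≤ w e t)
    (hdom : ∀ x : ι → ℝ, (∀ e, 0 < x e) →
      (∏ c : κ, kern ε (∑ e, (P c false e : ℝ) * x e + ξ c false)
        (∑ e, (P c true e : ℝ) * x e + ξ c true)) ≠ 0 →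
      ∀ e : ↥(Set.range J)ᶜ, Real.exp (-(9 / 10 * x e)) ≤ w e (x e)) :
    AM P ε ξ ≤ 10 ^ (Fintype.card κ) * ∏ e : ↥(Set.range J)ᶜ, ∫ t, w e t := by
  classical
  have hbound0 : 0 ≤ 10 ^ (Fintype.card κ) * ∏ e : ↥(Set.range J)ᶜ, ∫ t, w e t := by
    apply mul_nonneg (by positivity)
    exact Finset.prod_nonneg fun e _ => integral_nonneg fun t => hw0 e t
  -- determinant
  have hdet1 : 1 ≤ |(Matrix.of fun c c' : κ =>
      ((P c false (J c') : ℝ) - (P c true (J c') : ℝ))).det| := by
    have h1 : (Matrix.of fun c c' : κ => ((P c false (J c') : ℝ) - (P c true (J c') : ℝ))) =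
        (Int.castRingHom ℝ).mapMatrix
          (Matrix.of fun c c' : κ => ((P c false (J c') : ℤ) - (P c true (J c') : ℤ))) := by
      ext c c'
      simp
    rw [h1, ← RingHom.map_det] at hdet ⊢
    rw [eq_intCast] at hdet ⊢
    rw [← Int.cast_abs]
    have h2 : (Matrix.of fun c c' : κ =>
        ((P c false (J c') : ℤ) - (P c true (J c') : ℤ))).det ≠ 0 := by
      intro h
      apply hdet
      rw [h]
      simp
    have h3 := Int.one_le_abs h2
    exact_mod_cast h3
  -- pointwise bound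
  have hpt : ∀ x : ι → ℝ, (∀ e, 0 < x e) →
      ∏ c : κ, kern ε (∑ e, (P c false e : ℝ) * x e + ξ c false)
        (∑ e, (P c true e : ℝ) * x e + ξ c true) ≤
      10 ^ (Fintype.card κ) * ((∏ e : ↥(Set.range J)ᶜ, w e (x e)) *
        ∏ c, corr ε (∑ e, ((P c false e : ℝ) - (P c true e : ℝ)) * x e +
          (ξ c false - ξ c true))) := by
    intro x hx
    by_cases h0 : ∏ c : κ, kern ε (∑ e, (P c false e : ℝ) * x e + ξ c false)
        (∑ e, (P c true e : ℝ) * x e + ξ c true) = 0
    · rw [h0]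
      apply mul_nonneg (by positivity)
      apply mul_nonneg
      · exact Finset.prod_nonneg fun e _ => hw0 _ _
      · exact Finset.prod_nonneg fun e _ => corr_nonneg ε hε _
    · have hp : ∀ c b, 0 ≤ ∑ e, (P c b e : ℝ) * x e + ξ c b := by
        intro c b
        apply add_nonneg _ (hξ c b)
        exact Finset.sum_nonneg fun e _ => mul_nonneg (Nat.cast_nonneg _) (hx e).le
      have h1 : ∏ c : κ, kern ε (∑ e, (P c false e : ℝ) * x e + ξ c false)
          (∑ e, (P c true e : ℝ) * x e + ξ c true) ≤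
          ∏ c : κ, (10 * Real.exp (-(9 / 20 * ((∑ e, (P c false e : ℝ) * x e + ξ c false) +
            (∑ e, (P c true e : ℝ) * x e + ξ c true)))) *
            corr ε ((∑ e, (P c false e : ℝ) * x e + ξ c false) -
              (∑ e, (P c true e : ℝ) * x e + ξ c true))) := by
        apply Finset.prod_le_prod
        · intro c _
          exact kern_nonneg ε hε _ _
        · intro c _
          exact kern_exp9 ε hε hε2 _ _ (hp c false) (hp c true)
      refine le_trans h1 ?_
      rw [Finset.prod_mul_distrib, Finset.prod_mul_distrib, Finset.prod_const, Finset.card_univ,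
        mul_assoc]
      apply mul_le_mul_of_nonneg_left _ (by positivity)
      have h2 : ∏ c : κ, corr ε ((∑ e, (P c false e : ℝ) * x e + ξ c false) -
              (∑ e, (P c true e : ℝ) * x e + ξ c true)) =
          ∏ c, corr ε (∑ e, ((P c false e : ℝ) - (P c true e : ℝ)) * x e +
          (ξ c false - ξ c true)) := by
        refine Finset.prod_congr rfl fun c _ => ?_
        congr 1
        simp only [sub_mul, Finset.sum_sub_distrib]
        ring
      rw [h2]
      apply mul_le_mul_of_nonneg_right _ (Finset.prod_nonneg fun c _ => corr_nonneg ε hε _)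
      rw [← Real.exp_sum]
      have h3 : ∏ e : ↥(Set.range J)ᶜ, Real.exp (-(9 / 10 * x e)) ≤
          ∏ e : ↥(Set.range J)ᶜ, w e (x e) := by
        apply Finset.prod_le_prod
        · intro e _
          exact (Real.exp_pos _).le
        · intro e _
          exact hdom x hx h0 e
      refine le_trans ?_ h3
      rw [← Real.exp_sum]
      apply Real.exp_le_exp.mpr
      rw [Finset.sum_neg_distrib, Finset.sum_neg_distrib, ← Finset.mul_sum, ← Finset.mul_sum]
      have h4 : ∑ e : ↥(Set.range J)ᶜ, x e ≤ ∑ e, x e := by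
        have h5 : ∑ e : ↥(Set.range J)ᶜ, x e = ∑ e ∈ (univ : Finset ↥(Set.range J)ᶜ).map
            (Function.Embedding.subtype _), x e := by
          rw [Finset.sum_map]
          rfl
        rw [h5]
        apply Finset.sum_le_sum_of_subset_of_nonneg (Finset.subset_univ _)
        intro e _ _
        exact (hx e).le
      have h6 : 2 * ∑ e, x e ≤ ∑ c : κ, ((∑ e, (P c false e : ℝ) * x e + ξ c false) +
            (∑ e, (P c true e : ℝ) * x e + ξ c true)) := by
        have h7 : ∑ c : κ, (∑ e, (P c false e : ℝ) * x e + ∑ e, (P c true e : ℝ) * x e) =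
            2 * ∑ e, x e := by
          have h8 : ∀ c : κ, (∑ e, (P c false e : ℝ) * x e + ∑ e, (P c true e : ℝ) * x e) =
              ∑ e, ((P c false e : ℝ) + (P c true e : ℝ)) * x e := by
            intro c
            rw [← Finset.sum_add_distrib]
            exact Finset.sum_congr rfl fun e _ => by ring
          simp only [h8]
          rw [Finset.sum_comm, Finset.mul_sum]
          refine Finset.sum_congr rfl fun e _ => ?_
          rw [← Finset.sum_mul]
          congr 1
          have := hcol e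
          exact_mod_cast this
        rw [← h7]
        apply Finset.sum_le_sum
        intro c _
        have := hξ c false
        have := hξ c true
        linarith
      linarith
  -- integral
  have hkc : Continuous (fun x : ι → ℝ =>
      ∏ c : κ, kern ε (∑ e, (P c false e : ℝ) * x e + ξ c false)
        (∑ e, (P c true e : ℝ) * x e + ξ c true)) := by
    apply continuous_finsetProd
    intro c _
    have h9 : Continuous (fun x : ι → ℝ => ((∑ e, (P c false e : ℝ) * x e + ξ c false),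
        (∑ e, (P c true e : ℝ) * x e + ξ c true))) := by
      fun_prop
    exact (kern_continuous ε hε).comp h9
  unfold AM
  rw [integral_eq_lintegral_of_nonneg_ae
    (Filter.Eventually.of_forall fun x => Finset.prod_nonneg fun c _ => kern_nonneg ε hε _ _)
    hkc.aestronglyMeasurable]
  apply ENNReal.toReal_le_of_le_ofReal hbound0
  calc ∫⁻ x in {x : ι → ℝ | ∀ e, 0 < x e}, ENNReal.ofReal (∏ c : κ,
        kern ε (∑ e, (P c false e : ℝ) * x e + ξ c false)
        (∑ e, (P c true e : ℝ) * x e + ξ c true))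
      ≤ ∫⁻ x in {x : ι → ℝ | ∀ e, 0 < x e}, ENNReal.ofReal (10 ^ (Fintype.card κ)) *
        ENNReal.ofReal ((∏ e : ↥(Set.range J)ᶜ, w e (x e)) *
        ∏ c, corr ε (∑ e, ((P c false e : ℝ) - (P c true e : ℝ)) * x e +
          (ξ c false - ξ c true))) := by
        apply setLIntegral_mono' (orthant_meas ι)
        intro x hx
        rw [← ENNReal.ofReal_mul (by positivity)]
        exact ENNReal.ofReal_le_ofReal (hpt x hx)
    _ ≤ ∫⁻ x : ι → ℝ, ENNReal.ofReal (10 ^ (Fintype.card κ)) *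
        ENNReal.ofReal ((∏ e : ↥(Set.range J)ᶜ, w e (x e)) *
        ∏ c, corr ε (∑ e, ((P c false e : ℝ) - (P c true e : ℝ)) * x e +
          (ξ c false - ξ c true))) := setLIntegral_le_lintegral _ _
    _ = ENNReal.ofReal (10 ^ (Fintype.card κ)) * ∫⁻ x : ι → ℝ,
        ENNReal.ofReal ((∏ e : ↥(Set.range J)ᶜ, w e (x e)) *
        ∏ c, corr ε (∑ e, ((P c false e : ℝ) - (P c true e : ℝ)) * x e +
          (ξ c false - ξ c true))) := by
        rw [lintegral_const_mul' _ _ ENNReal.ofReal_ne_top]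
    _ ≤ ENNReal.ofReal (10 ^ (Fintype.card κ)) *
        ENNReal.ofReal (∏ e : ↥(Set.range J)ᶜ, ∫ t, w e t) := by
        apply mul_le_mul_right
        exact minor_lint (fun c e => (P c false e : ℝ) - (P c true e : ℝ)) J hJ hdet1 (corr ε)
          (corr_continuous ε hε) (corr_integrable ε hε) (corr_nonneg ε hε) (corr_integral ε hε)
          (fun c => ξ c false - ξ c true) w hw hwm hw0
    _ = _ := by
        rw [← ENNReal.ofReal_mul (by positivity)]

private theorem exp_int : ∫ t in Set.Ioi (0:ℝ), Real.exp (-(9 / 10 * t)) = 10 / 9 := by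
  have h := integral_exp_mul_Ioi (a := -(9 / 10 : ℝ)) (by norm_num) 0
  have h1 : (fun t : ℝ => Real.exp (-(9 / 10 * t))) = fun t => Real.exp (-(9 / 10) * t) := by
    funext t
    congr 1
    ring
  rw [h1, h]
  norm_num

private theorem exp_int_on : IntegrableOn (fun t : ℝ => Real.exp (-(9 / 10 * t)))
    (Set.Ioi (0:ℝ)) := by
  have h := integrableOn_exp_mul_Ioi (a := -(9 / 10 : ℝ)) (by norm_num) 0
  have h1 : (fun t : ℝ => Real.exp (-(9 / 10 * t))) = fun t => Real.exp (-(9 / 10) * t) := by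
    funext t
    congr 1
    ring
  rw [h1]
  exact h

theorem AM_le_of_minor {ι κ : Type} [Fintype ι] [Fintype κ] [DecidableEq κ]
    (P : κ → Bool → ι → ℕ) (hcol : ∀ e, ∑ c, (P c false e + P c true e) = 2) (J : κ → ι)
    (hJ : Function.Injective J)
    (hdet : (Matrix.of fun c c' : κ => ((P c false (J c') : ℝ) - (P c true (J c') : ℝ))).det ≠ 0)
    (ε : ℝ) (hε : 0 < ε) (hε2 : ε ≤ 1 / 2) (ξ : κ → Bool → ℝ) (hξ : ∀ c b, 0 ≤ ξ c b) :
    AM P ε ξ ≤ 10 ^ (Fintype.card κ) * (10 / 9) ^ (Fintype.card ι) := by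
  classical
  haveI : Fintype ↥(Set.range J)ᶜ := Fintype.ofFinite _
  refine le_trans (AM_le_gen P hcol J hJ hdet ε hε hε2 ξ hξ
    (fun _ => (Set.Ioi (0:ℝ)).indicator (fun t => Real.exp (-(9 / 10 * t)))) ?_ ?_ ?_ ?_) ?_
  · intro e
    rw [integrable_indicator_iff measurableSet_Ioi]
    exact exp_int_on
  · intro e
    exact Measurable.indicator (by fun_prop) measurableSet_Ioi
  · intro e t
    exact Set.indicator_nonneg (fun t _ => (Real.exp_pos _).le) t
  · intro x hx _ e
    rw [Set.indicator_of_mem (show x e ∈ Set.Ioi (0:ℝ) from hx e)]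
  · apply mul_le_mul_of_nonneg_left _ (by positivity)
    have h1 : ∫ t : ℝ, (Set.Ioi (0:ℝ)).indicator (fun t => Real.exp (-(9 / 10 * t))) t =
        10 / 9 := by
      rw [integral_indicator measurableSet_Ioi, exp_int]
    simp only [h1, Finset.prod_const, Finset.card_univ]
    apply pow_le_pow_right₀ (by norm_num)
    exact Fintype.card_le_of_injective (fun e : ↥(Set.range J)ᶜ => (e : ι)) Subtype.val_injective

theorem AM_le_of_minor' {ι κ : Type} [Fintype ι] [Fintype κ] [DecidableEq κ]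
    (P : κ → Bool → ι → ℕ) (hcol : ∀ e, ∑ c, (P c false e + P c true e) = 2) (J : κ → ι)
    (hJ : Function.Injective J)
    (hdet : (Matrix.of fun c c' : κ => ((P c false (J c') : ℝ) - (P c true (J c') : ℝ))).det ≠ 0)
    (ε : ℝ) (hε : 0 < ε) (hε2 : ε ≤ 1 / 2) (ξ : κ → Bool → ℝ) (hξ : ∀ c b, 0 ≤ ξ c b)
    (e₀ : ι) (he : ∀ c, J c ≠ e₀) (η : ℝ) (hη : 0 ≤ η)
    (hsupp : ∀ x : ι → ℝ, (∀ e, 0 < x e) →
      (∏ c : κ, kern ε (∑ e, (P c false e : ℝ) * x e + ξ c false)
        (∑ e, (P c true e : ℝ) * x e + ξ c true)) ≠ 0 → x e₀ ≤ η) :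
    AM P ε ξ ≤ 10 ^ (Fintype.card κ) * (10 / 9) ^ (Fintype.card ι) * η := by
  classical
  haveI : Fintype ↥(Set.range J)ᶜ := Fintype.ofFinite _
  refine le_trans (AM_le_gen P hcol J hJ hdet ε hε hε2 ξ hξ
    (fun e => if e = e₀ then (Set.Ioc (0:ℝ) η).indicator (fun _ => 1)
      else (Set.Ioi (0:ℝ)).indicator (fun t => Real.exp (-(9 / 10 * t)))) ?_ ?_ ?_ ?_) ?_
  · intro e
    split_ifs
    · rw [integrable_indicator_iff measurableSet_Ioc]
      exact integrableOn_const measure_Ioc_lt_top.ne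
    · rw [integrable_indicator_iff measurableSet_Ioi]
      exact exp_int_on
  · intro e
    split_ifs
    · exact Measurable.indicator (by fun_prop) measurableSet_Ioc
    · exact Measurable.indicator (by fun_prop) measurableSet_Ioi
  · intro e t
    split_ifs
    · exact Set.indicator_nonneg (fun t _ => zero_le_one) t
    · exact Set.indicator_nonneg (fun t _ => (Real.exp_pos _).le) t
  · intro x hx h0 e
    by_cases h : (e : ι) = e₀
    · rw [if_pos h]
      have h1 : x e ∈ Set.Ioc (0:ℝ) η := ⟨hx e, by rw [h]; exact hsupp x hx h0⟩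
      rw [Set.indicator_of_mem h1]
      rw [Real.exp_le_one_iff]
      have := hx e
      linarith
    · rw [if_neg h, Set.indicator_of_mem (show x e ∈ Set.Ioi (0:ℝ) from hx e)]
  · rw [mul_assoc]
    apply mul_le_mul_of_nonneg_left _ (by positivity)
    have h1 : ∫ t : ℝ, (Set.Ioi (0:ℝ)).indicator (fun t => Real.exp (-(9 / 10 * t))) t =
        10 / 9 := by
      rw [integral_indicator measurableSet_Ioi, exp_int]
    have h2 : ∫ t : ℝ, (Set.Ioc (0:ℝ) η).indicator (fun _ => (1:ℝ)) t = η := by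
      rw [integral_indicator measurableSet_Ioc]
      simp [hη]
    have h3 : ∀ e : ↥(Set.range J)ᶜ, ∫ t : ℝ, (if (e : ι) = e₀ then
        (Set.Ioc (0:ℝ) η).indicator (fun _ => 1)
        else (Set.Ioi (0:ℝ)).indicator (fun t => Real.exp (-(9 / 10 * t)))) t =
        (if e = ⟨e₀, by simpa using he⟩ then η else 1) *
          (if e = ⟨e₀, by simpa using he⟩ then 1 else 10 / 9) := by
      intro e
      by_cases h : (e : ι) = e₀
      · have h' : e = ⟨e₀, by simpa using he⟩ := Subtype.ext h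
        rw [if_pos h, if_pos h', if_pos h', h2, mul_one]
      · have h' : ¬ e = ⟨e₀, by simpa using he⟩ := fun h'' => h (by rw [h''])
        rw [if_neg h, if_neg h', if_neg h', h1, one_mul]
    simp only [h3]
    rw [Finset.prod_mul_distrib, Finset.prod_ite_eq', if_pos (Finset.mem_univ _), mul_comm]
    apply mul_le_mul_of_nonneg_right _ hη
    have h4 : ∏ e : ↥(Set.range J)ᶜ, (if e = ⟨e₀, by simpa using he⟩ then (1:ℝ) else 10 / 9) ≤
        ∏ _e : ↥(Set.range J)ᶜ, (10 / 9 : ℝ) := by
      apply Finset.prod_le_prod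
      · intro e _
        split_ifs <;> norm_num
      · intro e _
        split_ifs <;> norm_num
    refine le_trans h4 ?_
    rw [Finset.prod_const, Finset.card_univ]
    apply pow_le_pow_right₀ (by norm_num)
    exact Fintype.card_le_of_injective (fun e : ↥(Set.range J)ᶜ => (e : ι)) Subtype.val_injective

end Pool.Agent.Helper62.MVC2
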