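import Mathlib

/-!
MV-C2-4a. Existence of an invertible minor.

Proof. The columns `(B · e)`, `e ∈ s`, span `κ → ℝ` (their span `V` is everything, otherwise a nonzero linear form
`∑ lam_c v_c` vanishes on `V`: `Submodule.exists_dual_forall_apply_eq_zero_iff`/`Submodule.exists_le_ker_of_lt_top`), so some of
them form a basis (`exists_linearIndependent`/`exists_linearIndependent'`), which has `|κ|` elements; enumerate it by `κ`;
linear independence gives `det ≠ 0` (`Matrix.linearIndependent_cols_iff_isUnit` or so).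
-/

namespace Pool.Agent.Helper62.MVC2

open Finset

theorem exists_minor {ι κ : Type} [Fintype ι] [Fintype κ] [DecidableEq κ] (B : κ → ι → ℝ)
    (s : Set ι) (h : ∀ lam : κ → ℝ, (∀ e ∈ s, ∑ c, lam c * B c e = 0) → lam = 0) :
    ∃ J : κ → ι, Function.Injective J ∧ (∀ c, J c ∈ s) ∧
      (Matrix.of fun c c' : κ => B c (J c')).det ≠ 0 := by
  classical
  let v : s → (κ → ℝ) := fun e c => B c e.1
  have hspan : Submodule.span ℝ (Set.range v) = ⊤ := by
    by_contra hne
    obtain ⟨f, hf, hle⟩ := Submodule.exists_le_ker_of_lt_top _ (lt_top_iff_ne_top.2 hne)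
    have h1 : ∀ x : κ → ℝ, f x = ∑ c, x c * f (Pi.single c 1) := by
      intro x
      conv_lhs => rw [← Finset.univ_sum_single x, map_sum]
      refine Finset.sum_congr rfl fun c _ => ?_
      have h2 : (Pi.single c (x c) : κ → ℝ) = x c • Pi.single c 1 := by
        rw [← Pi.single_smul]
        simp
      rw [h2, map_smul, smul_eq_mul]
    have h3 := h (fun c => f (Pi.single c 1)) (fun e he => by
      have h4 : f (v ⟨e, he⟩) = 0 :=
        hle (Submodule.subset_span ⟨⟨e, he⟩, rfl⟩)
      rw [h1] at h4
      rw [← h4]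
      exact Finset.sum_congr rfl fun c _ => mul_comm _ _)
    apply hf
    ext c
    simpa using congrFun h3 c
  obtain ⟨κ', a, ha, hs, hli⟩ := exists_linearIndependent' ℝ v
  rw [hspan] at hs
  let b : Module.Basis κ' ℝ (κ → ℝ) := Module.Basis.mk hli hs.ge
  let eq : κ ≃ κ' := (Pi.basisFun ℝ κ).indexEquiv b
  refine ⟨fun c => (a (eq c)).1, ?_, fun c => (a (eq c)).2, ?_⟩
  · intro c c' hcc
    exact eq.injective (ha (Subtype.ext hcc))
  · have h5 : LinearIndependent ℝ (fun c : κ => v (a (eq c))) := hli.comp eq eq.injective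
    have h6 : LinearIndependent ℝ (Matrix.of fun c c' : κ => B c' (a (eq c)).1).row := h5
    rw [Matrix.linearIndependent_rows_iff_isUnit, Matrix.isUnit_iff_isUnit_det] at h6
    rw [← Matrix.det_transpose]
    exact h6.ne_zero

end Pool.Agent.Helper62.MVC2
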