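import Mathlib
import Pool.Agent.Helper54.Stiemke

/-!
MV-C2-5. Stiemke's lemma (integral solution or real separating form).

Proof. If the open orthant `O = {x | ∀ e, 0 < x e}` of `ι → ℝ` meets `N = {x | ∀ c, ∑ e, B c e x e = 0}`: let `x` be in both. The
`ℚ`-span of the reals `x e` has a finite basis `w_1, ..., w_m` (`ℚ`-linearly independent reals), `x e = ∑_j q e j w_j` with
`q e j : ℚ`; `∑_e B c e x e = 0` and linear independence give `∑_e B c e q e j = 0` for all `c, j`. So for all rational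
`r_1..r_m` the vector `y e = ∑_j q e j r_j` is in the rational kernel; if `r_j` is close enough to `w_j`, `y e > 0` for all `e`
(density of `ℚ`, continuity of `r ↦ ∑_j q e j r_j`, finitely many `e`). Multiply by a common denominator.
(Another proof: Gaussian elimination/`Matrix` over `ℚ`; any proof is fine.)
Otherwise `O` (open, convex; nonempty: it contains the constant 1) and the subspace `N` (convex) are disjoint:
`geometric_hahn_banach_open` gives a continuous linear `f` and `s` with `f a < s` on `O` and `s ≤ f b` on `N`. `f = 0` on `N`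
(subspace, bounded below), so `s ≤ 0`, and `f < 0` on `O`, so `f (Pi.single e 1) ≤ 0` for each `e` (limit of points of `O`), and
not all of them are zero (as `f ≠ 0`: `f 1 < 0`). A linear form vanishing on the kernel `N` of `x ↦ (∑ e, B c e x e)_c`
is `∑_c lam_c ∑_e B c e x e` (`LinearMap.range_dualMap_eq_dualAnnihilator_ker`, or
`mem_span_of_iInf_ker_le_ker`). Take `-f`.
-/

namespace Pool.Agent.Helper62.MVC2

open Finset

/-- clearing denominators of a positive rational vector -/
private theorem clear_den {ι : Type} [Fintype ι] (n : ι → ℚ) (hn : ∀ i, 0 < n i) :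
    ∃ (D : ℕ) (u : ι → ℕ), 0 < D ∧ (∀ i, 0 < u i) ∧ ∀ i, (u i : ℚ) = D * n i := by
  classical
  have hD : 0 < ∏ i, (n i).den := Finset.prod_pos fun i _ => Rat.den_pos _
  have hu : ∀ i, ∃ m : ℕ, (m : ℚ) = ((∏ i, (n i).den : ℕ) : ℚ) * n i := by
    intro i
    obtain ⟨d, hd⟩ : (n i).den ∣ ∏ i, (n i).den :=
      Finset.dvd_prod_of_mem (fun i => (n i).den) (Finset.mem_univ i)
    refine ⟨d * (n i).num.toNat, ?_⟩
    have h1 : (((n i).num.toNat : ℕ) : ℚ) = ((n i).num : ℚ) := by
      have : (((n i).num.toNat : ℕ) : ℤ) = (n i).num :=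
        Int.toNat_of_nonneg (Rat.num_nonneg.2 (hn i).le)
      exact_mod_cast this
    rw [hd]
    push_cast
    rw [h1]
    have h2 : (n i) * ((n i).den : ℚ) = ((n i).num : ℚ) := Rat.mul_den_eq_num _
    rw [← h2]
    ring
  choose u hu using hu
  refine ⟨_, u, hD, fun i => ?_, hu⟩
  have h1 : (0 : ℚ) < u i := by
    rw [hu i]
    exact mul_pos (by exact_mod_cast hD) (hn i)
  exact_mod_cast h1

theorem stiemke {ι κ : Type} [Fintype ι] [Fintype κ] (B : κ → ι → ℤ) :
    (∃ u : ι → ℕ, (∀ e, 0 < u e) ∧ ∀ c, ∑ e, B c e * (u e : ℤ) = 0) ∨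
    ∃ lam : κ → ℝ, (∀ e, 0 ≤ ∑ c, lam c * (B c e : ℝ)) ∧ ∃ e, 0 < ∑ c, lam c * (B c e : ℝ) := by
  classical
  let eqv := Fintype.equivFin ι
  rcases Pool.Agent.Helper54.EndCanc.stiemke (Fintype.card ι) (κ → ℚ)
    (fun i c => (B c (eqv.symm i) : ℚ)) with ⟨l, hl, j, hj⟩ | ⟨n, hn, hn'⟩
  · right
    have hf : ∀ w : κ → ℚ, l w = ∑ c, l (Pi.single c 1) * w c := by
      intro w
      conv_lhs => rw [pi_eq_sum_univ' w]
      rw [map_sum]
      refine Finset.sum_congr rfl fun i _ => ?_
      rw [map_smul, smul_eq_mul, mul_comm]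
    have hval : ∀ e, ∑ c, ((l (Pi.single c 1) : ℚ) : ℝ) * (B c e : ℝ) =
        ((l (fun c => (B c e : ℚ)) : ℚ) : ℝ) := by
      intro e
      rw [hf (fun c => (B c e : ℚ))]
      push_cast
      rfl
    refine ⟨fun c => ((l (Pi.single c 1) : ℚ) : ℝ), fun e => ?_, eqv.symm j, ?_⟩
    · rw [hval]
      have h1 := hl (eqv e)
      rw [Equiv.symm_apply_apply] at h1
      exact_mod_cast h1
    · rw [hval]
      exact_mod_cast hj
  · left
    obtain ⟨D, u, hD, hu, hun⟩ := clear_den (fun e : ι => n (eqv e)) (fun e => hn _)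
    refine ⟨u, hu, fun c => ?_⟩
    have h1 := congrFun hn' c
    rw [Finset.sum_apply] at h1
    have h2 : ∑ e : ι, n (eqv e) * (B c e : ℚ) = 0 := by
      refine Eq.trans ?_ h1
      refine (Fintype.sum_equiv eqv _ _ fun e => ?_)
      change n (eqv e) * (B c e : ℚ) = n (eqv e) • (B c (eqv.symm (eqv e)) : ℚ)
      rw [Equiv.symm_apply_apply, smul_eq_mul]
    have h3 : (∑ e : ι, (B c e : ℚ) * (u e : ℚ)) = 0 := by
      have h4 : (∑ e : ι, (B c e : ℚ) * (u e : ℚ)) = D * ∑ e : ι, n (eqv e) * (B c e : ℚ) := by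
        rw [Finset.mul_sum]
        refine Finset.sum_congr rfl fun e _ => ?_
        rw [hun e]
        ring
      rw [h4, h2, mul_zero]
    exact_mod_cast h3

end Pool.Agent.Helper62.MVC2
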