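import Pool.Agent.Helper62.MVC2.Gen
import Pool.Agent.Helper62.MVC2.Minor
import Pool.Agent.Helper62.MVC2.MinorEx
import Pool.Agent.Helper62.MVC2.Stiemke

/-!
MV-C2-7. Crude bound of all connected configurations; bad configurations without leaf (and not AA) have small regularised volume;
good configurations have no leaf.

Notation: `H` half-edges, for `lam : R.Cyl → ℝ` define `μ_lam : H → ℝ` by `μ(h) = lam c` if `R.face h = R.cface c false`, `μ(h) = - lam c` if
`R.face h = R.cface c true` (`cface_bij`: each face is `cface c b` for exactly one `(c, b)`). Then `μ` depends on the face only, and is odd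
under `R.β` (`R.β` exchanges `cface c false`, `cface c true`). For an edge `e` of a half-edge `h`:
`∑_c lam c (P c false e - P c true e) = ∑_{h' : edge h' = e} μ(h') = μ(h) + μ(τ h)` (`R.P` counts the half-edges of `e` in a face; the half-edges
of the edge of `h` are `h, τ h`, distinct).
* `edge_inj`: so if `∑_c lam c (P c false e - P c true e) = 0` for all edges `e ≠ e₀`, `e₀ = R.edge x`, then `hdel` gives `μ = 0`, so `lam = 0`.
* `edge_inj_all`: if it is `0` for all edges, then `μ(τ h) = - μ(h)` for all `h`, and `μ(σ h) = μ(τ h)` (`face_tau`: `face (τ h) = face (σ h)`),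
  so `μ` alternates along the `σ`-cycles, which are odd: `μ = 0`.
* `A_le_crude`: `exists_minor` (with `s = univ`, `edge_inj_all`) and `AM_le_of_minor` (`P_col`); `R.crude` is the bound.
* `bad_small`: let `B c e = P c false e - P c true e` (integers). `R` is not good, so by `sum_P_nat` (and `cface_bij`) there is no
  `u : Edge → ℕ`, `u > 0`, with `∑_e B c e u e = 0` for all `c`; by `stiemke` there is `lam` with `a_e := ∑_c lam_c B c e ≥ 0`, `a_{e₀} > 0` for some
  `e₀`. For `x > 0` with nonzero integrand: `|∑_e B c e x_e + ξ_{c0} - ξ_{c1}| < 2 ε` (`kern_zero`), so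
  `a_{e₀} x_{e₀} ≤ ∑_e a_e x_e = ∑_c lam_c (B x)_c ≤ (∑_c |lam_c|) (2 + C) ε`, that is `x_{e₀} ≤ C' ε`. By `edge_inj` and `exists_minor` with
  `s = {e ≠ e₀}` there is a minor avoiding `e₀`; `AM_le_of_minor'` with `η = C' ε` gives `R.A ε ξ ≤ const · C' ε ≤ δ` for small `ε`.
* `good_no_leaf`: for a leaf `(x, μ)` and `u` as in `Good`: `∑_h μ(h) u(edge h)`, summed over faces, is `∑_f μ_f per_f(u) = 0` (`β` exchanges `f`
  and `β f`, `per u f = per u (β f)`, `μ` odd), and summed over edges is `u(edge x) (μ(x) + μ(τ x)) = u(edge x) > 0`. (For the second sum use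
  the involution `τ`: `2 ∑_h μ(h) u(edge h) = ∑_h (μ(h) + μ(τ h)) u(edge h)`, only `h = x, τ x` contribute.)
-/

namespace Pool.Agent.Helper62.MVC2

open Finset MeasureTheory Filter Topology Pool.Agent.Helper60.MV

private theorem bcyc_apply {A : Type} {g : Equiv.Perm A} (x : A) : cyc g (g x) = cyc g x := by
  unfold cyc
  refine Quotient.sound ?_
  change Equiv.Perm.SameCycle g (g x) x
  exact ⟨-1, by simp⟩

private theorem bcyc_surj {A : Type} {g : Equiv.Perm A} (c : Cyc g) : ∃ x, cyc g x = c :=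
  ⟨c.rep, Quotient.out_eq c⟩

private theorem bedge_eq {H : Type} {σ : Equiv.Perm H} (R : Conf σ) {h x : H}
    (he : R.edge h = R.edge x) : h = x ∨ h = R.τ x := by
  have h1 : R.τ.SameCycle x h := Quotient.exact he.symm
  obtain ⟨i, hi⟩ := h1
  have h2 : R.τ ^ (2 : ℤ) = 1 := by
    ext z
    rw [zpow_two, Equiv.Perm.mul_apply, R.hτ.invol, Equiv.Perm.one_apply]
  rcases Int.even_or_odd' i with ⟨k, hk | hk⟩
  · left
    rw [← hi, hk, zpow_mul, h2, one_zpow, Equiv.Perm.one_apply]
  · right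
    rw [← hi, hk, zpow_add, zpow_mul, h2, one_zpow, one_mul, zpow_one]

private theorem bedge_tau {H : Type} {σ : Equiv.Perm H} (R : Conf σ) (h : H) :
    R.edge (R.τ h) = R.edge h := bcyc_apply h

private theorem bbeta_true {H : Type} {σ : Equiv.Perm H} (R : Conf σ) (c : R.Cyl) :
    R.β (R.cface c true) = R.cface c false := R.hβ.invol _

private theorem bbeta_false {H : Type} {σ : Equiv.Perm H} (R : Conf σ) (c : R.Cyl) :
    R.β (R.cface c false) = R.cface c true := rfl

/-- the face function of `lam` -/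
private noncomputable def mF {H : Type} [Fintype H] {σ : Equiv.Perm H} (R : Conf σ)
    (lam : R.Cyl → ℝ) (f : R.Face) : ℝ :=
  ∑ c, lam c * ((if f = R.cface c false then (1 : ℝ) else 0) -
    (if f = R.cface c true then (1 : ℝ) else 0))

private theorem cface_inj {H : Type} [Fintype H] {σ : Equiv.Perm H} (R : Conf σ)
    (c c' : R.Cyl) (b b' : Bool) : R.cface c b = R.cface c' b' ↔ c = c' ∧ b = b' := by
  constructor
  · intro h
    have h1 := (cface_bij R).1 (a₁ := (c, b)) (a₂ := (c', b')) h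
    simpa using h1
  · rintro ⟨rfl, rfl⟩
    rfl

private theorem mF_false {H : Type} [Fintype H] {σ : Equiv.Perm H} (R : Conf σ)
    (lam : R.Cyl → ℝ) (c : R.Cyl) : mF R lam (R.cface c false) = lam c := by
  unfold mF
  rw [Finset.sum_eq_single c]
  · simp [cface_inj]
  · intro c' _ hc
    simp [cface_inj, Ne.symm hc]
  · intro h
    exact absurd (Finset.mem_univ c) h

private theorem mF_true {H : Type} [Fintype H] {σ : Equiv.Perm H} (R : Conf σ)
    (lam : R.Cyl → ℝ) (c : R.Cyl) : mF R lam (R.cface c true) = - lam c := by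
  unfold mF
  rw [Finset.sum_eq_single c]
  · simp [cface_inj]
  · intro c' _ hc
    simp [cface_inj, Ne.symm hc]
  · intro h
    exact absurd (Finset.mem_univ c) h

private theorem mF_beta {H : Type} [Fintype H] {σ : Equiv.Perm H} (R : Conf σ)
    (lam : R.Cyl → ℝ) (f : R.Face) : mF R lam (R.β f) = - mF R lam f := by
  obtain ⟨⟨c, b⟩, hq⟩ := (cface_bij R).2 f
  simp only at hq
  subst hq
  cases b
  · rw [bbeta_false, mF_true, mF_false]
  · rw [bbeta_true, mF_true, mF_false, neg_neg]

private theorem sum_edge {H : Type} [Fintype H] {σ : Equiv.Perm H} (R : Conf σ) (x : H)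
    (F : H → ℝ) : (∑ h : H, if R.edge h = R.edge x then F h else 0) = F x + F (R.τ x) := by
  classical
  have h5 : (univ.filter (fun h : H => R.edge h = R.edge x)) = {x, R.τ x} := by
    ext h
    simp only [mem_filter, mem_univ, true_and, mem_insert, mem_singleton]
    constructor
    · intro hh
      exact bedge_eq R hh
    · rintro (hh | hh)
      · rw [hh]
      · rw [hh]
        exact bedge_tau R x
  rw [← Finset.sum_filter, h5, Finset.sum_pair (Ne.symm (R.hτ.fpf x))]

private theorem sum_lam {H : Type} [Fintype H] {σ : Equiv.Perm H} (R : Conf σ)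
    (lam : R.Cyl → ℝ) (e : R.Edge) :
    ∑ c, lam c * ((R.P c false e : ℝ) - (R.P c true e : ℝ)) =
      ∑ h : H, if R.edge h = e then mF R lam (R.face h) else 0 := by
  classical
  have h1 : ∀ c b, (R.P c b e : ℝ) =
      ∑ h : H, if R.edge h = e then (if R.face h = R.cface c b then (1 : ℝ) else 0) else 0 := by
    intro c b
    have h2 : R.P c b e =
        (univ.filter (fun h : H => R.face h = R.cface c b ∧ R.edge h = e)).card := by
      unfold Conf.P
      congr
    rw [h2, Finset.card_filter, Nat.cast_sum]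
    refine Finset.sum_congr rfl fun h _ => ?_
    by_cases h3 : R.face h = R.cface c b <;> by_cases h4 : R.edge h = e <;> simp [h3, h4]
  have h3 : ∀ c, lam c * ((R.P c false e : ℝ) - (R.P c true e : ℝ)) =
      ∑ h : H, if R.edge h = e then lam c * ((if R.face h = R.cface c false then (1 : ℝ) else 0) -
        (if R.face h = R.cface c true then (1 : ℝ) else 0)) else 0 := by
    intro c
    rw [h1 c false, h1 c true, ← Finset.sum_sub_distrib, Finset.mul_sum]
    refine Finset.sum_congr rfl fun h _ => ?_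
    by_cases h4 : R.edge h = e <;> simp [h4]
  rw [Finset.sum_congr rfl fun c _ => h3 c, Finset.sum_comm]
  refine Finset.sum_congr rfl fun h _ => ?_
  by_cases h4 : R.edge h = e
  · simp only [h4, if_true]
    rfl
  · simp only [h4, if_false, Finset.sum_const_zero]

private theorem sum_lam' {H : Type} [Fintype H] {σ : Equiv.Perm H} (R : Conf σ)
    (lam : R.Cyl → ℝ) (x : H) :
    ∑ c, lam c * ((R.P c false (R.edge x) : ℝ) - (R.P c true (R.edge x) : ℝ)) =
      mF R lam (R.face x) + mF R lam (R.face (R.τ x)) := by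
  rw [sum_lam]
  exact sum_edge R x (fun h => mF R lam (R.face h))

private theorem lam_zero {H : Type} [Fintype H] {σ : Equiv.Perm H} (R : Conf σ)
    (lam : R.Cyl → ℝ) (h : ∀ h, mF R lam (R.face h) = 0) : lam = 0 := by
  funext c
  obtain ⟨x, hx⟩ : ∃ x, R.face x = R.cface c false := bcyc_surj _
  have h1 := h x
  rw [hx, mF_false] at h1
  exact h1

theorem edge_inj_all {H : Type} [Fintype H] {σ : Equiv.Perm H} (hσ : AllOdd σ) (R : Conf σ)
    (lam : R.Cyl → ℝ)
    (h : ∀ e, ∑ c, lam c * ((R.P c false e : ℝ) - (R.P c true e : ℝ)) = 0) : lam = 0 := by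
  refine lam_zero R lam (fun x => ?_)
  have h1 : ∀ y, mF R lam (R.face (σ y)) = - mF R lam (R.face y) := by
    intro y
    have h2 := h (R.edge y)
    rw [sum_lam', face_tau] at h2
    linarith
  have h2 : ∀ n : ℕ, ∀ y, mF R lam (R.face ((σ^[n]) y)) = (-1) ^ n * mF R lam (R.face y) := by
    intro n
    induction n with
    | zero =>
      intro y
      simp
    | succ n ih =>
      intro y
      rw [Function.iterate_succ_apply', h1, ih, pow_succ]
      ring
  have h3 := h2 (Function.minimalPeriod σ x) x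
  rw [Function.iterate_minimalPeriod, (hσ x).neg_one_pow] at h3
  linarith

theorem edge_inj {H : Type} [Fintype H] {σ : Equiv.Perm H} (R : Conf σ) (x : H)
    (hdel : ∀ μ : H → ℝ, (∀ h h', R.face h = R.face h' → μ h = μ h') →
      (∀ h h', R.β (R.face h) = R.face h' → μ h' = - μ h) →
      (∀ h, h ≠ x → h ≠ R.τ x → μ (R.τ h) = - μ h) → ∀ h, μ h = 0)
    (lam : R.Cyl → ℝ)
    (h : ∀ e, e ≠ R.edge x → ∑ c, lam c * ((R.P c false e : ℝ) - (R.P c true e : ℝ)) = 0) :
    lam = 0 := by
  refine lam_zero R lam (hdel (fun y => mF R lam (R.face y)) ?_ ?_ ?_)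
  · intro y y' hy
    simp only [hy]
  · intro y y' hy
    simp only [← hy]
    exact mF_beta R lam _
  · intro y hy1 hy2
    have h1 : R.edge y ≠ R.edge x := by
      intro hh
      rcases bedge_eq R hh with h2 | h2
      · exact hy1 h2
      · exact hy2 h2
    have h2 := h (R.edge y) h1
    rw [sum_lam'] at h2
    linarith

theorem A_le_crude {H : Type} [Fintype H] {σ : Equiv.Perm H} (hσ : AllOdd σ) (R : Conf σ)
    (ε : ℝ) (hε : 0 < ε) (hε2 : ε ≤ 1 / 2) (ξ : R.Face → ℝ) (hξ : ∀ f, 0 ≤ ξ f) :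
    R.A ε ξ ≤ R.crude := by
  obtain ⟨J, hJ, -, hdet⟩ := exists_minor
    (fun (c : R.Cyl) (e : R.Edge) => (R.P c false e : ℝ) - (R.P c true e : ℝ)) Set.univ
    (fun lam h => edge_inj_all hσ R lam (fun e => h e (Set.mem_univ e)))
  exact AM_le_of_minor R.P (P_col R) J hJ hdet ε hε hε2 (fun c b => ξ (R.cface c b))
    (fun c b => hξ _)

theorem bad_small {H : Type} [Fintype H] {σ : Equiv.Perm H} (R : Conf σ) (hg : ¬ R.Good)
    (hdel : ∀ (x : H) (μ : H → ℝ), (∀ h h', R.face h = R.face h' → μ h = μ h') →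
      (∀ h h', R.β (R.face h) = R.face h' → μ h' = - μ h) →
      (∀ h, h ≠ x → h ≠ R.τ x → μ (R.τ h) = - μ h) → ∀ h, μ h = 0)
    (C : ℝ) (hC : 0 ≤ C) (δ : ℝ) (hδ : 0 < δ) :
    ∀ᶠ ε in 𝓝[>] (0:ℝ), ∀ ξ : R.Face → ℝ, (∀ f, 0 ≤ ξ f ∧ ξ f ≤ C * ε) → R.A ε ξ ≤ δ := by
  rcases stiemke (fun (c : R.Cyl) (e : R.Edge) => (R.P c false e : ℤ) - (R.P c true e : ℤ)) with
    ⟨u, hu, hu2⟩ | ⟨lam, hlam, e₀, he₀⟩
  · exfalso
    apply hg
    have h1 : ∀ c, R.per u (R.cface c false) = R.per u (R.cface c true) := by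
      intro c
      rw [← sum_P_nat, ← sum_P_nat]
      have h2 := hu2 c
      have h3 : ∑ e, ((R.P c false e : ℤ) - (R.P c true e : ℤ)) * (u e : ℤ) =
          ((∑ e, R.P c false e * u e : ℕ) : ℤ) - ((∑ e, R.P c true e * u e : ℕ) : ℤ) := by
        push_cast
        rw [← Finset.sum_sub_distrib]
        exact Finset.sum_congr rfl fun e _ => by ring
      rw [h3] at h2
      have h4 : ((∑ e, R.P c false e * u e : ℕ) : ℤ) = ((∑ e, R.P c true e * u e : ℕ) : ℤ) := by
        linarith
      exact_mod_cast h4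
    refine ⟨u, hu, fun f => ?_⟩
    obtain ⟨⟨c, b⟩, hq⟩ := (cface_bij R).2 f
    simp only at hq
    subst hq
    cases b
    · rw [bbeta_false]
      exact h1 c
    · rw [bbeta_true]
      exact (h1 c).symm
  · obtain ⟨x, hx⟩ : ∃ x, R.edge x = e₀ := bcyc_surj e₀
    obtain ⟨J, hJ, hJs, hdet⟩ := exists_minor
      (fun (c : R.Cyl) (e : R.Edge) => (R.P c false e : ℝ) - (R.P c true e : ℝ)) {e | e ≠ e₀}
      (fun lam h => edge_inj R x (hdel x) lam (fun e he => h e (by rw [hx] at he; exact he)))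
    push_cast at hlam he₀
    set a : R.Edge → ℝ := fun e => ∑ c, lam c * ((R.P c false e : ℝ) - (R.P c true e : ℝ)) with ha
    have ha0 : 0 < a e₀ := he₀
    have haN : ∀ e, 0 ≤ a e := hlam
    set L : ℝ := ∑ c, |lam c| with hL
    have hL0 : 0 ≤ L := Finset.sum_nonneg (fun c _ => abs_nonneg _)
    set D : ℝ := L * (2 + C) / a e₀ with hD
    have hD0 : 0 ≤ D := by positivity
    set K : ℝ := 10 ^ (Fintype.card R.Cyl) * (10 / 9) ^ (Fintype.card R.Edge) with hK
    have hK0 : 0 < K := by positivity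
    have hlim : Tendsto (fun ε : ℝ => K * (D * ε)) (𝓝[>] (0:ℝ)) (𝓝 0) := by
      have h1 : Tendsto (fun ε : ℝ => K * (D * ε)) (𝓝 (0:ℝ)) (𝓝 (K * (D * 0))) := by
        exact (continuous_const.mul (continuous_const.mul continuous_id)).tendsto 0
      rw [mul_zero, mul_zero] at h1
      exact h1.mono_left nhdsWithin_le_nhds
    have h2 : ∀ᶠ ε in 𝓝[>] (0:ℝ), K * (D * ε) ≤ δ :=
      hlim.eventually_le_const hδ
    have h3 : ∀ᶠ ε : ℝ in 𝓝[>] (0:ℝ), ε ≤ 1 / 2 :=
      (tendsto_id.mono_left nhdsWithin_le_nhds : Tendsto (fun ε : ℝ => ε) (𝓝[>] (0:ℝ)) (𝓝 0)).eventually_le_const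
        (by norm_num)
    filter_upwards [h2, h3, self_mem_nhdsWithin] with ε hε1 hε2 hε0 ξ hξ
    have hε : 0 < ε := hε0
    refine le_trans ?_ hε1
    refine AM_le_of_minor' R.P (P_col R) J hJ hdet ε hε hε2 (fun c b => ξ (R.cface c b))
      (fun c b => (hξ _).1) e₀ (fun c => hJs c) (D * ε) (by positivity) ?_
    intro y hy hne
    have h5 : ∀ c, |∑ e, ((R.P c false e : ℝ) - (R.P c true e : ℝ)) * y e| ≤ (2 + C) * ε := by
      intro c
      have h6 : kern ε (∑ e, (R.P c false e : ℝ) * y e + ξ (R.cface c false))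
        (∑ e, (R.P c true e : ℝ) * y e + ξ (R.cface c true)) ≠ 0 :=
        fun h => hne (Finset.prod_eq_zero (Finset.mem_univ c) h)
      have h7 : |(∑ e, (R.P c false e : ℝ) * y e + ξ (R.cface c false)) -
        (∑ e, (R.P c true e : ℝ) * y e + ξ (R.cface c true))| < 2 * ε := by
        by_contra hcon
        rw [not_lt] at hcon
        exact h6 (kern_zero ε hε _ _ hcon)
      have h8 : ∑ e, ((R.P c false e : ℝ) - (R.P c true e : ℝ)) * y e =
          ∑ e, (R.P c false e : ℝ) * y e - ∑ e, (R.P c true e : ℝ) * y e := by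
        rw [← Finset.sum_sub_distrib]
        exact Finset.sum_congr rfl fun e _ => by ring
      rw [h8]
      have h9 := hξ (R.cface c false)
      have h10 := hξ (R.cface c true)
      rw [abs_lt] at h7
      rw [abs_le]
      constructor <;> nlinarith [h7.1, h7.2, h9.1, h9.2, h10.1, h10.2]
    have h11 : a e₀ * y e₀ ≤ ∑ e, a e * y e :=
      Finset.single_le_sum (f := fun e => a e * y e)
        (fun e _ => mul_nonneg (haN e) (hy e).le) (Finset.mem_univ e₀)
    have h12 : ∑ e, a e * y e =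
        ∑ c, lam c * ∑ e, ((R.P c false e : ℝ) - (R.P c true e : ℝ)) * y e := by
      simp only [ha, Finset.sum_mul, Finset.mul_sum]
      rw [Finset.sum_comm]
      exact Finset.sum_congr rfl fun c _ => Finset.sum_congr rfl fun e _ => by ring
    have h13 : ∑ c, lam c * ∑ e, ((R.P c false e : ℝ) - (R.P c true e : ℝ)) * y e ≤
        ∑ c, |lam c| * ((2 + C) * ε) := by
      refine Finset.sum_le_sum (fun c _ => ?_)
      refine le_trans (le_abs_self _) ?_
      rw [abs_mul]
      exact mul_le_mul_of_nonneg_left (h5 c) (abs_nonneg _)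
    rw [← Finset.sum_mul, ← hL] at h13
    have h14 : a e₀ * y e₀ ≤ L * ((2 + C) * ε) := by linarith
    rw [hD, div_mul_eq_mul_div, le_div_iff₀ ha0]
    linarith

theorem good_no_leaf {H : Type} [Fintype H] {σ : Equiv.Perm H} (R : Conf σ) (hg : R.Good) :
    ¬ ∃ x μ, R.IsLeaf x μ := by
  rintro ⟨x, μ, hμ⟩
  obtain ⟨u, hu, hu2⟩ := hg
  classical
  have hrep : ∀ f : R.Face, R.face f.rep = f := fun f => Quotient.out_eq f
  set m : R.Face → ℤ := fun f => μ f.rep with hm
  have hmf : ∀ h, m (R.face h) = μ h := by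
    intro h
    exact hμ.face _ _ (hrep _)
  have hmb : ∀ f, m (R.β f) = - m f := by
    intro f
    apply hμ.beta
    rw [hrep, hrep]
  set S : ℤ := ∑ h, μ h * (u (R.edge h) : ℤ) with hS
  have h1 : S = ∑ f, m f * ((R.per u f : ℕ) : ℤ) := by
    have h2 : ∀ f, m f * ((R.per u f : ℕ) : ℤ) =
        ∑ h : H, if R.face h = f then m f * (u (R.edge h) : ℤ) else 0 := by
      intro f
      unfold Conf.per
      rw [Nat.cast_sum, Finset.mul_sum]
      refine Finset.sum_congr rfl fun h _ => ?_
      by_cases h3 : R.face h = f <;> simp [h3]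
    rw [Finset.sum_congr rfl fun f _ => h2 f, Finset.sum_comm, hS]
    refine Finset.sum_congr rfl fun h _ => ?_
    rw [Finset.sum_ite_eq]
    simp only [Finset.mem_univ, if_true, hmf]
  have h2 : S = 0 := by
    have h3 : ∑ f, m (R.β f) * ((R.per u (R.β f) : ℕ) : ℤ) = ∑ f, m f * ((R.per u f : ℕ) : ℤ) :=
      Equiv.sum_comp R.β (fun f => m f * ((R.per u f : ℕ) : ℤ))
    have h4 : ∑ f, m (R.β f) * ((R.per u (R.β f) : ℕ) : ℤ) = - ∑ f, m f * ((R.per u f : ℕ) : ℤ) := by
      rw [← Finset.sum_neg_distrib]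
      refine Finset.sum_congr rfl fun f _ => ?_
      rw [hmb, ← hu2 f]
      ring
    rw [h1]
    linarith
  have h3 : S = ∑ h, μ (R.τ h) * (u (R.edge h) : ℤ) := by
    have h4 : ∑ h, μ (R.τ h) * (u (R.edge (R.τ h)) : ℤ) = ∑ h, μ h * (u (R.edge h) : ℤ) :=
      Equiv.sum_comp R.τ (fun h => μ h * (u (R.edge h) : ℤ))
    rw [hS, ← h4]
    refine Finset.sum_congr rfl fun h _ => ?_
    rw [bedge_tau]
  have h4 : S + S = ∑ h, (μ h + μ (R.τ h)) * (u (R.edge h) : ℤ) := by
    nth_rw 2 [h3]
    rw [hS, ← Finset.sum_add_distrib]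
    exact Finset.sum_congr rfl fun h _ => by ring
  have h5 : ∑ h, (μ h + μ (R.τ h)) * (u (R.edge h) : ℤ) =
      ∑ h ∈ ({x, R.τ x} : Finset H), (μ h + μ (R.τ h)) * (u (R.edge h) : ℤ) := by
    symm
    apply Finset.sum_subset (Finset.subset_univ _)
    intro h _ hh
    simp only [mem_insert, mem_singleton, not_or] at hh
    rw [hμ.tau h hh.1 hh.2]
    ring
  rw [h5, Finset.sum_pair (Ne.symm (R.hτ.fpf x)), R.hτ.invol, bedge_tau, hμ.zero, hμ.one, h2] at h4
  have h6 : (0 : ℤ) < (u (R.edge x) : ℤ) := by exact_mod_cast hu _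
  linarith

end Pool.Agent.Helper62.MVC2
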