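import Pool.Agent.Helper62.MVC2.EmbL

/-!
MV-C2-11. Disconnected configurations.

Proofs.
* `disc_exists`: `R` is not connected: there are `h₀, h₁` not equivalent for the relation `EqvGen` of `Conf.Conn`. Let
  `S = {h | h ~ h₀}`. `S` is closed under `σ = rot K`, `R.τ` (both directions), hence under `φ = σ * τ`, so it is a union of faces, and closed
  under the pairing of faces (`R.face b = R.β (R.face a)`). Let `I = {i | ∃ s, ⟨i, s⟩ ∈ S}`; since `S` is closed under the rotations,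
  `⟨i, s⟩ ∈ S ↔ i ∈ I` (for `s : Fin (K i)`; the powers of `finRotate` act transitively). `h₀.1 ∈ I`, `h₁.1 ∉ I`. Apply `emb_exists` to
  `j = jI K I` and to `jI K Iᶜ`. Faces of `jI K I a` and `jI K Iᶜ b` are different since `S` is a union of faces.
* `disc_bound`: choose `(I, R', R'')` for each non connected `R`; the map `R ↦ (I, R', R'')` is injective (`emb_unique`, its covering hypothesis
  `jI_cover`) and `R.A ε 0 = R'.A ε 0 * R''.A ε 0` (`emb_prod`). All `A ≥ 0` (`A_nonneg`). So the sum is at most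
  `∑_I ∑_{R'} ∑_{R''} R'.A ε 0 * R''.A ε 0 = ∑_I ZZ (K|I) ε * ZZ (K|Iᶜ) ε`, sum over `I` with `I`, `Iᶜ` nonempty.
-/

namespace Pool.Agent.Helper62.MVC2

open Finset MeasureTheory Filter Topology Pool.Agent.Helper60.MV

/-- half-edges at the vertices of `I` -/
def jI {ρ : Type} (K : ρ → ℕ) (I : Finset ρ) (h : HK (fun i : {i // i ∈ I} => K i)) : HK K :=
  ⟨h.1.1, h.2⟩

theorem jI_cover {ρ : Type} [Fintype ρ] [DecidableEq ρ] (K : ρ → ℕ) (I : Finset ρ) (h : HK K) :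
    (∃ a, jI K I a = h) ∨ ∃ b, jI K Iᶜ b = h := by
  by_cases hi : h.1 ∈ I
  · exact Or.inl ⟨⟨⟨h.1, hi⟩, h.2⟩, rfl⟩
  · exact Or.inr ⟨⟨⟨h.1, Finset.mem_compl.2 hi⟩, h.2⟩, rfl⟩

private theorem jI_inj {ρ : Type} (K : ρ → ℕ) (I : Finset ρ) : Function.Injective (jI K I) := by
  rintro ⟨⟨i, hi⟩, s⟩ ⟨⟨j, hj⟩, t⟩ h
  have h1 : i = j := congrArg Sigma.fst h
  subst h1
  have h2 : s = t := by
    have h3 : (⟨i, s⟩ : HK K) = ⟨i, t⟩ := h
    simpa using h3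
  subst h2
  rfl

private theorem finRotate_step (n k : ℕ) (hk : k + 1 < n) :
    finRotate n ⟨k, by omega⟩ = ⟨k + 1, hk⟩ := by
  obtain ⟨m, rfl⟩ : ∃ m, n = m + 1 := ⟨n - 1, by omega⟩
  exact finRotate_of_lt (by omega)

/-- the relation of `Conf.Conn` -/
private def rel {H : Type} {σ : Equiv.Perm H} (R : Conf σ) (a b : H) : Prop :=
  b = σ a ∨ b = R.τ a ∨ R.face b = R.β (R.face a)

private theorem rel_face {H : Type} {σ : Equiv.Perm H} (R : Conf σ) {a b : H}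
    (h : R.face a = R.face b) : Relation.EqvGen (rel R) a b := by
  obtain ⟨c, hc⟩ : ∃ c, R.face c = R.β (R.face a) :=
    ⟨(R.β (R.face a)).rep, Quotient.out_eq _⟩
  have h1 : Relation.EqvGen (rel R) a c := Relation.EqvGen.rel _ _ (Or.inr (Or.inr hc))
  have h2 : Relation.EqvGen (rel R) b c :=
    Relation.EqvGen.rel _ _ (Or.inr (Or.inr (by rw [hc, h])))
  exact h1.trans _ _ _ (h2.symm _ _)

private theorem rel_zero {ρ : Type} {K : ρ → ℕ} (R : Conf (rot K)) (i : ρ) (k : ℕ)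
    (hk : k < K i) :
    Relation.EqvGen (rel R) (⟨i, ⟨0, by omega⟩⟩ : HK K) ⟨i, ⟨k, hk⟩⟩ := by
  induction k with
  | zero => exact Relation.EqvGen.refl _
  | succ n ih =>
    refine (ih (by omega)).trans _ _ _ (Relation.EqvGen.rel _ _ (Or.inl ?_))
    show (⟨i, ⟨n + 1, hk⟩⟩ : HK K) = ⟨i, finRotate (K i) ⟨n, _⟩⟩
    rw [finRotate_step (K i) n hk]

private theorem rel_fst {ρ : Type} {K : ρ → ℕ} (R : Conf (rot K)) (a b : HK K)
    (h : a.1 = b.1) : Relation.EqvGen (rel R) a b := by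
  obtain ⟨i, s⟩ := a
  obtain ⟨j, t⟩ := b
  have h' : i = j := h
  subst h'
  exact ((rel_zero R i s.1 s.2).symm _ _).trans _ _ _ (rel_zero R i t.1 t.2)

theorem disc_exists {ρ : Type} [Fintype ρ] [DecidableEq ρ] (K : ρ → ℕ) (R : Conf (rot K))
    (hR : ¬ R.Conn) :
    ∃ (I : Finset ρ) (R' : Conf (rot (fun i : {i // i ∈ I} => K i)))
      (R'' : Conf (rot (fun i : {i // i ∈ Iᶜ} => K i))),
      I.Nonempty ∧ Iᶜ.Nonempty ∧ Emb R R' (jI K I) ∧ Emb R R'' (jI K Iᶜ) ∧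
      ∀ a b, R.face (jI K I a) ≠ R.face (jI K Iᶜ b) := by
  classical
  unfold Conf.Conn at hR
  push Not at hR
  obtain ⟨h₀, h₁, hn⟩ := hR
  have hn' : ¬ Relation.EqvGen (rel R) h₀ h₁ := hn
  set I : Finset ρ := univ.filter (fun i => ∃ h : HK K, h.1 = i ∧ Relation.EqvGen (rel R) h₀ h)
    with hI
  have hmem : ∀ h : HK K, h.1 ∈ I ↔ Relation.EqvGen (rel R) h₀ h := by
    intro h
    rw [hI, Finset.mem_filter]
    constructor
    · rintro ⟨-, h', hh', he⟩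
      exact he.trans _ _ _ (rel_fst R h' h hh')
    · intro he
      exact ⟨Finset.mem_univ _, h, rfl, he⟩
  have hclosed : ∀ a b : HK K, Relation.EqvGen (rel R) a b → (a.1 ∈ I ↔ b.1 ∈ I) := by
    intro a b hab
    rw [hmem, hmem]
    exact ⟨fun h => h.trans _ _ _ hab, fun h => h.trans _ _ _ (hab.symm _ _)⟩
  have hτ : ∀ a : HK K, Relation.EqvGen (rel R) a (R.τ a) := fun a =>
    Relation.EqvGen.rel _ _ (Or.inr (Or.inl rfl))
  have h0 : h₀.1 ∈ I := (hmem h₀).2 (Relation.EqvGen.refl _)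
  have h1 : h₁.1 ∉ I := fun h => hn' ((hmem h₁).1 h)
  obtain ⟨R', hR'⟩ := emb_exists (σ' := rot (fun i : {i // i ∈ I} => K i)) R (jI K I)
    (jI_inj K I) (fun h => rfl)
    (fun h => by
      have h2 : (R.τ (jI K I h)).1 ∈ I := (hclosed _ _ (hτ (jI K I h))).1 h.1.2
      exact ⟨⟨⟨(R.τ (jI K I h)).1, h2⟩, (R.τ (jI K I h)).2⟩, rfl⟩)
    (fun h h' hh' => by
      have h2 : h'.1 ∈ I := (hclosed (jI K I h) h'
        (Relation.EqvGen.rel _ _ (Or.inr (Or.inr hh'.symm)))).1 h.1.2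
      exact ⟨⟨⟨h'.1, h2⟩, h'.2⟩, rfl⟩)
  obtain ⟨R'', hR''⟩ := emb_exists (σ' := rot (fun i : {i // i ∈ Iᶜ} => K i)) R (jI K Iᶜ)
    (jI_inj K Iᶜ) (fun h => rfl)
    (fun h => by
      have h2 : (R.τ (jI K Iᶜ h)).1 ∈ Iᶜ := by
        rw [Finset.mem_compl, ← hclosed _ _ (hτ (jI K Iᶜ h)), ← Finset.mem_compl]
        exact h.1.2
      exact ⟨⟨⟨(R.τ (jI K Iᶜ h)).1, h2⟩, (R.τ (jI K Iᶜ h)).2⟩, rfl⟩)
    (fun h h' hh' => by
      have h2 : h'.1 ∈ Iᶜ := by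
        rw [Finset.mem_compl, ← hclosed (jI K Iᶜ h) h'
          (Relation.EqvGen.rel _ _ (Or.inr (Or.inr hh'.symm))), ← Finset.mem_compl]
        exact h.1.2
      exact ⟨⟨⟨h'.1, h2⟩, h'.2⟩, rfl⟩)
  refine ⟨I, R', R'', ⟨_, h0⟩, ⟨_, Finset.mem_compl.2 h1⟩, hR', hR'', ?_⟩
  intro a b hab
  have h2 : (jI K Iᶜ b).1 ∈ I := (hclosed _ _ (rel_face R hab)).1 a.1.2
  exact (Finset.mem_compl.1 b.1.2) h2

theorem disc_bound {ρ : Type} [Fintype ρ] [DecidableEq ρ] (K : ρ → ℕ) (ε : ℝ) (hε : 0 < ε) :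
    (by classical exact ∑ R ∈ univ.filter (fun R : Conf (rot K) => ¬ R.Conn), R.A ε 0) ≤
    ∑ I ∈ (univ : Finset ρ).powerset.filter (fun I => I.Nonempty ∧ Iᶜ.Nonempty),
      ZZ (rot (fun i : {i // i ∈ I} => K i)) ε * ZZ (rot (fun i : {i // i ∈ Iᶜ} => K i)) ε := by
  classical
  let D : Type := Σ I : Finset ρ, Conf (rot (fun i : {i // i ∈ I} => K i)) ×
    Conf (rot (fun i : {i // i ∈ Iᶜ} => K i))
  let g : D → ℝ := fun d => d.2.1.A ε 0 * d.2.2.A ε 0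
  have hg : ∀ d, 0 ≤ g d := fun d => mul_nonneg (A_nonneg _ _ hε _) (A_nonneg _ _ hε _)
  let Pd : Conf (rot K) → D → Prop := fun R d =>
    Emb R d.2.1 (jI K d.1) ∧ Emb R d.2.2 (jI K d.1ᶜ) ∧
      ∀ a b, R.face (jI K d.1 a) ≠ R.face (jI K d.1ᶜ b)
  have hex : ∀ R : Conf (rot K), ¬ R.Conn → ∃ d : D, (d.1.Nonempty ∧ d.1ᶜ.Nonempty) ∧ Pd R d := by
    intro R hR
    obtain ⟨I, R', R'', h1, h2, h3, h4, h5⟩ := disc_exists K R hR
    exact ⟨⟨I, R', R''⟩, ⟨h1, h2⟩, h3, h4, h5⟩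
  choose F hF using hex
  set s := univ.filter (fun R : Conf (rot K) => ¬ R.Conn) with hs
  have hs' : ∀ x : {R // R ∈ s}, ¬ x.1.Conn := fun x => (Finset.mem_filter.1 x.2).2
  let G : {R // R ∈ s} → D := fun x => F x.1 (hs' x)
  have hGinj : Function.Injective G := by
    intro x y hxy
    have h1 : Pd x.1 (G x) := (hF x.1 (hs' x)).2
    have h2 : Pd y.1 (G x) := by
      rw [hxy]
      exact (hF y.1 (hs' y)).2
    exact Subtype.ext (emb_unique x.1 y.1 (G x).2.1 (G x).2.2 (jI K (G x).1) (jI K (G x).1ᶜ)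
      h1.1 h1.2.1 h2.1 h2.2.1 (jI_cover K (G x).1) h1.2.2 h2.2.2)
  have hval : ∀ x : {R // R ∈ s}, x.1.A ε 0 = g (G x) := by
    intro x
    have h1 : Pd x.1 (G x) := (hF x.1 (hs' x)).2
    exact emb_prod x.1 (G x).2.1 (G x).2.2 (jI K (G x).1) (jI K (G x).1ᶜ) h1.1 h1.2.1
      (jI_cover K (G x).1) h1.2.2 ε hε
  have hL : ∑ R ∈ s, R.A ε 0 = ∑ d ∈ s.attach.image G, g d := by
    rw [Finset.sum_image (fun x _ y _ h => hGinj h), ← Finset.sum_attach]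
    exact Finset.sum_congr rfl fun x _ => hval x
  have hRt : ∑ I ∈ (univ : Finset ρ).powerset.filter (fun I => I.Nonempty ∧ Iᶜ.Nonempty),
      ZZ (rot (fun i : {i // i ∈ I} => K i)) ε * ZZ (rot (fun i : {i // i ∈ Iᶜ} => K i)) ε =
      ∑ d ∈ ((univ : Finset ρ).powerset.filter (fun I => I.Nonempty ∧ Iᶜ.Nonempty)).sigma
        (fun I => (univ : Finset (Conf (rot (fun i : {i // i ∈ I} => K i)) ×
          Conf (rot (fun i : {i // i ∈ Iᶜ} => K i))))), g d := by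
    rw [Finset.sum_sigma]
    refine Finset.sum_congr rfl fun I _ => ?_
    unfold ZZ
    rw [Finset.sum_mul_sum, ← Finset.univ_product_univ, Finset.sum_product]
  rw [hRt]
  refine le_trans (le_of_eq hL) ?_
  refine Finset.sum_le_sum_of_subset_of_nonneg ?_ fun d _ _ => hg d
  intro d hd
  obtain ⟨x, -, rfl⟩ := Finset.mem_image.1 hd
  rw [Finset.mem_sigma, Finset.mem_filter]
  exact ⟨⟨Finset.mem_powerset.2 (Finset.subset_univ _), (hF x.1 (hs' x)).1⟩, Finset.mem_univ _⟩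

end Pool.Agent.Helper62.MVC2
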