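import Pool.Agent.Helper60.MV.B.Asm

/-!
MV-C2-12. Parity: there is no configuration if `E` is odd.

Proof. Signs (`Equiv.Perm.sign`): every cycle of `rot K` has odd length `K i`, so `sign (rot K) = 1` (`Equiv.Perm.sign` of a
`sigmaCongrRight` is the product of the signs: `Equiv.Perm.sign_sigmaCongrRight`, `sign (finRotate n) = (-1)^(n-1)`: `sign_finRotate`).
`R.τ` is a fixed point free involution of `2E` points: `sign = (-1)^E`. For a permutation `g` of a finite set with `c` cycles (fixed points
included; `c = Fintype.card (Cyc g)`), `sign g = (-1)^(n + c)`, `n` the number of points (`Equiv.Perm.sign_of_cycleType`: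
`sign g = (-1)^(∑ cycleType + card cycleType)`, `c = card cycleType + number of fixed points`), here a lemma `sign_cyc`. With `g = σ * τ`, `n = 2E`:
`(-1)^E = (-1)^(F)`, `F = number of faces`. The pairing `β` shows that `F` is even (number of points of a set with a fixed point free
involution is even). So `E` is even.
-/

namespace Pool.Agent.Helper62.MVC2

open Finset MeasureTheory Filter Topology Pool.Agent.Helper60.MV

theorem even_card_of_pairing {F : Type} [Fintype F] (β : Equiv.Perm F) (hβ : IsPairing β) :
    Even (Fintype.card F) := by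
  classical
  have h2 : β ^ 2 = 1 := by
    ext x
    rw [pow_two, Equiv.Perm.mul_apply, hβ.invol]
    rfl
  have hs : β.support = Finset.univ := by
    ext x
    simp [Equiv.Perm.mem_support, hβ.fpf x]
  have := Equiv.Perm.two_dvd_card_support h2
  rw [hs, Finset.card_univ] at this
  exact even_iff_two_dvd.mpr this

private theorem cyc_rep {H : Type} {g : Equiv.Perm H} (c : Cyc g) : cyc g c.rep = c :=
  Quotient.out_eq c

private theorem cyc_eq_iff {H : Type} (g : Equiv.Perm H) (a b : H) :
    cyc g a = cyc g b ↔ g.SameCycle a b :=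
  ⟨fun h => Quotient.exact h, fun h => Quotient.sound h⟩

private theorem card_cyc {H : Type} [Fintype H] [DecidableEq H] (g : Equiv.Perm H) :
    Fintype.card (Cyc g) = (Finset.univ.filter (fun x => g x = x)).card +
      g.cycleFactorsFinset.card := by
  classical
  rw [← Finset.card_univ, ← Finset.card_filter_add_card_filter_not (s := (Finset.univ : Finset (Cyc g)))
    (fun c : Cyc g => g c.rep = c.rep)]
  congr 1
  · refine Finset.card_bij (fun c _ => c.rep) ?_ ?_ ?_
    · intro c hc
      rw [Finset.mem_filter] at hc ⊢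
      exact ⟨Finset.mem_univ _, hc.2⟩
    · intro c _ c' _ h
      rw [← cyc_rep c, ← cyc_rep c', h]
    · intro x hx
      rw [Finset.mem_filter] at hx
      have hsc : g.SameCycle (cyc g x).rep x := (cyc_eq_iff g _ _).mp (cyc_rep (cyc g x))
      have hrep : (cyc g x).rep = x := by
        obtain ⟨n, hn⟩ := hsc.symm
        rw [← hn]
        exact Equiv.Perm.zpow_apply_eq_self_of_apply_eq_self hx.2 n
      refine ⟨cyc g x, ?_, hrep⟩
      rw [Finset.mem_filter]
      refine ⟨Finset.mem_univ _, ?_⟩
      rw [hrep]
      exact hx.2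
  · refine Finset.card_bij (fun c _ => g.cycleOf c.rep) ?_ ?_ ?_
    · intro c hc
      rw [Finset.mem_filter] at hc
      rw [Equiv.Perm.cycleOf_mem_cycleFactorsFinset_iff, Equiv.Perm.mem_support]
      exact hc.2
    · intro c hc c' hc' h
      rw [Finset.mem_filter] at hc hc'
      rw [← cyc_rep c, ← cyc_rep c', cyc_eq_iff]
      exact (Equiv.Perm.sameCycle_iff_cycleOf_eq_of_mem_support
        (Equiv.Perm.mem_support.mpr hc.2) (Equiv.Perm.mem_support.mpr hc'.2)).mpr h
    · intro f hf
      have hfc := (Equiv.Perm.mem_cycleFactorsFinset_iff.mp hf).1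
      obtain ⟨x, hx⟩ := hfc.nonempty_support
      have hfx : f = g.cycleOf x := Equiv.Perm.cycle_is_cycleOf hx hf
      have hxs : x ∈ g.support := by
        rw [← Equiv.Perm.cycleOf_mem_cycleFactorsFinset_iff, ← hfx]
        exact hf
      have hsc : g.SameCycle (cyc g x).rep x := (cyc_eq_iff g _ _).mp (cyc_rep (cyc g x))
      refine ⟨cyc g x, ?_, ?_⟩
      · rw [Finset.mem_filter]
        refine ⟨Finset.mem_univ _, ?_⟩
        intro hfix
        have h3 : (cyc g x).rep = x := by
          obtain ⟨n, hn⟩ := hsc
          exact (Equiv.Perm.zpow_apply_eq_self_of_apply_eq_self hfix n).symm.trans hn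
        rw [h3] at hfix
        exact (Equiv.Perm.mem_support.mp hxs) hfix
      · rw [hfx]
        exact hsc.cycleOf_eq

theorem sign_cyc {H : Type} [Fintype H] [DecidableEq H] (g : Equiv.Perm H) :
    Equiv.Perm.sign g = (-1) ^ (Fintype.card H + Fintype.card (Cyc g)) := by
  have h1 : Fintype.card H = g.support.card + (Finset.univ.filter (fun x => g x = x)).card := by
    rw [← Finset.card_univ, ← Finset.card_filter_add_card_filter_not
      (s := (Finset.univ : Finset H)) (fun x => g x ≠ x)]
    congr 1
    congr 1
    ext x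
    simp
  have h2 : Multiset.card g.cycleType = g.cycleFactorsFinset.card := by
    rw [Equiv.Perm.cycleType_def, Multiset.card_map]
    rfl
  rw [Equiv.Perm.sign_of_cycleType, Equiv.Perm.sum_cycleType, h2, card_cyc, h1]
  have h3 : g.support.card + (Finset.univ.filter (fun x => g x = x)).card +
      ((Finset.univ.filter (fun x => g x = x)).card + g.cycleFactorsFinset.card) =
      (g.support.card + g.cycleFactorsFinset.card) +
        2 * (Finset.univ.filter (fun x => g x = x)).card := by ring
  rw [h3, pow_add (-1 : ℤˣ) (g.support.card + g.cycleFactorsFinset.card), pow_mul]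
  simp

private theorem sign_rot {ρ : Type} [Fintype ρ] (K : ρ → ℕ) (hK : ∀ i, Odd (K i))
    [DecidableEq (HK K)] : Equiv.Perm.sign (rot K) = 1 := by
  have h1 : (rot K) ^ (∏ i, K i) = 1 := by
    refine Equiv.ext (fun h => ?_)
    rw [← Equiv.Perm.iterate_eq_pow]
    have hd : Function.minimalPeriod (rot K) h ∣ ∏ i, K i := by
      rw [rot_minimalPeriod]
      exact Finset.dvd_prod_of_mem K (Finset.mem_univ h.1)
    have := (Function.isPeriodicPt_iff_minimalPeriod_dvd.mpr hd)
    exact this
  have hodd : Odd (∏ i, K i) := by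
    refine Finset.prod_induction _ Odd (fun a b ha hb => ha.mul hb) odd_one (fun i _ => hK i)
  have h2 : (Equiv.Perm.sign (rot K)) ^ (∏ i, K i) = 1 := by
    rw [← map_pow, h1, map_one]
  rcases Int.units_eq_one_or (Equiv.Perm.sign (rot K)) with h | h
  · exact h
  · rw [h, hodd.neg_one_pow] at h2
    exact absurd h2 (by decide)

theorem conf_isEmpty_of_odd {ρ : Type} [Fintype ρ] (K : ρ → ℕ) (hK : ∀ i, Odd (K i)) (E : ℕ)
    (hE : ∑ i, K i = 2 * E) (hodd : Odd E) : IsEmpty (Conf (rot K)) := by
  classical
  refine ⟨fun R => ?_⟩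
  have hcard : Fintype.card (HK K) = 2 * E := by
    rw [Fintype.card_sigma]
    simp only [Fintype.card_fin]
    exact hE
  have hedge := card_edge R
  have hE2 : Fintype.card (Cyc R.τ) = E := by
    have : Fintype.card R.Edge = Fintype.card (Cyc R.τ) := rfl
    omega
  have hτ : Equiv.Perm.sign R.τ = -1 := by
    rw [sign_cyc, hcard, hE2, pow_add, pow_mul, hodd.neg_one_pow]
    simp
  have hF := even_card_of_pairing R.β R.hβ
  have hφ : Equiv.Perm.sign (rot K * R.τ) = 1 := by
    rw [sign_cyc, hcard, pow_add, pow_mul, hF.neg_one_pow]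
    simp
  rw [map_mul, sign_rot K hK, hτ] at hφ
  exact absurd hφ (by decide)

theorem UB_odd {ρ : Type} [Fintype ρ] (K : ρ → ℕ) (hK : ∀ i, Odd (K i)) (E : ℕ)
    (hE : ∑ i, K i = 2 * E) (hodd : Odd E) : UB K 0 := by
  classical
  have hemp := conf_isEmpty_of_odd K hK E hE hodd
  intro C _ δ hδ
  refine Filter.Eventually.of_forall (fun ε ξ _ _ => ?_)
  rw [Finset.sum_eq_zero (fun R _ => (hemp.false R).elim)]
  linarith

end Pool.Agent.Helper62.MVC2
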