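import Pool.Agent.Helper62.MVC2.Disc
import Pool.Agent.Helper62.MVC2.Par

/-!
MV-C2-11b. Disconnected configurations, the limit; odd sums.

Proofs.
* `Ypoly_odd`: `XK K S = 0` for every list `S`: `pfL A L ≠ 0` for `A a b = zf (m a) (m b)` implies `∑_{a ∈ L} m a = 0` (strong induction on the length:
  a nonzero term has `zf (m x) (m (xs.get j)) ≠ 0`, so `m x + m (xs.get j) = 0`, and the rest `xs.eraseIdx j` has sum zero by induction), but
  `∑_a (asg K f a - 2 S_a) = ∑_i K i - 2 ∑ S` is odd. So `Rpoly K = 0`, `Wick 0 = 0`.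
* `ZZ_odd`: no configuration: `R.τ` is a fixed point free involution of `HK K`, which has `∑ K i` elements, an odd number
  (`Function.Involutive.card_fixedPoints...` or `Equiv.Perm.card_fixedPoints_modEq`, or `even_card_of_pairing` of file `Par`).
* `disc_eventually`: for each such `I`, if `∑_{i ∈ I} K i = 2 E'` is even, then so is the sum over `Iᶜ`, and by `hP` both factors converge to the
  `Ypoly`s. If it is odd there is no configuration at all (`Fintype.card (HK (K|I)) = ∑_{i∈I} K i` is odd, but a fixed point free involution exists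
  only on a set of even size: `Equiv.Perm.card_fixedPoints_modEq`/`Function.Involutive.card_fixedPoints...`), so `ZZ (K|I) = 0`, and
  `Ypoly (K|I) = 0` (`Ypoly_odd`), the term tends to the term. So the bound of `disc_bound` tends to `disc K`.
-/

namespace Pool.Agent.Helper62.MVC2

open Finset MeasureTheory Filter Topology Pool.Agent.Helper60.MV

private theorem pfL_sum_zero {α : Type} (m : α → ℤ) :
    ∀ (n : ℕ) (L : List α), L.length = n →
      pfL (fun a b => zf (m a) (m b)) L ≠ 0 → (L.map m).sum = 0 := by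
  intro n
  induction n using Nat.strong_induction_on with
  | _ n ih =>
    intro L hL h
    match L with
    | [] => rfl
    | x :: xs =>
      rw [pfL] at h
      obtain ⟨j, _, hj⟩ := Finset.exists_ne_zero_of_sum_ne_zero h
      have h1 : zf (m x) (m (xs.get j)) ≠ 0 := by
        intro h0
        apply hj
        rw [h0]
        ring
      have h2 : pfL (fun a b => zf (m a) (m b)) (xs.eraseIdx j) ≠ 0 := by
        intro h0
        apply hj
        rw [h0]
        ring
      have h3 : m x + m (xs.get j) = 0 := by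
        by_contra hne
        apply h1
        unfold zf
        rw [if_neg hne]
      have hlen : (xs.eraseIdx j).length < n := by
        rw [List.length_eraseIdx]
        rw [List.length_cons] at hL
        split <;> omega
      have h4 := ih _ hlen (xs.eraseIdx j) rfl h2
      have h5 := (List.getElem_cons_eraseIdx_perm (l := xs) (n := (j : ℕ)) j.2).map m
      have h6 := h5.sum_eq
      rw [List.map_cons, List.sum_cons] at h6
      rw [List.map_cons, List.sum_cons, ← h6, h4, add_zero]
      exact h3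

private theorem XK_odd {ρ : Type} [Fintype ρ] (K : ρ → ℕ) (h : Odd (∑ i, K i)) (S : List ℕ) :
    XK K S = 0 := by
  classical
  unfold XK
  apply Finset.sum_eq_zero
  intro f _
  by_contra hne
  have h1 := pfL_sum_zero (fun a : Fin S.length => (asg K f a : ℤ) - 2 * (S.get a : ℤ))
    _ (List.finRange S.length) rfl hne
  have h2 : ((List.finRange S.length).map
      (fun a : Fin S.length => (asg K f a : ℤ) - 2 * (S.get a : ℤ))).sum =
      ∑ a : Fin S.length, ((asg K f a : ℤ) - 2 * (S.get a : ℤ)) := by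
    rw [← List.ofFn_eq_map, List.sum_ofFn]
  rw [h2, Finset.sum_sub_distrib, ← Finset.mul_sum] at h1
  have h3 : ∑ a : Fin S.length, (asg K f a : ℤ) = ((∑ i, K i : ℕ) : ℤ) := by
    rw [← Nat.cast_sum]
    congr 1
    unfold asg
    rw [Finset.sum_comm]
    apply Finset.sum_congr rfl
    intro i _
    rw [Finset.sum_ite_eq]
    simp
  rw [h3] at h1
  obtain ⟨k, hk⟩ := h
  rw [hk] at h1
  push_cast at h1
  omega

theorem Ypoly_odd {ρ : Type} [Fintype ρ] (K : ρ → ℕ) (h : Odd (∑ i, K i)) : Ypoly K = 0 := by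
  have h1 : Rpoly K = 0 := by
    unfold Rpoly
    apply Finset.sum_eq_zero
    intro S _
    rw [XK_odd K h, mul_zero, MvPolynomial.C_0, zero_mul]
  unfold Ypoly
  rw [h1]
  unfold Wick
  rw [MvPolynomial.support_zero, Finset.sum_empty]

theorem ZZ_odd {ρ : Type} [Fintype ρ] (K : ρ → ℕ) (h : Odd (∑ i, K i)) (ε : ℝ) :
    ZZ (rot K) ε = 0 := by
  unfold ZZ
  apply Finset.sum_eq_zero
  intro R _
  exfalso
  have h1 := even_card_of_pairing R.τ R.hτ
  have h2 : Fintype.card (HK K) = ∑ i, K i := by
    rw [Fintype.card_sigma]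
    simp only [Fintype.card_fin]
  rw [h2] at h1
  exact (Nat.not_even_iff_odd.mpr h) h1

theorem disc_eventually {ρ : Type} [Fintype ρ] (K : ρ → ℕ) (hK : ∀ i, Odd (K i)) (E : ℕ)
    (hE : ∑ i, K i = 2 * E)
    (hP : ∀ {ρ' : Type} [Fintype ρ'] (K' : ρ' → ℕ), (∀ i, Odd (K' i)) → ∀ E' : ℕ,
      ∑ i, K' i = 2 * E' → Tendsto (fun ε => ZZ (rot K') ε) (𝓝[>] (0:ℝ)) (𝓝 (Ypoly K')))
    (δ : ℝ) (hδ : 0 < δ) :
    ∀ᶠ ε in 𝓝[>] (0:ℝ),
      (by classical exact ∑ R ∈ univ.filter (fun R : Conf (rot K) => ¬ R.Conn), R.A ε 0) ≤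
        disc K + δ := by
  classical
  have hlim : Tendsto (fun ε => ∑ I ∈ (univ : Finset ρ).powerset.filter
      (fun I => I.Nonempty ∧ Iᶜ.Nonempty),
      ZZ (rot (fun i : {i // i ∈ I} => K i)) ε * ZZ (rot (fun i : {i // i ∈ Iᶜ} => K i)) ε)
      (𝓝[>] (0:ℝ)) (𝓝 (disc K)) := by
    unfold disc
    apply tendsto_finsetSum
    intro I _
    have hI : ∑ i : {i // i ∈ I}, K i = ∑ i ∈ I, K i := Finset.sum_coe_sort I K
    have hI' : ∑ i : {i // i ∈ Iᶜ}, K i = ∑ i ∈ Iᶜ, K i := Finset.sum_coe_sort Iᶜ K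
    have hsum : ∑ i ∈ I, K i + ∑ i ∈ Iᶜ, K i = 2 * E := by
      rw [Finset.sum_add_sum_compl, hE]
    rcases Nat.even_or_odd' (∑ i ∈ I, K i) with ⟨e, he | he⟩
    · apply Tendsto.mul
      · exact hP (fun i : {i // i ∈ I} => K i) (fun i => hK i) e (by rw [hI, he])
      · refine hP (fun i : {i // i ∈ Iᶜ} => K i) (fun i => hK i) (E - e) ?_
        rw [hI']
        omega
    · have hodd : Odd (∑ i : {i // i ∈ I}, K i) := by
        rw [hI, he]
        exact ⟨e, rfl⟩
      have h1 : Ypoly (fun i : {i // i ∈ I} => K i) = 0 := Ypoly_odd _ hodd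
      have h2 : ∀ ε, ZZ (rot (fun i : {i // i ∈ I} => K i)) ε = 0 := fun ε => ZZ_odd _ hodd ε
      rw [h1, zero_mul]
      simp only [h2, zero_mul]
      exact tendsto_const_nhds
  have h3 := hlim.eventually_lt_const (show disc K < disc K + δ by linarith)
  filter_upwards [h3, self_mem_nhdsWithin] with ε hε hε0
  exact le_trans (disc_bound K ε hε0) hε.le

end Pool.Agent.Helper62.MVC2
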