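import Pool.Agent.Helper62.MVC2.GenDef

/-!
MV-C2-2. Relabelling and products of regularised volumes.

Proofs.
* `GA_equiv`: substitution `x ↦ x ∘ b` (the map `(ι' → ℝ) → (ι → ℝ)` given by `b` preserves the volume:
  `MeasureTheory.volume_measurePreserving_piCongrLeft`), it maps the orthant to the orthant, and the integrand `GI` is
  reindexed by `a`, `b` (`Fintype.prod_equiv`, `Fintype.sum_equiv`).
* `GA_prod`: by `GA_equiv`-type reindexing the integrand of `F` is the product of the integrands (`Fintype.prod_sum_type`,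
  the cross terms are zero) and the volume on `ι₁ ⊕ ι₂ → ℝ` is the product (`MeasureTheory.volume_preserving_sumPiEquivProdPi`),
  the orthant is the product of the orthants, `MeasureTheory.setIntegral_prod_mul` (no integrability needed).
-/

namespace Pool.Agent.Helper62.MVC2

open Finset MeasureTheory Filter Topology Pool.Agent.Helper60.MV

theorem GI_equiv' {F ι F' ι' : Type} [Fintype F] [Fintype ι] [Fintype F'] [Fintype ι']
    (β : F → F) (W : F → ι → ℕ) (ε : ℝ) (ξ : F → ℝ) (β' : F' → F') (W' : F' → ι' → ℕ)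
    (ξ' : F' → ℝ) (a : F ≃ F') (b : ι ≃ ι') (hβ : ∀ f, β' (a f) = a (β f))
    (hW : ∀ f e, W' (a f) (b e) = W f e) (hξ : ∀ f, ξ' (a f) = ξ f)
    (x : ι → ℝ) (x' : ι' → ℝ) (hx : ∀ e, x' (b e) = x e) :
    GI β W ε ξ x = GI β' W' ε ξ' x' := by
  have hs : ∀ f, ∑ e, (W f e : ℝ) * x e + ξ f = ∑ e, (W' (a f) e : ℝ) * x' e + ξ' (a f) := by
    intro f
    rw [hξ f]
    congr 1
    refine Fintype.sum_equiv b _ _ (fun e => ?_)
    rw [hW, hx]
  unfold GI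
  refine Fintype.prod_equiv a _ _ (fun f => ?_)
  rw [hs f, hs (β f), hβ f]

theorem GA_equiv {F ι F' ι' : Type} [Fintype F] [Fintype ι] [Fintype F'] [Fintype ι']
    (β : F → F) (W : F → ι → ℕ) (ε : ℝ) (ξ : F → ℝ) (β' : F' → F') (W' : F' → ι' → ℕ)
    (ξ' : F' → ℝ) (a : F ≃ F') (b : ι ≃ ι') (hβ : ∀ f, β' (a f) = a (β f))
    (hW : ∀ f e, W' (a f) (b e) = W f e) (hξ : ∀ f, ξ' (a f) = ξ f) :
    GA β W ε ξ = GA β' W' ε ξ' := by
  have hmp := volume_measurePreserving_piCongrLeft (fun _ : ι' => ℝ) b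
  have hemb : MeasurableEmbedding (MeasurableEquiv.piCongrLeft (fun _ : ι' => ℝ) b) :=
    (MeasurableEquiv.piCongrLeft (fun _ : ι' => ℝ) b).measurableEmbedding
  have hap : ∀ (x : ι → ℝ) (e : ι), (MeasurableEquiv.piCongrLeft (fun _ : ι' => ℝ) b) x (b e)
      = x e := by
    intro x e
    rw [MeasurableEquiv.coe_piCongrLeft]
    exact Equiv.piCongrLeft_apply_apply (fun _ : ι' => ℝ) b x e
  have hset : (MeasurableEquiv.piCongrLeft (fun _ : ι' => ℝ) b) ⁻¹' {x : ι' → ℝ | ∀ e, 0 < x e}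
      = {x : ι → ℝ | ∀ e, 0 < x e} := by
    ext x
    simp only [Set.mem_preimage, Set.mem_setOf_eq]
    constructor
    · intro h e
      have := h (b e)
      rwa [hap] at this
    · intro h e'
      obtain ⟨e, rfl⟩ := b.surjective e'
      rw [hap]
      exact h e
  unfold GA
  rw [← hmp.setIntegral_preimage_emb hemb (GI β' W' ε ξ') {x : ι' → ℝ | ∀ e, 0 < x e}, hset]
  refine integral_congr_ae (Filter.Eventually.of_forall (fun x => ?_))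
  exact GI_equiv' β W ε ξ β' W' ξ' a b hβ hW hξ x _ (fun e => hap x e)

theorem GA_prod {F₁ F₂ ι₁ ι₂ F ι : Type} [Fintype F₁] [Fintype F₂] [Fintype ι₁] [Fintype ι₂]
    [Fintype F] [Fintype ι] (β₁ : F₁ → F₁) (β₂ : F₂ → F₂) (β : F → F) (W₁ : F₁ → ι₁ → ℕ)
    (W₂ : F₂ → ι₂ → ℕ) (W : F → ι → ℕ) (ε : ℝ) (ξ₁ : F₁ → ℝ) (ξ₂ : F₂ → ℝ) (ξ : F → ℝ)
    (a : F₁ ⊕ F₂ ≃ F) (b : ι₁ ⊕ ι₂ ≃ ι)
    (hβ₁ : ∀ f, β (a (Sum.inl f)) = a (Sum.inl (β₁ f)))
    (hβ₂ : ∀ f, β (a (Sum.inr f)) = a (Sum.inr (β₂ f)))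
    (h11 : ∀ f e, W (a (Sum.inl f)) (b (Sum.inl e)) = W₁ f e)
    (h12 : ∀ f e, W (a (Sum.inl f)) (b (Sum.inr e)) = 0)
    (h21 : ∀ f e, W (a (Sum.inr f)) (b (Sum.inl e)) = 0)
    (h22 : ∀ f e, W (a (Sum.inr f)) (b (Sum.inr e)) = W₂ f e)
    (hξ₁ : ∀ f, ξ (a (Sum.inl f)) = ξ₁ f) (hξ₂ : ∀ f, ξ (a (Sum.inr f)) = ξ₂ f) :
    GA β W ε ξ = GA β₁ W₁ ε ξ₁ * GA β₂ W₂ ε ξ₂ := by
  have hmp := measurePreserving_sumPiEquivProdPi (X := fun _ : ι₁ ⊕ ι₂ => ℝ)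
    (fun _ => (volume : Measure ℝ))
  have hemb : MeasurableEmbedding (MeasurableEquiv.sumPiEquivProdPi (fun _ : ι₁ ⊕ ι₂ => ℝ)) :=
    (MeasurableEquiv.sumPiEquivProdPi (fun _ : ι₁ ⊕ ι₂ => ℝ)).measurableEmbedding
  have hap1 : ∀ (x : ι₁ ⊕ ι₂ → ℝ) (e : ι₁),
      ((MeasurableEquiv.sumPiEquivProdPi (fun _ : ι₁ ⊕ ι₂ => ℝ)) x).1 e = x (Sum.inl e) := by
    intro x e
    rfl
  have hap2 : ∀ (x : ι₁ ⊕ ι₂ → ℝ) (e : ι₂),
      ((MeasurableEquiv.sumPiEquivProdPi (fun _ : ι₁ ⊕ ι₂ => ℝ)) x).2 e = x (Sum.inr e) := by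
    intro x e
    rfl
  have hset : (MeasurableEquiv.sumPiEquivProdPi (fun _ : ι₁ ⊕ ι₂ => ℝ)) ⁻¹'
      ({x : ι₁ → ℝ | ∀ e, 0 < x e} ×ˢ {x : ι₂ → ℝ | ∀ e, 0 < x e})
      = {x : ι₁ ⊕ ι₂ → ℝ | ∀ e, 0 < x e} := by
    ext x
    simp only [Set.mem_preimage, Set.mem_prod, Set.mem_setOf_eq]
    constructor
    · rintro ⟨h1, h2⟩ e
      rcases e with e | e
      · have := h1 e
        rwa [hap1] at this
      · have := h2 e
        rwa [hap2] at this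
    · intro h
      exact ⟨fun e => by rw [hap1]; exact h _, fun e => by rw [hap2]; exact h _⟩
  -- reindex to the sum
  rw [← GA_equiv (F := F₁ ⊕ F₂) (ι := ι₁ ⊕ ι₂) (F' := F) (ι' := ι) (fun f => a.symm (β (a f)))
    (fun f e => W (a f) (b e)) ε (fun f => ξ (a f)) β W ξ a b (fun f => by simp)
    (fun f e => rfl) (fun f => rfl)]
  have hGI : ∀ x : ι₁ ⊕ ι₂ → ℝ,
      GI (fun f => a.symm (β (a f))) (fun f e => W (a f) (b e)) ε (fun f => ξ (a f)) x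
      = GI β₁ W₁ ε ξ₁ (fun e => x (Sum.inl e)) * GI β₂ W₂ ε ξ₂ (fun e => x (Sum.inr e)) := by
    intro x
    have hs1 : ∀ f, ∑ e, (W (a (Sum.inl f)) (b e) : ℝ) * x e + ξ (a (Sum.inl f))
        = ∑ e, (W₁ f e : ℝ) * x (Sum.inl e) + ξ₁ f := by
      intro f
      rw [hξ₁, Fintype.sum_sum_type]
      simp only [h11, h12, Nat.cast_zero, zero_mul, Finset.sum_const_zero, add_zero]
    have hs2 : ∀ f, ∑ e, (W (a (Sum.inr f)) (b e) : ℝ) * x e + ξ (a (Sum.inr f))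
        = ∑ e, (W₂ f e : ℝ) * x (Sum.inr e) + ξ₂ f := by
      intro f
      rw [hξ₂, Fintype.sum_sum_type]
      simp only [h21, h22, Nat.cast_zero, zero_mul, Finset.sum_const_zero, zero_add]
    unfold GI
    rw [Fintype.prod_sum_type]
    congr 1
    · refine Finset.prod_congr rfl (fun f _ => ?_)
      have e1 : a.symm (β (a (Sum.inl f))) = Sum.inl (β₁ f) := by
        rw [hβ₁, Equiv.symm_apply_apply]
      simp only [e1]
      rw [hs1 f, hs1 (β₁ f)]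
    · refine Finset.prod_congr rfl (fun f _ => ?_)
      have e1 : a.symm (β (a (Sum.inr f))) = Sum.inr (β₂ f) := by
        rw [hβ₂, Equiv.symm_apply_apply]
      simp only [e1]
      rw [hs2 f, hs2 (β₂ f)]
  have hvol : (volume : Measure (ι₁ ⊕ ι₂ → ℝ)) = Measure.pi (fun _ => (volume : Measure ℝ)) :=
    volume_pi
  have h3 := hmp.setIntegral_preimage_emb hemb
    (fun z : (ι₁ → ℝ) × (ι₂ → ℝ) => GI β₁ W₁ ε ξ₁ z.1 * GI β₂ W₂ ε ξ₂ z.2)
    ({x : ι₁ → ℝ | ∀ e, 0 < x e} ×ˢ {x : ι₂ → ℝ | ∀ e, 0 < x e})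
  rw [hset, setIntegral_prod_mul] at h3
  unfold GA
  rw [volume_pi, volume_pi, volume_pi, ← h3]
  refine integral_congr_ae (Filter.Eventually.of_forall (fun x => ?_))
  exact hGI x

end Pool.Agent.Helper62.MVC2
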