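import Pool.Agent.Helper62.MVC2.Gen
import Pool.Agent.Helper62.MVC2.Prod

/-!
MV-C2-8. Sub-configurations (`Emb`), products.

Proofs.
* `conf_ext`: `cases R; cases R'`, `subst` the equality of `τ`; then `β = β'` by evaluating the hypothesis at `h` and a representative `h'`
  of `R.β (R.face h)` (every face is `R.face h'`, `Quotient.exists_rep`).
* `Emb.edge`: `R.edge (j h) = R.edge (j h') ↔ R'.edge h = R'.edge h'`: `SameCycle` for `τ` (`(τ^k)(j h) = j (τ'^k h)`, `k : ℤ`), injectivity.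
* `emb_exists`: `φ = σ * R.τ`. Define `τ'` by `j (τ' h) = R.τ (j h)` (`hτ`, injectivity; it is a fixed point free involution).
  `(σ' * τ')` is `φ` transported by `j`: `j ((σ' * τ') h) = φ (j h)`, so `R.face (j h) = R.face (j h')` iff the faces of `h, h'` for `σ' * τ'` agree.
  `β'`: for a face `f' = face' h`, `R.β (R.face (j h))` is some `R.face h₂` and `h₂ = j h''` by `hβ`; `β' f' = face' h''`; well defined and an
  involution without fixed points. (Build `β'` from the function `Function.Involutive.toPerm`.)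
* `emb_prod`: maps `Face' ⊕ Face'' → Face`, `face' h ↦ R.face (j' h)` etc. (`Quotient.lift`) are bijective by `face`, `cover`, `disj`; same for the
  edges (`R.edge (j' h) ≠ R.edge (j'' h')`: the `τ`-cycle of `j' h` consists of `j' h, j' (τ' h)`, both in the range of `j'`, and an element
  of both ranges would contradict `disj`). `wt R` is block diagonal with blocks `wt R'`, `wt R''` (`Finset.card` by the injections). Then
  `A_eq_GA` and `GA_prod` with `ξ = 0`.
* `emb_unique`: `conf_ext`. `τ` agrees by `cover` and `tau`. For `β` and `h, h'`: both in the range of `j'`: `beta`; both in the range of `j''`: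
  `beta`; mixed: both sides are false: the partner of the face of `j' h` is `R.face (j' h₁)` for a representative `h₁` of
  `R'.β (R'.face h)`, which is not the face of a `j'' h'` (`disj`).
-/

namespace Pool.Agent.Helper62.MVC2

open Finset MeasureTheory Filter Topology Pool.Agent.Helper60.MV

private theorem cyc_eq_same {H : Type} (g : Equiv.Perm H) (a b : H) :
    cyc g a = cyc g b ↔ g.SameCycle a b :=
  Quotient.eq (r := Equiv.Perm.SameCycle.setoid g)

private theorem cyc_pair {H : Type} {τ : Equiv.Perm H} (hτ : IsPairing τ) (x y : H) :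
    cyc τ x = cyc τ y ↔ x = y ∨ x = τ y := by
  rw [cyc_eq_same]
  have hsq : τ ^ 2 = 1 := by
    ext z
    rw [pow_two, Equiv.Perm.mul_apply, hτ.invol, Equiv.Perm.one_apply]
  have hsq' : τ ^ (2 : ℤ) = 1 := by exact_mod_cast hsq
  constructor
  · rintro ⟨n, hn⟩
    rcases Int.even_or_odd n with ⟨m, rfl⟩ | ⟨m, rfl⟩
    · left
      have h2 : τ ^ (m + m) = 1 := by
        rw [← two_mul, zpow_mul, hsq', one_zpow]
      rw [h2, Equiv.Perm.one_apply] at hn
      exact hn
    · right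
      have h2 : τ ^ (2 * m + 1) = τ := by
        rw [zpow_add, zpow_mul, hsq', one_zpow, one_mul, zpow_one]
      rw [h2] at hn
      rw [← hn, hτ.invol]
  · rintro (rfl | rfl)
    · exact Equiv.Perm.SameCycle.refl _ _
    · exact ⟨1, by rw [zpow_one, hτ.invol]⟩

private theorem cyc_rep {H : Type} {g : Equiv.Perm H} (c : Cyc g) : cyc g c.rep = c :=
  Quotient.out_eq c

private theorem cyc_exists {H : Type} {g : Equiv.Perm H} (c : Cyc g) : ∃ h, cyc g h = c :=
  ⟨c.rep, cyc_rep c⟩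

private theorem zpow_semi {H H' : Type} (g : Equiv.Perm H) (g' : Equiv.Perm H') (j : H' → H)
    (hg : ∀ h, g (j h) = j (g' h)) (k : ℤ) (h : H') : (g ^ k) (j h) = j ((g' ^ k) h) := by
  have hinv : ∀ h, g⁻¹ (j h) = j (g'⁻¹ h) := by
    intro h
    rw [Equiv.Perm.inv_eq_iff_eq, hg]
    exact congrArg j (g'.apply_symm_apply h).symm
  induction k using Int.induction_on generalizing h with
  | zero => simp
  | succ n ih =>
    rw [zpow_add_one, zpow_add_one, Equiv.Perm.mul_apply, Equiv.Perm.mul_apply, hg, ih]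
  | pred n ih =>
    rw [zpow_sub_one, zpow_sub_one, Equiv.Perm.mul_apply, Equiv.Perm.mul_apply, hinv, ih]

private theorem cyc_semi {H H' : Type} (g : Equiv.Perm H) (g' : Equiv.Perm H') (j : H' → H)
    (hj : Function.Injective j) (hg : ∀ h, g (j h) = j (g' h)) (a b : H') :
    cyc g (j a) = cyc g (j b) ↔ cyc g' a = cyc g' b := by
  rw [cyc_eq_same, cyc_eq_same]
  constructor
  · rintro ⟨k, hk⟩
    rw [zpow_semi g g' j hg] at hk
    exact ⟨k, hj hk⟩
  · rintro ⟨k, hk⟩
    exact ⟨k, by rw [zpow_semi g g' j hg, hk]⟩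

theorem conf_ext {H : Type} {σ : Equiv.Perm H} (R R' : Conf σ) (hτ : R.τ = R'.τ)
    (hβ : ∀ h h', R.β (R.face h) = R.face h' ↔ R'.β (R'.face h) = R'.face h') : R = R' := by
  obtain ⟨τ, h1, β, h2⟩ := R
  obtain ⟨τ', h1', β', h2'⟩ := R'
  simp only at hτ
  subst hτ
  have : β = β' := by
    apply Equiv.ext
    intro f
    obtain ⟨h, rfl⟩ := cyc_exists f
    obtain ⟨h', hh'⟩ := cyc_exists (β (cyc (σ * τ) h))
    have h3 := (hβ h h').1 hh'.symm
    exact hh'.symm.trans h3.symm
  subst this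
  rfl

theorem Emb.edge {H H' : Type} {σ : Equiv.Perm H} {σ' : Equiv.Perm H'} {R : Conf σ}
    {R' : Conf σ'} {j : H' → H} (hE : Emb R R' j) (h h' : H') :
    R.edge (j h) = R.edge (j h') ↔ R'.edge h = R'.edge h' :=
  cyc_semi R.τ R'.τ j hE.inj hE.tau h h'

theorem emb_exists {H H' : Type} {σ : Equiv.Perm H} {σ' : Equiv.Perm H'} (R : Conf σ)
    (j : H' → H) (hj : Function.Injective j) (hσ : ∀ h, σ (j h) = j (σ' h))
    (hτ : ∀ h, ∃ h', R.τ (j h) = j h')
    (hβ : ∀ h h', R.β (R.face (j h)) = R.face h' → ∃ h'', j h'' = h') :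
    ∃ R' : Conf σ', Emb R R' j := by
  choose t ht using hτ
  have htt : Function.Involutive t := by
    intro h
    apply hj
    rw [← ht, ← ht, R.hτ.invol]
  let τ' : Equiv.Perm H' := htt.toPerm
  have hτ'app : ∀ h, τ' h = t h := fun h => rfl
  have hτ' : IsPairing τ' := by
    refine ⟨fun h => htt h, fun h hh => ?_⟩
    apply R.hτ.fpf (j h)
    rw [ht, ← hτ'app, hh]
  have hφ : ∀ h, (σ * R.τ) (j h) = j ((σ' * τ') h) := by
    intro h
    rw [Equiv.Perm.mul_apply, Equiv.Perm.mul_apply, ht, hσ, hτ'app]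
  have hface : ∀ a b, R.face (j a) = R.face (j b) ↔ cyc (σ' * τ') a = cyc (σ' * τ') b :=
    fun a b => cyc_semi (σ * R.τ) (σ' * τ') j hj hφ a b
  have hu0 : ∀ h, ∃ h'', R.β (R.face (j h)) = R.face (j h'') := by
    intro h
    obtain ⟨h', hh'⟩ := cyc_exists (R.β (R.face (j h)))
    obtain ⟨h'', rfl⟩ := hβ h h' hh'.symm
    exact ⟨h'', hh'.symm⟩
  choose u hu using hu0
  let B : Cyc (σ' * τ') → Cyc (σ' * τ') := fun f => cyc (σ' * τ') (u f.rep)
  have hB : ∀ h h', B (cyc (σ' * τ') h) = cyc (σ' * τ') h' ↔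
      R.β (R.face (j h)) = R.face (j h') := by
    intro h h'
    show cyc (σ' * τ') (u (cyc (σ' * τ') h).rep) = cyc (σ' * τ') h' ↔ _
    rw [← hface, ← hu]
    have h3 : R.face (j (cyc (σ' * τ') h).rep) = R.face (j h) := by
      rw [hface]
      exact cyc_rep _
    rw [h3]
  have hBB : Function.Involutive B := by
    intro f
    obtain ⟨h, rfl⟩ := cyc_exists f
    obtain ⟨h', hh'⟩ := cyc_exists (B (cyc (σ' * τ') h))
    have h4 := (hB h h').1 hh'.symm
    rw [← hh', hB, ← h4, R.hβ.invol]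
  let β' : Equiv.Perm (Cyc (σ' * τ')) := hBB.toPerm
  have hβ' : IsPairing β' := by
    refine ⟨fun f => hBB f, fun f hf => ?_⟩
    obtain ⟨h, rfl⟩ := cyc_exists f
    exact R.hβ.fpf _ ((hB h h).1 hf)
  exact ⟨⟨τ', hτ', β', hβ'⟩, ⟨hj, ht, hface, fun h h' => (hB h h').symm⟩⟩

private theorem edge_range {H H' : Type} {σ : Equiv.Perm H}
    {σ' : Equiv.Perm H'} {R : Conf σ} {R' : Conf σ'} {j : H' → H} (hE : Emb R R' j) (h : H)
    (h' : H') (hh : R.edge h = R.edge (j h')) : ∃ h'', j h'' = h := by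
  rcases (cyc_pair R.hτ h (j h')).1 hh with h1 | h1
  · exact ⟨h', h1.symm⟩
  · exact ⟨R'.τ h', by rw [h1, hE.tau]⟩

private theorem wt_emb {H H' : Type} [Fintype H] [Fintype H'] {σ : Equiv.Perm H}
    {σ' : Equiv.Perm H'} {R : Conf σ} {R' : Conf σ'} {j : H' → H} (hE : Emb R R' j) (a b : H') :
    wt R (R.face (j a)) (R.edge (j b)) = wt R' (R'.face a) (R'.edge b) := by
  classical
  unfold wt
  symm
  refine Finset.card_bij (fun h _ => j h) ?_ ?_ ?_
  · intro h hh
    rw [Finset.mem_filter] at hh ⊢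
    exact ⟨Finset.mem_univ _, (hE.face _ _).2 hh.2.1, (hE.edge _ _).2 hh.2.2⟩
  · intro h _ h' _ hhh
    exact hE.inj hhh
  · intro h hh
    rw [Finset.mem_filter] at hh
    obtain ⟨h'', rfl⟩ := edge_range hE h b hh.2.2
    refine ⟨h'', ?_, rfl⟩
    rw [Finset.mem_filter]
    exact ⟨Finset.mem_univ _, (hE.face _ _).1 hh.2.1, (hE.edge _ _).1 hh.2.2⟩

private theorem wt_zero {H H' H'' : Type} [Fintype H] {σ : Equiv.Perm H}
    {σ' : Equiv.Perm H''} {R : Conf σ} {R' : Conf σ'} {j : H' → H}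
    {j' : H'' → H} (hE : Emb R R' j') (disj : ∀ a b, R.face (j a) ≠ R.face (j' b)) (a : H')
    (b : H'') : wt R (R.face (j a)) (R.edge (j' b)) = 0 := by
  classical
  unfold wt
  rw [Finset.card_eq_zero, Finset.filter_eq_empty_iff]
  rintro h _ ⟨h1, h2⟩
  obtain ⟨h'', rfl⟩ := edge_range hE h b h2
  exact disj a h'' h1.symm

theorem emb_prod {H H' H'' : Type} [Fintype H] [Fintype H'] [Fintype H''] {σ : Equiv.Perm H}
    {σ' : Equiv.Perm H'} {σ'' : Equiv.Perm H''} (R : Conf σ) (R' : Conf σ') (R'' : Conf σ'')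
    (j' : H' → H) (j'' : H'' → H) (h1 : Emb R R' j') (h2 : Emb R R'' j'')
    (cover : ∀ h, (∃ a, j' a = h) ∨ ∃ b, j'' b = h)
    (disj : ∀ a b, R.face (j' a) ≠ R.face (j'' b)) (ε : ℝ) (hε : 0 < ε) :
    R.A ε 0 = R'.A ε 0 * R''.A ε 0 := by
  -- the maps on faces and edges
  let fa : R'.Face ⊕ R''.Face → R.Face :=
    Sum.elim (fun f => R.face (j' f.rep)) (fun f => R.face (j'' f.rep))
  let eb : R'.Edge ⊕ R''.Edge → R.Edge :=
    Sum.elim (fun e => R.edge (j' e.rep)) (fun e => R.edge (j'' e.rep))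
  have fa1 : ∀ h, fa (Sum.inl (R'.face h)) = R.face (j' h) := fun h =>
    (h1.face _ _).2 (cyc_rep _)
  have fa2 : ∀ h, fa (Sum.inr (R''.face h)) = R.face (j'' h) := fun h =>
    (h2.face _ _).2 (cyc_rep _)
  have eb1 : ∀ h, eb (Sum.inl (R'.edge h)) = R.edge (j' h) := fun h =>
    (h1.edge _ _).2 (cyc_rep _)
  have eb2 : ∀ h, eb (Sum.inr (R''.edge h)) = R.edge (j'' h) := fun h =>
    (h2.edge _ _).2 (cyc_rep _)
  have disjE : ∀ a b, R.edge (j' a) ≠ R.edge (j'' b) := by
    intro a b hab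
    obtain ⟨h'', hh⟩ := edge_range h2 (j' a) b hab
    exact disj a h'' (by rw [hh])
  have hfa : Function.Bijective fa := by
    constructor
    · rintro (f | f) (g | g) hfg
      · obtain ⟨a, rfl⟩ := cyc_exists f
        obtain ⟨b, rfl⟩ := cyc_exists g
        have h3 : R.face (j' a) = R.face (j' b) := by
          rw [← fa1, ← fa1]; exact hfg
        exact congrArg Sum.inl ((h1.face _ _).1 h3)
      · obtain ⟨a, rfl⟩ := cyc_exists f
        obtain ⟨b, rfl⟩ := cyc_exists g
        exact absurd (show R.face (j' a) = R.face (j'' b) by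
          rw [← fa1, ← fa2]; exact hfg) (disj a b)
      · obtain ⟨a, rfl⟩ := cyc_exists f
        obtain ⟨b, rfl⟩ := cyc_exists g
        exact absurd (show R.face (j' b) = R.face (j'' a) by
          rw [← fa1, ← fa2]; exact hfg.symm) (disj b a)
      · obtain ⟨a, rfl⟩ := cyc_exists f
        obtain ⟨b, rfl⟩ := cyc_exists g
        have h3 : R.face (j'' a) = R.face (j'' b) := by
          rw [← fa2, ← fa2]; exact hfg
        exact congrArg Sum.inr ((h2.face _ _).1 h3)
    · intro f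
      obtain ⟨h, rfl⟩ := cyc_exists f
      rcases cover h with ⟨a, rfl⟩ | ⟨b, rfl⟩
      · exact ⟨Sum.inl (R'.face a), fa1 a⟩
      · exact ⟨Sum.inr (R''.face b), fa2 b⟩
  have heb : Function.Bijective eb := by
    constructor
    · rintro (f | f) (g | g) hfg
      · obtain ⟨a, rfl⟩ := cyc_exists f
        obtain ⟨b, rfl⟩ := cyc_exists g
        have h3 : R.edge (j' a) = R.edge (j' b) := by
          rw [← eb1, ← eb1]; exact hfg
        exact congrArg Sum.inl ((h1.edge _ _).1 h3)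
      · obtain ⟨a, rfl⟩ := cyc_exists f
        obtain ⟨b, rfl⟩ := cyc_exists g
        exact absurd (show R.edge (j' a) = R.edge (j'' b) by
          rw [← eb1, ← eb2]; exact hfg) (disjE a b)
      · obtain ⟨a, rfl⟩ := cyc_exists f
        obtain ⟨b, rfl⟩ := cyc_exists g
        exact absurd (show R.edge (j' b) = R.edge (j'' a) by
          rw [← eb1, ← eb2]; exact hfg.symm) (disjE b a)
      · obtain ⟨a, rfl⟩ := cyc_exists f
        obtain ⟨b, rfl⟩ := cyc_exists g
        have h3 : R.edge (j'' a) = R.edge (j'' b) := by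
          rw [← eb2, ← eb2]; exact hfg
        exact congrArg Sum.inr ((h2.edge _ _).1 h3)
    · intro f
      obtain ⟨h, rfl⟩ := cyc_exists f
      rcases cover h with ⟨a, rfl⟩ | ⟨b, rfl⟩
      · exact ⟨Sum.inl (R'.edge a), eb1 a⟩
      · exact ⟨Sum.inr (R''.edge b), eb2 b⟩
  rw [A_eq_GA R ε hε, A_eq_GA R' ε hε, A_eq_GA R'' ε hε]
  refine GA_prod (R'.β) (R''.β) (R.β) (wt R') (wt R'') (wt R) ε 0 0 0
    (Equiv.ofBijective fa hfa) (Equiv.ofBijective eb heb) ?_ ?_ ?_ ?_ ?_ ?_ ?_ ?_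
  · intro f
    obtain ⟨a, rfl⟩ := cyc_exists f
    obtain ⟨b, hb⟩ := cyc_exists (R'.β (R'.face a))
    show R.β (fa (Sum.inl (R'.face a))) = fa (Sum.inl (R'.β (R'.face a)))
    have h3 : R'.β (R'.face a) = R'.face b := hb.symm
    rw [h3, fa1, fa1]
    exact (h1.beta a b).2 h3
  · intro f
    obtain ⟨a, rfl⟩ := cyc_exists f
    obtain ⟨b, hb⟩ := cyc_exists (R''.β (R''.face a))
    show R.β (fa (Sum.inr (R''.face a))) = fa (Sum.inr (R''.β (R''.face a)))
    have h3 : R''.β (R''.face a) = R''.face b := hb.symm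
    rw [h3, fa2, fa2]
    exact (h2.beta a b).2 h3
  · intro f e
    obtain ⟨a, rfl⟩ := cyc_exists f
    obtain ⟨b, rfl⟩ := cyc_exists e
    show wt R (fa (Sum.inl (R'.face a))) (eb (Sum.inl (R'.edge b))) = _
    rw [fa1, eb1]
    exact wt_emb h1 a b
  · intro f e
    obtain ⟨a, rfl⟩ := cyc_exists f
    obtain ⟨b, rfl⟩ := cyc_exists e
    show wt R (fa (Sum.inl (R'.face a))) (eb (Sum.inr (R''.edge b))) = _
    rw [fa1, eb2]
    exact wt_zero h2 disj a b
  · intro f e
    obtain ⟨a, rfl⟩ := cyc_exists f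
    obtain ⟨b, rfl⟩ := cyc_exists e
    show wt R (fa (Sum.inr (R''.face a))) (eb (Sum.inl (R'.edge b))) = _
    rw [fa2, eb1]
    exact wt_zero h1 (fun a b => (disj b a).symm) a b
  · intro f e
    obtain ⟨a, rfl⟩ := cyc_exists f
    obtain ⟨b, rfl⟩ := cyc_exists e
    show wt R (fa (Sum.inr (R''.face a))) (eb (Sum.inr (R''.edge b))) = _
    rw [fa2, eb2]
    exact wt_emb h2 a b
  · intro f; rfl
  · intro f; rfl

theorem emb_unique {H H' H'' : Type} {σ : Equiv.Perm H}
    {σ' : Equiv.Perm H'} {σ'' : Equiv.Perm H''} (R Q : Conf σ) (R' : Conf σ') (R'' : Conf σ'')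
    (j' : H' → H) (j'' : H'' → H) (h1 : Emb R R' j') (h2 : Emb R R'' j'')
    (q1 : Emb Q R' j') (q2 : Emb Q R'' j'')
    (cover : ∀ h, (∃ a, j' a = h) ∨ ∃ b, j'' b = h)
    (disj : ∀ a b, R.face (j' a) ≠ R.face (j'' b))
    (disj' : ∀ a b, Q.face (j' a) ≠ Q.face (j'' b)) : R = Q := by
  refine conf_ext R Q ?_ ?_
  · apply Equiv.ext
    intro h
    rcases cover h with ⟨a, rfl⟩ | ⟨b, rfl⟩
    · rw [h1.tau, q1.tau]
    · rw [h2.tau, q2.tau]
  · -- faces of mixed type are never partners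
    have key : ∀ (S : Conf σ) (S' : Conf σ') (S'' : Conf σ'') (_ : Emb S S' j')
        (_ : Emb S S'' j'') (_ : ∀ a b, S.face (j' a) ≠ S.face (j'' b)) (a : H') (b : H''),
        S.β (S.face (j' a)) ≠ S.face (j'' b) ∧ S.β (S.face (j'' b)) ≠ S.face (j' a) := by
      intro S S' S'' e1 e2 hd a b
      constructor
      · intro hab
        obtain ⟨a', ha'⟩ := cyc_exists (S'.β (S'.face a))
        have h3 : S.β (S.face (j' a)) = S.face (j' a') := (e1.beta a a').2 ha'.symm
        exact hd a' b (h3.symm.trans hab)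
      · intro hab
        obtain ⟨b', hb'⟩ := cyc_exists (S''.β (S''.face b))
        have h3 : S.β (S.face (j'' b)) = S.face (j'' b') := (e2.beta b b').2 hb'.symm
        exact hd a b' (hab.symm.trans h3)
    intro h h'
    rcases cover h with ⟨a, rfl⟩ | ⟨b, rfl⟩
    · rcases cover h' with ⟨a', rfl⟩ | ⟨b', rfl⟩
      · rw [h1.beta, q1.beta]
      · exact iff_of_false (key R R' R'' h1 h2 disj a b').1 (key Q R' R'' q1 q2 disj' a b').1
    · rcases cover h' with ⟨a', rfl⟩ | ⟨b', rfl⟩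
      · exact iff_of_false (key R R' R'' h1 h2 disj a' b).2 (key Q R' R'' q1 q2 disj' a' b).2
      · rw [h2.beta, q2.beta]

end Pool.Agent.Helper62.MVC2
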