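import Pool.Agent.Helper60.MV.DefsC

/-!
Project MV, block C: the interface between C1 (combinatorics of leaves) and C2 (analysis).
Everything at the level of half-edges.
-/

namespace Pool.Agent.Helper62.MVC2

open Finset MeasureTheory Filter Topology Pool.Agent.Helper60.MV

/-- embedding of the half-edges of the leaf: `(true, s) ↦ σ^(s+1) x`, `(false, 0) ↦ x` -/
def jT {ρ : Type} (K : ρ → ℕ) (x : HK K) (m : ℕ) (h : HK (leg m)) : HK K :=
  if h.1 = true then (rot K ^ ((h.2 : ℕ) + 1)) x else x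

/-- embedding of the half-edges of the rest: `(x.1, s) ↦ σ^(2m+2+s) x`, `(i, s) ↦ (i, s)` for
`i ≠ x.1` -/
noncomputable def jR {ρ : Type} (K : ρ → ℕ) (x : HK K) (m : ℕ) (h : HK (red K x.1 m)) : HK K := by
  classical
  exact if hi : h.1 = x.1 then (rot K ^ (2 * m + 2 + (h.2 : ℕ))) x
    else ⟨h.1, ⟨(h.2 : ℕ), by
      have h2 := h.2.2
      simpa [red, Function.update_of_ne hi] using h2⟩⟩

/-- the leg of the leaf -/
def legHalf (m : ℕ) : HK (leg m) := ⟨false, ⟨0, by simp [leg]⟩⟩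

/-- `R` is cut at the leaf with stem `x` into `T` and `R₁` -/
structure Surg {ρ : Type} {K : ρ → ℕ} (R : Conf (rot K)) (x : HK K) (m : ℕ)
    (T : Conf (rot (leg m))) (R₁ : Conf (rot (red K x.1 m))) : Prop where
  tauT : ∀ h, R.τ (jT K x m h) = jT K x m (T.τ h)
  tauR : ∀ h, R.τ (jR K x m h) = jR K x m (R₁.τ h)
  faceT : ∀ h h', h.1 = true → h'.1 = true →
    (R.face (jT K x m h) = R.face (jT K x m h') ↔ T.face h = T.face h')
  faceTx : T.face (legHalf m) = T.face (T.τ (legHalf m))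
  faceR : ∀ h h', R.face (jR K x m h) = R.face (jR K x m h') ↔ R₁.face h = R₁.face h'
  facex : ∃ h, R.face x = R.face (jR K x m h)
  disj : ∀ h h', h.1 = true → R.face (jT K x m h) ≠ R.face (jR K x m h')
  betaT : ∀ h h', h.1 = true → h'.1 = true →
    (R.β (R.face (jT K x m h)) = R.face (jT K x m h') ↔ T.β (T.face h) = T.face h')
  betaR : ∀ h h', R.β (R.face (jR K x m h)) = R.face (jR K x m h') ↔
    R₁.β (R₁.face h) = R₁.face h'

end Pool.Agent.Helper62.MVC2
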