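import Pool.Agent.Helper62.MVC2.Main
import Pool.Agent.Helper91.MVC.Half

/-!
MV block C, final form: `C_up`, `C_rec`, `C_low`, `UB_odd` from the limit theorem `PH` (block P).
-/

namespace Pool.Agent.Helper62.MVC2

open Finset MeasureTheory Filter Topology Pool.Agent.Helper60.MV

theorem surgH {ρ : Type} [Fintype ρ] (K : ρ → ℕ) (hK : ∀ i, Odd (K i)) : SurgH K :=
  fun R hc hl => Pool.Agent.Helper91.MVC.surgery K hK R hc hl

theorem two_cycles {ρ : Type} [Fintype ρ] (K : ρ → ℕ) (hK : ∀ i, Odd (K i))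
    (hρ : 2 ≤ Fintype.card ρ) : ∃ a b : HK K, ¬ (rot K).SameCycle a b := by
  obtain ⟨i, i', hi⟩ := Fintype.exists_pair_of_one_lt_card (α := ρ) (by omega)
  refine ⟨⟨i, ⟨0, (hK i).pos⟩⟩, ⟨i', ⟨0, (hK i').pos⟩⟩, ?_⟩
  rintro ⟨k, hk⟩
  have key : ∀ (k : ℤ) (h : HK K), ((rot K ^ k) h).1 = h.1 := by
    intro k
    induction k using Int.induction_on with
    | zero => intro h; simp
    | succ n ih =>
      intro h
      rw [zpow_add, Equiv.Perm.mul_apply, ih]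
      rfl
    | pred n ih =>
      intro h
      rw [zpow_sub, Equiv.Perm.mul_apply, ih, zpow_one]
      rfl
  exact hi ((key k _).symm.trans (congrArg Sigma.fst hk))

theorem delH {ρ : Type} [Fintype ρ] (K : ρ → ℕ) (hK : ∀ i, Odd (K i))
    (hρ : 2 ≤ Fintype.card ρ) : DelH K :=
  fun R hc hl haa x μ h1 h2 h3 =>
    Pool.Agent.Helper91.MVC.deletion' (rot_allOdd K hK) (two_cycles K hK hρ) R hc hl haa x μ h1 h2 h3

theorem C_up_of {ρ : Type} [Fintype ρ] (hP : PH) (K : ρ → ℕ) (hK : ∀ i, Odd (K i)) (E : ℕ)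
    (hE : ∑ i, K i = 2 * E) (hρ : 2 ≤ Fintype.card ρ) : Yconn K ≤ Ypoly K := by
  have : Nonempty ρ := Fintype.card_pos_iff.mp (by omega)
  exact C_up' K hK (hP K hK E hE)

theorem C_rec_of {ρ : Type} [Fintype ρ] (hP : PH) (K : ρ → ℕ) (hK : ∀ i, Odd (K i)) (E : ℕ)
    (hE : ∑ i, K i = 2 * E) (hρ : 2 ≤ Fintype.card ρ) (B : ρ → ℕ → ℝ) (hB : ∀ i m, 0 ≤ B i m)
    (h : ∀ i m, 1 ≤ m → 2 * m + 2 < K i → UB (red K i m) (B i m)) :
    UB K (Ypoly K + AAc K + leafSum K B) :=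
  C_rec' K hK E hE hρ hP (surgH K hK) (delH K hK hρ) B hB h

theorem C_low_of {ρ : Type} [Fintype ρ] (hP : PH) (K : ρ → ℕ) (hK : ∀ i, Odd (K i)) (E : ℕ)
    (hE : ∑ i, K i = 2 * E) (hρ : 2 ≤ Fintype.card ρ) (B : ρ → ℕ → ℝ) (hB : ∀ i m, 0 ≤ B i m)
    (h : ∀ i m, 1 ≤ m → 2 * m + 2 < K i → UB (red K i m) (B i m)) :
    Ypoly K - disc K - AAc K - leafSum K B ≤ Yconn K :=
  C_low' K hK E hE hρ hP (surgH K hK) (delH K hK hρ) B hB h

end Pool.Agent.Helper62.MVC2
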