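import Pool.Agent.Helper62.MVC2.GenDef
import Pool.Agent.Helper60.MV.B.Kern
import Pool.Agent.Helper60.MV.B.Im

/-!
MV-C2-1. Basic properties of `GI`, `GA`.

Proofs.
* `GI_nonneg`: product of square roots.
* `GI_continuous`: `kern` is continuous (`kern_continuous`), sums are continuous, `Real.continuous_sqrt`.
* `GI_le`: for `β` an involution, `x ≥ 0`, `ξ ≥ 0`, `0 < ε ≤ 1/2`: each factor is
  `sqrt (kern ε p p') ≤ sqrt 10 * exp (-(9/40) (p + p')) * sqrt (corr ε (p - p'))` (`kern_exp9`); we use only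
  `corr ≤ 1/ε` (`corr_le`), so the factor is `≤ (10/ε + 1) exp (-(9/40)(p+p'))` (as `sqrt a ≤ a + 1`), and
  `∑_f (p_f + p_{β f}) = 2 ∑_f p_f ≥ 2 ∑_e (∑_f W f e) x_e ≥ 2 ∑_e x_e` if every column has a positive entry
  (reindex the sum by the involution `β`; `ξ ≥ 0`). So `GI ≤ (10/ε+1)^|F| exp (-(9/20) ∑_e x_e)`. Note that the
  perimeters `p_f = ∑_e W f e x_e + ξ_f` are `≥ 0`.
* `GI_integrableOn`: continuous (so measurable) and dominated on the orthant by a product of exponentials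
  (`integrableOn_exp...`, product of integrable functions on a pi type: `MeasureTheory.Integrable.fintype_prod`
  applied to the indicator functions, or `MeasureTheory.Measure.restrict_pi_pi`).
* `A_eq_GA`: `R.P c b e = wt R (R.cface c b) e` (definitional), faces are enumerated by `cface` (`cface_bij`),
  `R.β (R.cface c false) = R.cface c true` and conversely (`β` is an involution, `R.cface c false = c.rep`), `kern_symm`,
  `sqrt k * sqrt k = k` for `k ≥ 0` (`kern_nonneg`).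
-/

namespace Pool.Agent.Helper62.MVC2

open Finset MeasureTheory Filter Topology Pool.Agent.Helper60.MV

theorem GI_nonneg {F ι : Type} [Fintype F] [Fintype ι] (β : F → F) (W : F → ι → ℕ) (ε : ℝ)
    (ξ : F → ℝ) (x : ι → ℝ) : 0 ≤ GI β W ε ξ x := by
  unfold GI
  exact Finset.prod_nonneg (fun f _ => Real.sqrt_nonneg _)

theorem GA_nonneg {F ι : Type} [Fintype F] [Fintype ι] (β : F → F) (W : F → ι → ℕ) (ε : ℝ)
    (ξ : F → ℝ) : 0 ≤ GA β W ε ξ := by
  unfold GA
  exact integral_nonneg (fun x => GI_nonneg β W ε ξ x)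

theorem GI_continuous {F ι : Type} [Fintype F] [Fintype ι] (β : F → F) (W : F → ι → ℕ) (ε : ℝ)
    (hε : 0 < ε) (ξ : F → ℝ) : Continuous (GI β W ε ξ) := by
  unfold GI
  refine continuous_finset_prod _ (fun f _ => ?_)
  refine Real.continuous_sqrt.comp ?_
  have h1 : Continuous (fun x : ι → ℝ => ((∑ e, (W f e : ℝ) * x e + ξ f,
      ∑ e, (W (β f) e : ℝ) * x e + ξ (β f)) : ℝ × ℝ)) := by
    refine Continuous.prodMk ?_ ?_
    · exact (continuous_finset_sum _ (fun e _ => continuous_const.mul (continuous_apply e))).add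
        continuous_const
    · exact (continuous_finset_sum _ (fun e _ => continuous_const.mul (continuous_apply e))).add
        continuous_const
  exact (kern_continuous ε hε).comp h1

private theorem fac_le (ε : ℝ) (hε : 0 < ε) (hε2 : ε ≤ 1 / 2) (p p' : ℝ) (hp : 0 ≤ p) (hp' : 0 ≤ p') :
    Real.sqrt (kern ε p p') ≤ (10 / ε + 1) * Real.exp (-(9 / 40 * (p + p'))) := by
  have h1 := kern_exp9 ε hε hε2 p p' hp hp'
  have h2 := corr_le ε hε (p - p')
  rw [← one_div] at h2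
  have h10 : 0 < 10 / ε := by positivity
  apply Real.sqrt_le_iff.2
  refine ⟨by positivity, ?_⟩
  have h3 : 10 * Real.exp (-(9 / 20 * (p + p'))) * corr ε (p - p') ≤
      10 * Real.exp (-(9 / 20 * (p + p'))) * (1 / ε) :=
    mul_le_mul_of_nonneg_left h2 (by positivity)
  have h4 : Real.exp (-(9 / 40 * (p + p'))) ^ 2 = Real.exp (-(9 / 20 * (p + p'))) := by
    rw [← Real.exp_nat_mul]
    congr 1
    push_cast
    ring
  rw [mul_pow, h4]
  have h5 : 10 * Real.exp (-(9 / 20 * (p + p'))) * (1 / ε) =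
      10 / ε * Real.exp (-(9 / 20 * (p + p'))) := by
    ring
  rw [h5] at h3
  refine h1.trans (h3.trans ?_)
  apply mul_le_mul_of_nonneg_right _ (Real.exp_pos _).le
  nlinarith

theorem GI_le {F ι : Type} [Fintype F] [Fintype ι] (β : F → F) (hβ : ∀ f, β (β f) = f)
    (W : F → ι → ℕ) (hW : ∀ e, ∃ f, 0 < W f e) (ε : ℝ) (hε : 0 < ε) (hε2 : ε ≤ 1 / 2)
    (ξ : F → ℝ) (hξ : ∀ f, 0 ≤ ξ f) (x : ι → ℝ) (hx : ∀ e, 0 ≤ x e) :
    GI β W ε ξ x ≤ (10 / ε + 1) ^ (Fintype.card F) * Real.exp (-(9 / 20 * ∑ e, x e)) := by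
  unfold GI
  set p : F → ℝ := fun f => ∑ e, (W f e : ℝ) * x e + ξ f with hp
  have hp0 : ∀ f, 0 ≤ p f := by
    intro f
    rw [hp]
    exact add_nonneg (Finset.sum_nonneg (fun e _ => mul_nonneg (Nat.cast_nonneg _) (hx e))) (hξ f)
  have h1 : ∏ f, Real.sqrt (kern ε (p f) (p (β f))) ≤
      ∏ f, ((10 / ε + 1) * Real.exp (-(9 / 40 * (p f + p (β f))))) :=
    Finset.prod_le_prod (fun f _ => Real.sqrt_nonneg _)
      (fun f _ => fac_le ε hε hε2 (p f) (p (β f)) (hp0 f) (hp0 (β f)))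
  refine h1.trans ?_
  rw [Finset.prod_mul_distrib, Finset.prod_const, ← Real.exp_sum, Finset.card_univ]
  apply mul_le_mul_of_nonneg_left _ (by positivity)
  apply Real.exp_le_exp.2
  rw [Finset.sum_neg_distrib, neg_le_neg_iff, ← Finset.mul_sum, Finset.sum_add_distrib]
  have h2 : ∑ f, p (β f) = ∑ f, p f :=
    Equiv.sum_comp (Function.Involutive.toPerm β hβ) p
  rw [h2]
  have h3 : ∑ e, x e ≤ ∑ f, p f := by
    have h4 : ∑ f, ∑ e, (W f e : ℝ) * x e ≤ ∑ f, p f := by
      refine Finset.sum_le_sum (fun f _ => ?_)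
      rw [hp]
      simp only
      linarith [hξ f]
    refine le_trans ?_ h4
    rw [Finset.sum_comm]
    refine Finset.sum_le_sum (fun e _ => ?_)
    obtain ⟨f, hf⟩ := hW e
    have h5 : (W f e : ℝ) * x e ≤ ∑ f, (W f e : ℝ) * x e :=
      Finset.single_le_sum (f := fun f => (W f e : ℝ) * x e)
        (fun f _ => mul_nonneg (Nat.cast_nonneg _) (hx e)) (Finset.mem_univ f)
    have h6 : (1 : ℝ) ≤ (W f e : ℝ) := by exact_mod_cast hf
    have h7 := mul_le_mul_of_nonneg_right h6 (hx e)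
    linarith
  linarith

theorem GI_integrableOn {F ι : Type} [Fintype F] [Fintype ι] (β : F → F) (hβ : ∀ f, β (β f) = f)
    (W : F → ι → ℕ) (hW : ∀ e, ∃ f, 0 < W f e) (ε : ℝ) (hε : 0 < ε) (hε2 : ε ≤ 1 / 2)
    (ξ : F → ℝ) (hξ : ∀ f, 0 ≤ ξ f) :
    IntegrableOn (GI β W ε ξ) {x : ι → ℝ | ∀ e, 0 < x e} := by
  have hset : {x : ι → ℝ | ∀ e, 0 < x e} = Set.pi Set.univ (fun _ : ι => Set.Ioi (0:ℝ)) := by
    ext x
    simp
  have hms : MeasurableSet {x : ι → ℝ | ∀ e, 0 < x e} := by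
    rw [hset]
    exact MeasurableSet.univ_pi (fun _ => measurableSet_Ioi)
  have hb : IntegrableOn (fun x : ι → ℝ => (10 / ε + 1) ^ (Fintype.card F) *
      Real.exp (-(9 / 20 * ∑ e, x e))) {x : ι → ℝ | ∀ e, 0 < x e} := by
    apply Integrable.const_mul
    rw [hset]
    have h1 : (volume : Measure (ι → ℝ)).restrict (Set.pi Set.univ (fun _ : ι => Set.Ioi (0:ℝ))) =
        Measure.pi (fun _ : ι => (volume : Measure ℝ).restrict (Set.Ioi (0:ℝ))) := by
      rw [volume_pi, Measure.restrict_pi_pi]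
    rw [h1]
    have h2 : (fun x : ι → ℝ => Real.exp (-(9 / 20 * ∑ e, x e))) =
        fun x : ι → ℝ => ∏ e, Real.exp (-(9 / 20) * x e) := by
      funext x
      rw [← Real.exp_sum, ← Finset.mul_sum]
      congr 1
      ring
    rw [h2]
    exact Integrable.fintype_prod (fun _ => exp_neg_integrableOn_Ioi 0 (by norm_num))
  refine Integrable.mono' hb ((GI_continuous β W ε hε ξ).aestronglyMeasurable) ?_
  refine (ae_restrict_mem hms).mono (fun x hx => ?_)
  rw [Real.norm_eq_abs, abs_of_nonneg (GI_nonneg β W ε ξ x)]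
  exact GI_le β hβ W hW ε hε hε2 ξ hξ x (fun e => (hx e).le)

theorem A_eq_GA {H : Type} [Fintype H] {σ : Equiv.Perm H} (R : Conf σ) (ε : ℝ) (hε : 0 < ε)
    (ξ : R.Face → ℝ) : R.A ε ξ = GA R.β (wt R) ε ξ := by
  unfold Conf.A AM GA
  congr 1
  funext x
  unfold GI
  set p : R.Face → ℝ := fun f => ∑ e, (wt R f e : ℝ) * x e + ξ f with hp
  show ∏ c, kern ε (p (R.cface c false)) (p (R.cface c true)) =
    ∏ f, Real.sqrt (kern ε (p f) (p (R.β f)))
  have h1 : ∏ f, Real.sqrt (kern ε (p f) (p (R.β f))) =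
      ∏ q : R.Cyl × Bool, Real.sqrt (kern ε (p (R.cface q.1 q.2)) (p (R.β (R.cface q.1 q.2)))) :=
    (Function.Bijective.prod_comp (cface_bij R)
      (fun f => Real.sqrt (kern ε (p f) (p (R.β f))))).symm
  rw [h1, Fintype.prod_prod_type]
  refine Finset.prod_congr rfl (fun c _ => ?_)
  rw [Fintype.prod_bool]
  have h2 : R.β (R.cface c false) = R.cface c true := rfl
  have h3 : R.β (R.cface c true) = R.cface c false := R.hβ.invol _
  simp only [h2, h3]
  rw [kern_symm ε (p (R.cface c true)) (p (R.cface c false)),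
    Real.mul_self_sqrt (kern_nonneg ε hε _ _)]

theorem A_nonneg {H : Type} [Fintype H] {σ : Equiv.Perm H} (R : Conf σ) (ε : ℝ) (hε : 0 < ε)
    (ξ : R.Face → ℝ) : 0 ≤ R.A ε ξ := by
  rw [A_eq_GA R ε hε ξ]
  exact GA_nonneg _ _ _ _

/-- the integrand vanishes unless paired faces have nearly equal perimeters -/
theorem GI_ne_zero {F ι : Type} [Fintype F] [Fintype ι] (β : F → F)
    (W : F → ι → ℕ) (ε : ℝ) (hε : 0 < ε) (ξ : F → ℝ) (x : ι → ℝ) (h : GI β W ε ξ x ≠ 0) (f : F) :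
    |(∑ e, (W f e : ℝ) * x e + ξ f) - (∑ e, (W (β f) e : ℝ) * x e + ξ (β f))| < 2 * ε := by
  by_contra hcon
  rw [not_lt] at hcon
  apply h
  unfold GI
  apply Finset.prod_eq_zero (Finset.mem_univ f)
  rw [kern_zero ε hε _ _ hcon, Real.sqrt_zero]

end Pool.Agent.Helper62.MVC2
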