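import Pool.Agent.Helper60.MV.B.Spec

/-!
Project MV, block C2: regularised volumes written with faces instead of cylinders.
-/

namespace Pool.Agent.Helper62.MVC2

open Finset MeasureTheory Filter Topology Pool.Agent.Helper60.MV

/-- the integrand of an incidence system: faces `F` with a pairing `β`, edges `ι`, weights `W`
(number of half-edges of an edge in a face), shifts `ξ`; the square root distributes the
symmetric kernel of a cylinder over its two faces -/
noncomputable def GI {F ι : Type} [Fintype F] [Fintype ι] (β : F → F) (W : F → ι → ℕ) (ε : ℝ)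
    (ξ : F → ℝ) (x : ι → ℝ) : ℝ :=
  ∏ f, Real.sqrt (kern ε (∑ e, (W f e : ℝ) * x e + ξ f)
    (∑ e, (W (β f) e : ℝ) * x e + ξ (β f)))

/-- regularised volume of an incidence system -/
noncomputable def GA {F ι : Type} [Fintype F] [Fintype ι] (β : F → F) (W : F → ι → ℕ) (ε : ℝ)
    (ξ : F → ℝ) : ℝ :=
  ∫ x in {x : ι → ℝ | ∀ e, 0 < x e}, GI β W ε ξ x

/-- number of half-edges of the edge `e` in the face `f` -/
noncomputable def wt {H : Type} [Fintype H] {σ : Equiv.Perm H} (R : Conf σ) (f : R.Face)
    (e : R.Edge) : ℕ := by
  classical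
  exact (univ.filter (fun h : H => R.face h = f ∧ R.edge h = e)).card

/-- sub-configuration: the half-edges of `R'` are embedded by `j` in those of `R` -/
structure Emb {H H' : Type} {σ : Equiv.Perm H} {σ' : Equiv.Perm H'} (R : Conf σ) (R' : Conf σ')
    (j : H' → H) : Prop where
  inj : Function.Injective j
  tau : ∀ h, R.τ (j h) = j (R'.τ h)
  face : ∀ h h', R.face (j h) = R.face (j h') ↔ R'.face h = R'.face h'
  beta : ∀ h h', R.β (R.face (j h)) = R.face (j h') ↔ R'.β (R'.face h) = R'.face h'

end Pool.Agent.Helper62.MVC2
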