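import Pool.Agent.Helper62.MVC2.Gen
import Pool.Agent.Helper60.MV.B.Riemann

/-!
MV-C2-6. Good systems: the regularised volume with shifts is bounded by the one without.

Proof of `AM_good`. Let `z_{c,b}` be the vectors of `hs`, `z(ξ) = ∑ ξ_{c,b} z_{c,b}`, so `p_{c,b}(z(ξ)) = ξ_{c,b}` and
`|z(ξ)_e| ≤ C0 M`, `C0 = ∑_{c,b,e} |z_{c,b} e|`; `C1 = C0 / min u_e` (or any `C1 ≥ 0` with `C1 u_e ≥ C0` for all `e`). The translation by
`v = z(ξ) + C1 M u ≥ 0` maps the orthant `O` into itself; `p_{c,b}(x + v) = p_{c,b}(x) + ξ_{c,b} + η_c`,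
`η_c = C1 M p_{c,false}(u) = C1 M p_{c,true}(u) ≥ 0`. By `kern_shift`,
`kern ε (p_{c,0}(x) + ξ_{c,0}) (p_{c,1}(x)+ξ_{c,1}) = kern ε (p_{c,0}(x+v) - η_c) (p_{c,1}(x+v) - η_c) ≤ e^{η_c} kern ε (p_{c,0}(x+v)) (p_{c,1}(x+v))`.
Multiply over `c` and integrate: `AM P ε ξ ≤ e^{∑ η_c} ∫_{O} F(x + v) dx = e^{∑η_c} ∫_{O + v} F ≤ e^{∑η_c} ∫_O F`, `F ≥ 0` integrable on `O`
(`AM_integrableOn`). `C = C1 ∑_c p_{c,false}(u)`.
`AM_integrableOn`: `∏_c kern` is continuous, and `≤ C exp (-(9/20) ∑ x_e)` on the orthant by `kern_exp9`, `corr_le` and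
`∑_c (p_c + p'_c) ≥ ∑_e x_e` (each edge has a positive entry).
`A_good`: apply `AM_good` to `R.P`: `sum_P`, `cface_bij`, `P_two` (divide by 2), the vector `u` of `R.Good` (cast), `P_col`.
-/

namespace Pool.Agent.Helper62.MVC2

open Finset MeasureTheory Filter Topology Pool.Agent.Helper60.MV

private theorem gm_meas {ι : Type} [Fintype ι] (v : ι → ℝ) :
    MeasurableSet {x : ι → ℝ | ∀ e, v e < x e} := by
  have h : {x : ι → ℝ | ∀ e, v e < x e} = Set.univ.pi (fun e => Set.Ioi (v e)) := by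
    ext x
    simp
  rw [h]
  exact MeasurableSet.univ_pi fun _ => measurableSet_Ioi

private theorem gm_meas0 {ι : Type} [Fintype ι] :
    MeasurableSet {x : ι → ℝ | ∀ e, 0 < x e} :=
  gm_meas (fun _ => (0:ℝ))

theorem AM_integrableOn {ι κ : Type} [Fintype ι] [Fintype κ] (P : κ → Bool → ι → ℕ)
    (hcol : ∀ e, ∃ c b, 0 < P c b e) (ε : ℝ) (hε : 0 < ε) (hε2 : ε ≤ 1 / 2)
    (ξ : κ → Bool → ℝ) (hξ : ∀ c b, 0 ≤ ξ c b) :
    IntegrableOn (fun x : ι → ℝ => ∏ c : κ, kern ε (∑ e, (P c false e : ℝ) * x e + ξ c false)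
      (∑ e, (P c true e : ℝ) * x e + ξ c true)) {x : ι → ℝ | ∀ e, 0 < x e} := by
  have hcont : Continuous (fun x : ι → ℝ => ∏ c : κ,
      kern ε (∑ e, (P c false e : ℝ) * x e + ξ c false)
        (∑ e, (P c true e : ℝ) * x e + ξ c true)) := by
    refine continuous_finsetProd _ fun c _ => ?_
    have h1 : Continuous (fun x : ι → ℝ => ((∑ e, (P c false e : ℝ) * x e + ξ c false),
        (∑ e, (P c true e : ℝ) * x e + ξ c true))) := by fun_prop
    exact (kern_continuous ε hε).comp h1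
  refine Integrable.mono' ((orthant_exp_integrable (ι := ι) (9 / 20)
    (by norm_num)).const_mul ((10 * ε⁻¹) ^ (Fintype.card κ))) hcont.aestronglyMeasurable ?_
  rw [ae_restrict_iff' gm_meas0]
  refine Filter.Eventually.of_forall fun x hx => ?_
  have hx0 : ∀ e, 0 ≤ x e := fun e => (hx e).le
  have hp : ∀ c b, 0 ≤ ∑ e, (P c b e : ℝ) * x e + ξ c b := fun c b =>
    add_nonneg (Finset.sum_nonneg fun e _ => mul_nonneg (Nat.cast_nonneg _) (hx0 e)) (hξ c b)
  rw [Real.norm_eq_abs, abs_of_nonneg (Finset.prod_nonneg fun c _ => kern_nonneg ε hε _ _)]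
  have h1 : ∀ c ∈ (univ : Finset κ), kern ε (∑ e, (P c false e : ℝ) * x e + ξ c false)
      (∑ e, (P c true e : ℝ) * x e + ξ c true) ≤ (10 * ε⁻¹) *
      Real.exp (-(9 / 20 * ((∑ e, (P c false e : ℝ) * x e + ξ c false) +
        (∑ e, (P c true e : ℝ) * x e + ξ c true)))) := by
    intro c _
    refine (kern_exp9 ε hε hε2 _ _ (hp c false) (hp c true)).trans ?_
    refine (mul_le_mul_of_nonneg_left (corr_le ε hε _) (by positivity)).trans (le_of_eq ?_)
    ring
  refine (Finset.prod_le_prod (fun c _ => kern_nonneg ε hε _ _) h1).trans ?_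
  rw [Finset.prod_mul_distrib, Finset.prod_const, ← Real.exp_sum, Finset.card_univ]
  refine mul_le_mul_of_nonneg_left (Real.exp_le_exp.2 ?_) (by positivity)
  rw [Finset.sum_neg_distrib, ← Finset.mul_sum]
  refine neg_le_neg (mul_le_mul_of_nonneg_left ?_ (by norm_num))
  have h2 : ∑ e, x e ≤ ∑ e, (∑ c, ((P c false e : ℝ) + (P c true e : ℝ))) * x e := by
    refine Finset.sum_le_sum fun e _ => ?_
    have h3 : (1:ℝ) ≤ ∑ c, ((P c false e : ℝ) + (P c true e : ℝ)) := by
      obtain ⟨c, b, hcb⟩ := hcol e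
      have h4 : (1:ℝ) ≤ (P c false e : ℝ) + (P c true e : ℝ) := by
        have h5 : 1 ≤ P c false e + P c true e := by
          cases b
          · omega
          · omega
        exact_mod_cast h5
      refine h4.trans (Finset.single_le_sum (f := fun c => (P c false e : ℝ) + (P c true e : ℝ))
        (fun c _ => by positivity) (Finset.mem_univ c))
    calc x e = 1 * x e := (one_mul _).symm
      _ ≤ _ := mul_le_mul_of_nonneg_right h3 (hx0 e)
  refine h2.trans ?_
  have h6 : ∑ e, (∑ c, ((P c false e : ℝ) + (P c true e : ℝ))) * x e =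
      ∑ c, ((∑ e, (P c false e : ℝ) * x e) + (∑ e, (P c true e : ℝ) * x e)) := by
    simp_rw [Finset.sum_mul]
    rw [Finset.sum_comm]
    refine Finset.sum_congr rfl fun c _ => ?_
    rw [← Finset.sum_add_distrib]
    refine Finset.sum_congr rfl fun e _ => by ring
  rw [h6]
  refine Finset.sum_le_sum fun c _ => ?_
  have h7 := hξ c false
  have h8 := hξ c true
  linarith

theorem AM_good {ι κ : Type} [Fintype ι] [Fintype κ] [DecidableEq κ] (P : κ → Bool → ι → ℕ)
    (hu : ∃ u : ι → ℝ, (∀ e, 0 < u e) ∧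
      ∀ c, ∑ e, (P c false e : ℝ) * u e = ∑ e, (P c true e : ℝ) * u e)
    (hs : ∀ c b, ∃ z : ι → ℝ, ∀ c' b', ∑ e, (P c' b' e : ℝ) * z e =
      if c' = c ∧ b' = b then 1 else 0)
    (hcol : ∀ e, ∃ c b, 0 < P c b e) :
    ∃ C : ℝ, 0 ≤ C ∧ ∀ ε : ℝ, 0 < ε → ε ≤ 1 / 2 → ∀ (ξ : κ → Bool → ℝ) (M : ℝ),
      (∀ c b, 0 ≤ ξ c b ∧ ξ c b ≤ M) → AM P ε ξ ≤ Real.exp (C * M) * AM P ε 0 := by
  obtain ⟨u, hu0, hu⟩ := hu
  choose z hz using hs
  set C0 : ℝ := ∑ c, ∑ b, ∑ e, |z c b e| with hC0
  set C1 : ℝ := C0 * ∑ e, (u e)⁻¹ with hC1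
  have hC0n : 0 ≤ C0 := by
    rw [hC0]
    exact Finset.sum_nonneg fun c _ => Finset.sum_nonneg fun b _ =>
      Finset.sum_nonneg fun e _ => abs_nonneg _
  have hC1n : 0 ≤ C1 := mul_nonneg hC0n (Finset.sum_nonneg fun e _ => (inv_pos.2 (hu0 e)).le)
  have hC1u : ∀ e, C0 ≤ C1 * u e := by
    intro e
    have h1 : (u e)⁻¹ ≤ ∑ e, (u e)⁻¹ :=
      Finset.single_le_sum (f := fun e => (u e)⁻¹) (fun e _ => (inv_pos.2 (hu0 e)).le)
        (Finset.mem_univ e)
    calc C0 = C0 * (u e)⁻¹ * u e := by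
          rw [mul_assoc, inv_mul_cancel₀ (hu0 e).ne', mul_one]
      _ ≤ C0 * (∑ e, (u e)⁻¹) * u e :=
          mul_le_mul_of_nonneg_right (mul_le_mul_of_nonneg_left h1 hC0n) (hu0 e).le
      _ = C1 * u e := by rw [hC1]
  set pu : κ → ℝ := fun c => ∑ e, (P c false e : ℝ) * u e with hpu
  have hpun : ∀ c, 0 ≤ pu c := fun c =>
    Finset.sum_nonneg fun e _ => mul_nonneg (Nat.cast_nonneg _) (hu0 e).le
  refine ⟨C1 * ∑ c, pu c, mul_nonneg hC1n (Finset.sum_nonneg fun c _ => hpun c), ?_⟩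
  intro ε hε hε2 ξ M hξ
  rcases isEmpty_or_nonempty κ with hκ | hκ
  · have h1 : ξ = 0 := by
      funext c
      exact hκ.elim c
    have h2 : ∑ c, pu c = 0 := by
      rw [Finset.univ_eq_empty, Finset.sum_empty]
    rw [h1, h2, mul_zero, zero_mul, Real.exp_zero, one_mul]
  · obtain ⟨c0⟩ := hκ
    have hM : 0 ≤ M := (hξ c0 false).1.trans (hξ c0 false).2
    set η : κ → ℝ := fun c => C1 * M * pu c with hη
    have hηn : ∀ c, 0 ≤ η c := fun c => mul_nonneg (mul_nonneg hC1n hM) (hpun c)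
    set v : ι → ℝ := fun e => (∑ c, ∑ b, ξ c b * z c b e) + C1 * M * u e with hv
    have hvn : ∀ e, 0 ≤ v e := by
      intro e
      have h1 : |∑ c, ∑ b, ξ c b * z c b e| ≤ M * C0 := by
        refine (Finset.abs_sum_le_sum_abs _ _).trans ?_
        rw [hC0, Finset.mul_sum]
        refine Finset.sum_le_sum fun c _ => ?_
        refine (Finset.abs_sum_le_sum_abs _ _).trans ?_
        rw [Finset.mul_sum]
        refine Finset.sum_le_sum fun b _ => ?_
        rw [abs_mul, abs_of_nonneg (hξ c b).1]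
        refine mul_le_mul (hξ c b).2 ?_ (abs_nonneg _) hM
        exact Finset.single_le_sum (f := fun e => |z c b e|) (fun e _ => abs_nonneg _)
          (Finset.mem_univ e)
      have h2 : M * C0 ≤ C1 * M * u e := by
        have := mul_le_mul_of_nonneg_left (hC1u e) hM
        linarith
      have h3 := (abs_le.1 h1).1
      show 0 ≤ (∑ c, ∑ b, ξ c b * z c b e) + C1 * M * u e
      linarith
    have hpv : ∀ c b, ∑ e, (P c b e : ℝ) * v e = ξ c b + η c := by
      intro c b
      have h1 : ∑ e, (P c b e : ℝ) * u e = pu c := by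
        cases b
        · rfl
        · exact (hu c).symm
      have h2 : ∑ e, (P c b e : ℝ) * (∑ c', ∑ b', ξ c' b' * z c' b' e) = ξ c b := by
        have h3 : ∀ e, (P c b e : ℝ) * (∑ c', ∑ b', ξ c' b' * z c' b' e) =
            ∑ c', ∑ b', ξ c' b' * ((P c b e : ℝ) * z c' b' e) := by
          intro e
          rw [Finset.mul_sum]
          refine Finset.sum_congr rfl fun c' _ => ?_
          rw [Finset.mul_sum]
          refine Finset.sum_congr rfl fun b' _ => by ring
        simp_rw [h3]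
        rw [Finset.sum_comm]
        have h4 : ∀ c', ∑ e, ∑ b', ξ c' b' * ((P c b e : ℝ) * z c' b' e) =
            ∑ b', ξ c' b' * (if c = c' ∧ b = b' then 1 else 0) := by
          intro c'
          rw [Finset.sum_comm]
          refine Finset.sum_congr rfl fun b' _ => ?_
          rw [← Finset.mul_sum, hz]
        simp_rw [h4]
        rw [Finset.sum_eq_single c]
        · rw [Finset.sum_eq_single b]
          · simp
          · intro b' _ hb'
            rw [if_neg (fun h => hb' h.2.symm), mul_zero]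
          · intro h
            exact absurd (Finset.mem_univ _) h
        · intro c' _ hc'
          refine Finset.sum_eq_zero fun b' _ => ?_
          rw [if_neg (fun h => hc' h.1.symm), mul_zero]
        · intro h
          exact absurd (Finset.mem_univ _) h
      calc ∑ e, (P c b e : ℝ) * v e = ∑ e, (P c b e : ℝ) * (∑ c', ∑ b', ξ c' b' * z c' b' e) +
            C1 * M * ∑ e, (P c b e : ℝ) * u e := by
            rw [Finset.mul_sum, ← Finset.sum_add_distrib]
            refine Finset.sum_congr rfl fun e _ => ?_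
            simp only [hv]
            ring
        _ = ξ c b + η c := by rw [h1, h2]
    have hint0 := AM_integrableOn P hcol ε hε hε2 0 (fun _ _ => le_rfl)
    have hintξ := AM_integrableOn P hcol ε hε hε2 ξ (fun c b => (hξ c b).1)
    have hint1 := AM_integrableOn P hcol ε hε hε2 (fun c b => ξ c b + η c)
      (fun c b => add_nonneg (hξ c b).1 (hηn c))
    have step1 : AM P ε ξ ≤ Real.exp (∑ c, η c) * AM P ε (fun c b => ξ c b + η c) := by
      unfold AM
      rw [← integral_const_mul]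
      refine setIntegral_mono_on hintξ (hint1.const_mul _) gm_meas0 fun x _ => ?_
      rw [Real.exp_sum, ← Finset.prod_mul_distrib]
      refine Finset.prod_le_prod (fun c _ => kern_nonneg ε hε _ _) fun c _ => ?_
      have h1 := kern_shift ε hε (∑ e, (P c false e : ℝ) * x e + (ξ c false + η c))
        (∑ e, (P c true e : ℝ) * x e + (ξ c true + η c)) (η c) (hηn c)
      have h2 : ∀ b, ∑ e, (P c b e : ℝ) * x e + (ξ c b + η c) - η c =
          ∑ e, (P c b e : ℝ) * x e + ξ c b := fun b => by ring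
      rw [h2, h2] at h1
      exact h1
    have step2 : AM P ε (fun c b => ξ c b + η c) =
        ∫ x in {x : ι → ℝ | ∀ e, v e < x e},
          ∏ c : κ, kern ε (∑ e, (P c false e : ℝ) * x e + (0 : κ → Bool → ℝ) c false)
            (∑ e, (P c true e : ℝ) * x e + (0 : κ → Bool → ℝ) c true) := by
      rw [← (measurePreserving_add_right (volume : Measure (ι → ℝ)) v).setIntegral_preimage_emb
        (measurableEmbedding_addRight v)]
      have hset : (fun x : ι → ℝ => x + v) ⁻¹' {x : ι → ℝ | ∀ e, v e < x e} =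
          {x : ι → ℝ | ∀ e, 0 < x e} := by
        ext x
        simp only [Set.mem_preimage, Set.mem_ofPred_eq, Pi.add_apply]
        exact forall_congr' fun e => ⟨fun h => by linarith, fun h => by linarith⟩
      rw [hset]
      unfold AM
      refine setIntegral_congr_fun gm_meas0 fun x _ => ?_
      refine Finset.prod_congr rfl fun c _ => ?_
      have h2 : ∀ b, ∑ e, (P c b e : ℝ) * (x + v) e + (0 : κ → Bool → ℝ) c b =
          ∑ e, (P c b e : ℝ) * x e + (ξ c b + η c) := by
        intro b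
        rw [← hpv c b, ← Finset.sum_add_distrib]
        simp only [Pi.add_apply, Pi.zero_apply, add_zero]
        refine Finset.sum_congr rfl fun e _ => by ring
      rw [h2, h2]
    have step3 : AM P ε (fun c b => ξ c b + η c) ≤ AM P ε 0 := by
      rw [step2]
      unfold AM
      refine setIntegral_mono_set hint0 ?_ ?_
      · refine Filter.Eventually.of_forall fun x => ?_
        exact Finset.prod_nonneg fun c _ => kern_nonneg ε hε _ _
      · refine Filter.Eventually.of_forall fun x hx e => ?_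
        exact lt_of_le_of_lt (hvn e) (hx e)
    have h9 : ∑ c, η c = C1 * (∑ c, pu c) * M := by
      rw [hη, ← Finset.mul_sum]
      ring
    rw [← h9]
    exact step1.trans (mul_le_mul_of_nonneg_left step3 (Real.exp_pos _).le)

theorem A_good {H : Type} [Fintype H] {σ : Equiv.Perm H} (hσ : AllOdd σ) (R : Conf σ)
    (hg : R.Good) : ∃ C : ℝ, 0 ≤ C ∧ ∀ ε : ℝ, 0 < ε → ε ≤ 1 / 2 → ∀ (ξ : R.Face → ℝ) (M : ℝ),
      (∀ f, 0 ≤ ξ f ∧ ξ f ≤ M) → R.A ε ξ ≤ Real.exp (C * M) * R.A ε 0 := by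
  have k1 : ∃ u : R.Edge → ℝ, (∀ e, 0 < u e) ∧
      ∀ c, ∑ e, (R.P c false e : ℝ) * u e = ∑ e, (R.P c true e : ℝ) * u e := by
    obtain ⟨u, hu, hb⟩ := hg
    refine ⟨fun e => (u e : ℝ), fun e => Nat.cast_pos.2 (hu e), fun c => ?_⟩
    have h1 : ∑ e, R.P c false e * u e = ∑ e, R.P c true e * u e := by
      rw [sum_P_nat, sum_P_nat]
      exact hb c.rep
    show ∑ e, (R.P c false e : ℝ) * (u e : ℝ) = ∑ e, (R.P c true e : ℝ) * (u e : ℝ)
    exact_mod_cast h1
  have k2 : ∀ c b, ∃ z : R.Edge → ℝ, ∀ c' b', ∑ e, (R.P c' b' e : ℝ) * z e =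
      if c' = c ∧ b' = b then 1 else 0 := by
    intro c b
    obtain ⟨z, hz⟩ := P_two R hσ (R.cface c b)
    refine ⟨fun e => (z e : ℝ) / 2, fun c' b' => ?_⟩
    have h1 : ∑ e, (R.P c' b' e : ℝ) * ((z e : ℝ) / 2) =
        (∑ e, (R.P c' b' e : ℝ) * (z e : ℝ)) / 2 := by
      rw [Finset.sum_div]
      refine Finset.sum_congr rfl fun e _ => by ring
    have h2 : R.per (fun e => (z e : ℝ)) (R.cface c' b') =
        ((R.per z (R.cface c' b') : ℤ) : ℝ) := by
      unfold Conf.per
      push_cast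
      rfl
    rw [h1, sum_P, h2, hz]
    have hinj := (cface_bij R).1
    by_cases h : c' = c ∧ b' = b
    · obtain ⟨rfl, rfl⟩ := h
      simp
    · have h3 : R.cface c' b' ≠ R.cface c b := by
        intro h4
        apply h
        have h5 := @hinj (c', b') (c, b) h4
        exact Prod.mk.inj h5
      rw [if_neg h, if_neg h3]
      simp
  have k3 : ∀ e, ∃ c b, 0 < R.P c b e := by
    intro e
    have h1 := P_col R e
    by_contra hcon
    push Not at hcon
    have h2 : ∑ c, (R.P c false e + R.P c true e) = 0 := by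
      refine Finset.sum_eq_zero fun c _ => ?_
      have h3 := hcon c false
      have h4 := hcon c true
      omega
    omega
  obtain ⟨C, hC, hA⟩ := AM_good R.P k1 k2 k3
  refine ⟨C, hC, fun ε hε hε2 ξ M hξ => ?_⟩
  exact hA ε hε hε2 (fun c b => ξ (R.cface c b)) M (fun c b => hξ (R.cface c b))

end Pool.Agent.Helper62.MVC2
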