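import Pool.Agent.Helper62.MVC2.Surg

/-!
MV-C2-9. The embeddings `jT`, `jR`: injective, disjoint ranges, covering; injectivity of the surgery.

Facts: `(rot K ^ n) x = ⟨x.1, (x.2 + n) mod K x.1⟩` (induction on `n`, `finRotate` adds one modulo `K i`), so for `n, n' < K x.1`:
`(rot K ^ n) x = (rot K ^ n') x ↔ n = n'`, and every element of the fibre over `x.1` is `(rot K ^ n) x` for one `n < K x.1`.
`jT` uses the exponents `0` (the half-edge `(false, 0)`) and `1, ..., 2m+1`; `jR` uses the exponents `2m+2, ..., K x.1 - 1` on the fibre over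
`x.1` (`red K x.1 m x.1 = K x.1 - (2m+2)`) and is the identity on the other fibres.
`surg_inj`: `conf_ext`-style argument (`Pool.Agent.Helper62.MVC2.EmbL` may be imported for `conf_ext`): `R.τ = R'.τ` by `jcover`, `tauT`, `tauR`.
For `β`: every face of `R` is `R.face (jT h)` with `h.1 = true` or `R.face (jR h)` (for `x = jT (legHalf m)` use `facex`), the same for `R'`; note
that `R.face` depends only on `R.τ`, so after substituting `R.τ = R'.τ` both configurations have the same face map. Faces of the two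
kinds are different (`disj`), `betaT`, `betaR` determine `β` within each kind (each face of `T` contains a half-edge `(true, s)` by `faceTx`:
`T.τ (legHalf m)` is different from `legHalf m`, so it is of the form `(true, s)`), and the partner of a face of one kind is of the same kind.
-/

namespace Pool.Agent.Helper62.MVC2

open Finset Pool.Agent.Helper60.MV

private theorem finRotate_val (N : ℕ) (a : Fin N) :
    ((finRotate N a : Fin N) : ℕ) = ((a : ℕ) + 1) % N := by
  cases N with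
  | zero => exact a.elim0
  | succ k =>
    rw [finRotate_apply, Fin.val_add]
    rcases Nat.eq_zero_or_pos k with rfl | hk
    · simp
    · rw [Fin.val_one', Nat.add_mod_mod]

private theorem rot_apply {ρ : Type} (K : ρ → ℕ) (y : HK K) :
    rot K y = ⟨y.1, finRotate (K y.1) y.2⟩ := rfl

private theorem rot_pow_fst {ρ : Type} (K : ρ → ℕ) (x : HK K) (n : ℕ) :
    ((rot K ^ n) x).1 = x.1 := by
  induction n with
  | zero => rfl
  | succ n ih => rw [pow_succ', Equiv.Perm.mul_apply, rot_apply]; exact ih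

private theorem rot_pow_snd {ρ : Type} (K : ρ → ℕ) (x : HK K) (n : ℕ) :
    (((rot K ^ n) x).2 : ℕ) = ((x.2 : ℕ) + n) % K x.1 := by
  induction n with
  | zero => exact (Nat.mod_eq_of_lt x.2.isLt).symm
  | succ n ih =>
    rw [pow_succ', Equiv.Perm.mul_apply, rot_apply]
    show ((finRotate (K ((rot K ^ n) x).1) ((rot K ^ n) x).2 : Fin _) : ℕ) = _
    rw [finRotate_val, ih, rot_pow_fst, Nat.mod_add_mod, Nat.add_assoc]

private theorem hk_ext {ρ : Type} {K : ρ → ℕ} {y z : HK K} (h1 : y.1 = z.1)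
    (h2 : (y.2 : ℕ) = (z.2 : ℕ)) : y = z := by
  obtain ⟨i, a⟩ := y
  obtain ⟨j, b⟩ := z
  simp only at h1
  subst h1
  have : a = b := Fin.ext h2
  rw [this]

private theorem rot_pow_inj {ρ : Type} (K : ρ → ℕ) (x : HK K) {n n' : ℕ} (hn : n < K x.1)
    (hn' : n' < K x.1) (h : (rot K ^ n) x = (rot K ^ n') x) : n = n' := by
  have h1 : (((rot K ^ n) x).2 : ℕ) = (((rot K ^ n') x).2 : ℕ) := by rw [h]
  rw [rot_pow_snd, rot_pow_snd] at h1
  have h2 : n % K x.1 = n' % K x.1 := Nat.ModEq.add_left_cancel' (x.2 : ℕ) h1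
  rwa [Nat.mod_eq_of_lt hn, Nat.mod_eq_of_lt hn'] at h2

private theorem rot_pow_surj {ρ : Type} (K : ρ → ℕ) (x y : HK K) (h : y.1 = x.1) :
    ∃ n, n < K x.1 ∧ (rot K ^ n) x = y := by
  have hN : 0 < K x.1 := lt_of_le_of_lt (Nat.zero_le _) x.2.isLt
  have hy : (y.2 : ℕ) < K x.1 := lt_of_lt_of_eq y.2.isLt (congrArg K h)
  have hx := x.2.isLt
  refine ⟨((y.2 : ℕ) + (K x.1 - (x.2 : ℕ))) % K x.1, Nat.mod_lt _ hN, ?_⟩
  refine hk_ext ((rot_pow_fst K x _).trans h.symm) ?_
  rw [rot_pow_snd, Nat.add_mod_mod]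
  have : (x.2 : ℕ) + ((y.2 : ℕ) + (K x.1 - (x.2 : ℕ))) = (y.2 : ℕ) + K x.1 := by omega
  rw [this, Nat.add_mod_right, Nat.mod_eq_of_lt hy]

/-- the exponent of `jT` -/
private def eT {m : ℕ} (h : HK (leg m)) : ℕ := if h.1 = true then (h.2 : ℕ) + 1 else 0

private theorem jT_eq {ρ : Type} (K : ρ → ℕ) (x : HK K) (m : ℕ) (h : HK (leg m)) :
    jT K x m h = (rot K ^ (eT h)) x := by
  unfold jT eT
  split_ifs <;> rfl

private theorem eT_lt {m : ℕ} (h : HK (leg m)) : eT h < 2 * m + 2 := by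
  unfold eT
  split_ifs with h1
  · have h2 := h.2.isLt
    have h3 : leg m h.1 = 2 * m + 1 := by rw [h1]; rfl
    omega
  · omega

private theorem eT_inj {m : ℕ} {h h' : HK (leg m)} (hh : eT h = eT h') : h = h' := by
  obtain ⟨b, s⟩ := h
  obtain ⟨b', s'⟩ := h'
  cases b <;> cases b'
  · refine hk_ext rfl ?_
    have h1 : (s : ℕ) < 1 := s.isLt
    have h2 : (s' : ℕ) < 1 := s'.isLt
    show (s : ℕ) = (s' : ℕ)
    omega
  · simp [eT] at hh
  · simp [eT] at hh
  · refine hk_ext rfl ?_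
    simpa [eT] using hh

private theorem jR_of_eq {ρ : Type} (K : ρ → ℕ) (x : HK K) (m : ℕ) (h : HK (red K x.1 m))
    (hi : h.1 = x.1) : jR K x m h = (rot K ^ (2 * m + 2 + (h.2 : ℕ))) x := by
  unfold jR
  rw [dif_pos hi]

private theorem jR_fst {ρ : Type} (K : ρ → ℕ) (x : HK K) (m : ℕ) (h : HK (red K x.1 m)) :
    (jR K x m h).1 = h.1 := by
  by_cases hi : h.1 = x.1
  · rw [jR_of_eq K x m h hi, rot_pow_fst, hi]
  · unfold jR
    rw [dif_neg hi]

private theorem jR_snd {ρ : Type} (K : ρ → ℕ) (x : HK K) (m : ℕ) (h : HK (red K x.1 m))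
    (hi : h.1 ≠ x.1) : ((jR K x m h).2 : ℕ) = (h.2 : ℕ) := by
  unfold jR
  rw [dif_neg hi]

private theorem red_self {ρ : Type} (K : ρ → ℕ) (i : ρ) (m : ℕ) :
    red K i m i = K i - (2 * m + 2) := by
  simp [red]

private theorem red_ne {ρ : Type} (K : ρ → ℕ) {i j : ρ} (hij : j ≠ i) (m : ℕ) :
    red K i m j = K j := by
  simp [red, hij]

private theorem eR_lt {ρ : Type} (K : ρ → ℕ) (x : HK K) (m : ℕ)
    (h : HK (red K x.1 m)) (hi : h.1 = x.1) : 2 * m + 2 + (h.2 : ℕ) < K x.1 := by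
  have h1 := h.2.isLt
  have h2 : red K x.1 m h.1 = K x.1 - (2 * m + 2) := by rw [hi, red_self]
  omega

theorem jT_inj {ρ : Type} (K : ρ → ℕ) (x : HK K) (m : ℕ) (hm : 2 * m + 2 < K x.1) :
    Function.Injective (jT K x m) := by
  intro h h' hh
  rw [jT_eq, jT_eq] at hh
  exact eT_inj (rot_pow_inj K x ((eT_lt h).trans hm) ((eT_lt h').trans hm) hh)

theorem jR_inj {ρ : Type} (K : ρ → ℕ) (x : HK K) (m : ℕ) (hm : 2 * m + 2 < K x.1) :
    Function.Injective (jR K x m) := by
  intro h h' hh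
  have h1 : h.1 = h'.1 := by rw [← jR_fst K x m h, ← jR_fst K x m h', hh]
  refine hk_ext h1 ?_
  by_cases hi : h.1 = x.1
  · have hi' : h'.1 = x.1 := h1 ▸ hi
    rw [jR_of_eq K x m h hi, jR_of_eq K x m h' hi'] at hh
    have := rot_pow_inj K x (eR_lt K x m h hi) (eR_lt K x m h' hi') hh
    omega
  · have hi' : h'.1 ≠ x.1 := h1 ▸ hi
    rw [← jR_snd K x m h hi, ← jR_snd K x m h' hi', hh]

theorem jTR_disj {ρ : Type} (K : ρ → ℕ) (x : HK K) (m : ℕ) (hm : 2 * m + 2 < K x.1)
    (h : HK (leg m)) (h' : HK (red K x.1 m)) : jT K x m h ≠ jR K x m h' := by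
  intro hh
  have h1 : h'.1 = x.1 := by
    rw [← jR_fst K x m h', ← hh, jT_eq, rot_pow_fst]
  rw [jT_eq, jR_of_eq K x m h' h1] at hh
  have := rot_pow_inj K x ((eT_lt h).trans hm) (eR_lt K x m h' h1) hh
  have := eT_lt h
  omega

theorem jcover {ρ : Type} (K : ρ → ℕ) (x : HK K) (m : ℕ) (hm : 2 * m + 2 < K x.1) (h : HK K) :
    (∃ h', jT K x m h' = h) ∨ ∃ h', jR K x m h' = h := by
  by_cases hi : h.1 = x.1
  · obtain ⟨n, hn, rfl⟩ := rot_pow_surj K x h hi
    rcases Nat.eq_zero_or_pos n with rfl | hn0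
    · left
      exact ⟨legHalf m, by rw [jT_eq]; rfl⟩
    · by_cases hnm : n < 2 * m + 2
      · left
        refine ⟨⟨true, ⟨n - 1, ?_⟩⟩, ?_⟩
        · show n - 1 < 2 * m + 1
          omega
        · rw [jT_eq]
          have : eT (⟨true, ⟨n - 1, by show n - 1 < 2 * m + 1; omega⟩⟩ : HK (leg m)) = n := by
            simp only [eT, if_true]
            omega
          rw [this]
      · right
        have hlt : n - (2 * m + 2) < red K x.1 m x.1 := by
          rw [red_self]; omega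
        refine ⟨⟨x.1, ⟨n - (2 * m + 2), hlt⟩⟩, ?_⟩
        rw [jR_of_eq K x m _ rfl]
        have : 2 * m + 2 + (n - (2 * m + 2)) = n := by omega
        simp only [this]
  · right
    have hlt : (h.2 : ℕ) < red K x.1 m h.1 := by
      rw [red_ne K hi]
      exact h.2.isLt
    refine ⟨⟨h.1, ⟨(h.2 : ℕ), hlt⟩⟩, ?_⟩
    exact hk_ext (jR_fst K x m _) (jR_snd K x m _ hi)

theorem jT_leg {ρ : Type} (K : ρ → ℕ) (x : HK K) (m : ℕ) : jT K x m (legHalf m) = x := by
  rw [jT_eq]
  rfl

theorem eq_leg_of_false (m : ℕ) (h : HK (leg m)) (hh : h.1 = false) : h = legHalf m := by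
  obtain ⟨b, s⟩ := h
  simp only at hh
  subst hh
  refine hk_ext rfl ?_
  have h1 : (s : ℕ) < 1 := s.isLt
  show (s : ℕ) = 0
  omega

theorem surg_inj {ρ : Type} (K : ρ → ℕ) (x : HK K) (m : ℕ) (hm : 2 * m + 2 < K x.1)
    (T : Conf (rot (leg m))) (R₁ : Conf (rot (red K x.1 m))) (R R' : Conf (rot K))
    (h : Surg R x m T R₁) (h' : Surg R' x m T R₁) : R = R' := by
  have hτ : R.τ = R'.τ := by
    refine Equiv.ext fun k => ?_
    rcases jcover K x m hm k with ⟨p, rfl⟩ | ⟨q, rfl⟩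
    · rw [h.tauT, h'.tauT]
    · rw [h.tauR, h'.tauR]
  obtain ⟨τ, hτ1, β, hβ⟩ := R
  obtain ⟨τ', hτ1', β', hβ'⟩ := R'
  simp only at hτ
  subst hτ
  have hβe : β = β' := by
    refine Equiv.ext fun f => ?_
    obtain ⟨k, rfl⟩ := Quotient.exists_rep f
    have hR : ∀ q, β (cyc (rot K * τ) (jR K x m q)) = β' (cyc (rot K * τ) (jR K x m q)) := by
      intro q
      obtain ⟨q1, hq1⟩ := Quotient.exists_rep (R₁.β (R₁.face q))
      have e1 := (h.betaR q q1).2 hq1.symm
      have e2 := (h'.betaR q q1).2 hq1.symm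
      exact e1.trans e2.symm
    rcases jcover K x m hm k with ⟨p, rfl⟩ | ⟨q, rfl⟩
    · by_cases hp : p.1 = true
      · obtain ⟨p1, hp1⟩ := Quotient.exists_rep (T.β (T.face p))
        obtain ⟨p2, hp2, hp2'⟩ : ∃ p2 : HK (leg m), p2.1 = true ∧
            T.β (T.face p) = T.face p2 := by
          by_cases hb : p1.1 = true
          · exact ⟨p1, hb, hp1.symm⟩
          · have hleg := eq_leg_of_false m p1 (by simpa using hb)
            refine ⟨T.τ (legHalf m), ?_, ?_⟩
            · by_contra hcon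
              exact T.hτ.fpf (legHalf m) (eq_leg_of_false m _ (by simpa using hcon))
            · rw [← h.faceTx, ← hleg]
              exact hp1.symm
        have e1 := (h.betaT p p2 hp hp2).2 hp2'
        have e2 := (h'.betaT p p2 hp hp2).2 hp2'
        exact e1.trans e2.symm
      · have hleg := eq_leg_of_false m p (by simpa using hp)
        rw [hleg, jT_leg]
        obtain ⟨q, hq⟩ := h.facex
        have hq' : cyc (rot K * τ) x = cyc (rot K * τ) (jR K x m q) := hq
        show β (cyc (rot K * τ) x) = β' (cyc (rot K * τ) x)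
        rw [hq']
        exact hR q
    · exact hR q
  subst hβe
  rfl

end Pool.Agent.Helper62.MVC2
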