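import Pool.Agent.Helper62.MVC2.SurgC
import Pool.Agent.Helper60.MV.B.Asm

/-!
MV-C2-14. The sum over the connected configurations with a leaf.

`SurgH K` is the output of block C1 (theorem `surgery`).
Proof of `leaf_bound` (for a fixed `ε`). For each connected `R` with a leaf choose `x, m, μ, T, R₁` by `hsurg`; `D(R) = (x, m, T, R₁)` is injective
(`surg_inj`). By `surg_A` (`ξ R` vanishes on the faces `R.face (jT h)`, `h.1 = true`: such a face is a leaf face since `μ (jT h) ≠ 0`) there are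
`l ∈ [0, 2Eε]` (`2E = card (HK K)`) and `ξ₁` with `R.A ε (ξ R) ≤ 2 * T.A ε 0 * R₁.A ε ξ₁`; `0 ≤ ξ₁ ≤ (C + card (HK K)) ε`, and `ξ₁` vanishes on
the leaf faces of `R₁` (last clause of `SurgH`, the leaf face of `R₁` is `R₁.face h`; the `if` is zero). For fixed `x, m, T` define for `R₁`
`ξ^{x,m,T} R₁ :=` the `ξ₁` of `R` if `D(R) = (x,m,T,R₁)` for some `R`, else `0`. By `hUB` for `red K x.1 m`, the sum over the connected `R₁` of
`R₁.A ε (ξ^{x,m,T} R₁)` is at most `B' x.1 m`. Since all `A ≥ 0` (`A_nonneg`):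
`∑_R R.A ε (ξ R) ≤ ∑_x ∑_m ∑_T 2 T.A ε 0 B' x.1 m = ∑_x ∑_m 2 ZZ (rot (leg m)) ε B' x.1 m` and `∑_x F x.1 = ∑_i K i F i`.
(Organise the sum with `Finset.sum_le_sum_of_injOn`-like steps: `∑_{R ∈ s} f R = ∑_{d ∈ s.image D} g d ≤ ∑_{d}` over the finite sigma type.)
`leaf_eventually`: given `δ`, choose `δ' > 0` with `∑_i ∑_m K i (2 (Ypoly (leg m) + δ')) (B i m + δ') ≤ leafSum K B + δ` (continuity in `δ'`); for small `ε`:
`ZZ (rot (leg m)) ε ≤ Ypoly (leg m) + δ'` (`hP`) and the hypothesis `hUB` of `leaf_bound` holds with `B' = B i m + δ'` (definition of `UB`), for the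
finitely many `(i, m)`. (`UB (red K i m) (B i m)` with constant `C + card (HK K)`.) Note `ZZ ≥ 0`, `B i m ≥ 0`.
-/

namespace Pool.Agent.Helper62.MVC2

open Finset MeasureTheory Filter Topology Pool.Agent.Helper60.MV

/-- the output of block C1 for the type `K` -/
def SurgH {ρ : Type} [Fintype ρ] (K : ρ → ℕ) : Prop :=
  ∀ R : Conf (rot K), R.Conn → (∃ x μ, R.IsLeaf x μ) →
    ∃ (x : HK K) (m : ℕ) (μ : HK K → ℤ) (T : Conf (rot (leg m))) (R₁ : Conf (rot (red K x.1 m))),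
      1 ≤ m ∧ 2 * m + 2 < K x.1 ∧ R.IsLeaf x μ ∧ (∀ h, |μ h| ≤ 1) ∧
      (∀ h, μ h ≠ 0 ↔ ∃ h', h'.1 = true ∧ jT K x m h' = h) ∧ Surg R x m T R₁ ∧ R₁.Conn ∧
      ∀ h, R₁.LeafFace (R₁.face h) →
        R.LeafFace (R.face (jR K x m h)) ∧ R.face (jR K x m h) ≠ R.face x

/-- the bound of the definition of `UBs` at a fixed `ε` -/
def UBat {H : Type} [Fintype H] (σ : Equiv.Perm H) (C ε B : ℝ) : Prop :=
  ∀ ξ : (R : Conf σ) → R.Face → ℝ,
    (∀ R f, 0 ≤ ξ R f ∧ ξ R f ≤ C * ε) → (∀ R f, R.LeafFace f → ξ R f = 0) →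
    (by classical exact ∑ R ∈ univ.filter (fun R : Conf σ => R.Conn), R.A ε (ξ R)) ≤ B

/-- the configurations with a given stem and size of the leaf -/
private theorem fixed_bound {ρ : Type} [Fintype ρ] (K : ρ → ℕ) (ε : ℝ) (hε : 0 < ε)
    (x : HK K) (m : ℕ) (hm : 2 * m + 2 < K x.1) (C' B' : ℝ)
    (hUB : UBat (rot (red K x.1 m)) C' ε B') (hC' : 0 ≤ C')
    (ξ : (R : Conf (rot K)) → R.Face → ℝ) (S' : Finset (Conf (rot K)))
    (hS : ∀ R ∈ S', ∃ (T : Conf (rot (leg m))) (Q : Conf (rot (red K x.1 m))) (v : Q.Face → ℝ),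
      Surg R x m T Q ∧ Q.Conn ∧ (∀ f, 0 ≤ v f ∧ v f ≤ C' * ε) ∧ (∀ f, Q.LeafFace f → v f = 0) ∧
      R.A ε (ξ R) ≤ 2 * T.A ε 0 * Q.A ε v) :
    ∑ R ∈ S', R.A ε (ξ R) ≤ 2 * ZZ (rot (leg m)) ε * B' := by
  classical
  have hS' : ∀ R : {R // R ∈ S'}, ∃ (T : Conf (rot (leg m)))
      (g : Σ Q : Conf (rot (red K x.1 m)), (Q.Face → ℝ)),
      Surg R.1 x m T g.1 ∧ g.1.Conn ∧ (∀ f, 0 ≤ g.2 f ∧ g.2 f ≤ C' * ε) ∧
      (∀ f, g.1.LeafFace f → g.2 f = 0) ∧ R.1.A ε (ξ R.1) ≤ 2 * T.A ε 0 * g.1.A ε g.2 := by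
    intro R
    obtain ⟨T, Q, v, h⟩ := hS R.1 R.2
    exact ⟨T, ⟨Q, v⟩, h⟩
  choose T g h1 h2 h3 h4 h5 using hS'
  -- the shifts
  let F : Conf (rot (leg m)) → Finset {R // R ∈ S'} := fun t => S'.attach.filter (fun R => T R = t)
  have hinj : ∀ t, ∀ R ∈ F t, ∀ R' ∈ F t, (g R).1 = (g R').1 → R = R' := by
    intro t R hR R' hR' hg
    have e1 := (mem_filter.mp hR).2
    have e2 := (mem_filter.mp hR').2
    have a1 := h1 R
    have a2 := h1 R'
    rw [e1] at a1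
    rw [e2, ← hg] at a2
    exact Subtype.ext (surg_inj K x m hm t (g R).1 R.1 R'.1 a1 a2)
  let w : (t : Conf (rot (leg m))) → (Q : Conf (rot (red K x.1 m))) → Q.Face → ℝ := fun t Q =>
    if h : ∃ v : Q.Face → ℝ, ∃ R ∈ F t, g R = ⟨Q, v⟩ then h.choose else 0
  have hw : ∀ t, ∀ R ∈ F t, w t (g R).1 = (g R).2 := by
    intro t R hR
    have hex : ∃ v : (g R).1.Face → ℝ, ∃ R' ∈ F t, g R' = ⟨(g R).1, v⟩ := ⟨(g R).2, R, hR, rfl⟩
    show (if h : ∃ v : (g R).1.Face → ℝ, ∃ R' ∈ F t, g R' = ⟨(g R).1, v⟩ then h.choose else 0) = _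
    rw [dif_pos hex]
    obtain ⟨R', hR', e⟩ := hex.choose_spec
    have e1 : (g R').1 = (g R).1 := by rw [e]
    have e2 : R' = R := hinj t R' hR' R hR e1
    subst e2
    have e3 : g R' = ⟨(g R').1, (g R').2⟩ := rfl
    have e4 := e.symm.trans e3
    exact eq_of_heq (Sigma.mk.inj e4).2
  have hwt : ∀ t, ∑ R ∈ F t, (g R).1.A ε (g R).2 ≤ B' := by
    intro t
    have hb := hUB (w t) (by
      intro Q f
      by_cases hex : ∃ v : Q.Face → ℝ, ∃ R ∈ F t, g R = ⟨Q, v⟩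
      · have e0 : w t Q = hex.choose := dif_pos hex
        obtain ⟨R', hR', e⟩ := hex.choose_spec
        have e1 := h3 R'
        rw [e] at e1
        rw [e0]
        exact e1 f
      · have e0 : w t Q = 0 := dif_neg hex
        rw [e0]
        exact ⟨le_refl _, mul_nonneg hC' hε.le⟩) (by
      intro Q f hf
      by_cases hex : ∃ v : Q.Face → ℝ, ∃ R ∈ F t, g R = ⟨Q, v⟩
      · have e0 : w t Q = hex.choose := dif_pos hex
        obtain ⟨R', hR', e⟩ := hex.choose_spec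
        have e1 := h4 R'
        rw [e] at e1
        rw [e0]
        exact e1 f hf
      · have e0 : w t Q = 0 := dif_neg hex
        rw [e0]
        rfl)
    refine le_trans ?_ hb
    have e1 : ∑ R ∈ F t, (g R).1.A ε (g R).2 = ∑ R ∈ F t, (g R).1.A ε (w t (g R).1) := by
      refine sum_congr rfl (fun R hR => ?_)
      rw [hw t R hR]
    rw [e1, ← sum_image (s := F t) (g := fun R => (g R).1) (f := fun Q => Q.A ε (w t Q))
      (fun R hR R' hR' e => hinj t R hR R' hR' e)]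
    refine sum_le_sum_of_subset_of_nonneg ?_ (fun Q _ _ => A_nonneg Q ε hε _)
    intro Q hQ
    obtain ⟨R, _, rfl⟩ := mem_image.mp hQ
    exact mem_filter.mpr ⟨mem_univ _, h2 R⟩
  calc ∑ R ∈ S', R.A ε (ξ R) = ∑ R ∈ S'.attach, R.1.A ε (ξ R.1) :=
        (sum_attach S' (fun R => R.A ε (ξ R))).symm
    _ ≤ ∑ R ∈ S'.attach, 2 * (T R).A ε 0 * (g R).1.A ε (g R).2 := sum_le_sum (fun R _ => h5 R)
    _ = ∑ t : Conf (rot (leg m)), ∑ R ∈ F t, 2 * (T R).A ε 0 * (g R).1.A ε (g R).2 :=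
        (sum_fiberwise (s := S'.attach) (g := T)
          (f := fun R => 2 * (T R).A ε 0 * (g R).1.A ε (g R).2)).symm
    _ = ∑ t : Conf (rot (leg m)), 2 * t.A ε 0 * ∑ R ∈ F t, (g R).1.A ε (g R).2 := by
        refine sum_congr rfl (fun t _ => ?_)
        rw [mul_sum]
        refine sum_congr rfl (fun R hR => ?_)
        rw [(mem_filter.mp hR).2]
    _ ≤ ∑ t : Conf (rot (leg m)), 2 * t.A ε 0 * B' := by
        refine sum_le_sum (fun t _ => mul_le_mul_of_nonneg_left (hwt t) ?_)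
        exact mul_nonneg (by norm_num) (A_nonneg t ε hε _)
    _ = 2 * ZZ (rot (leg m)) ε * B' := by
        unfold ZZ
        rw [mul_sum, sum_mul]

theorem leaf_bound {ρ : Type} [Fintype ρ] (K : ρ → ℕ) (hsurg : SurgH K) (ε : ℝ) (hε : 0 < ε)
    (hε2 : ε ≤ 1 / 2) (C : ℝ) (hC : 0 ≤ C) (B' : ρ → ℕ → ℝ)
    (hUB : ∀ i m, 1 ≤ m → 2 * m + 2 < K i →
      UBat (rot (red K i m)) (C + Fintype.card (HK K)) ε (B' i m))
    (ξ : (R : Conf (rot K)) → R.Face → ℝ) (hξ : ∀ R f, 0 ≤ ξ R f ∧ ξ R f ≤ C * ε)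
    (hξ0 : ∀ R f, R.LeafFace f → ξ R f = 0) :
    (by
      classical
      exact ∑ R ∈ univ.filter (fun R : Conf (rot K) => R.Conn ∧ ∃ x μ, R.IsLeaf x μ), R.A ε (ξ R)) ≤
    ∑ i, ∑ m ∈ (Finset.range (K i)).filter (fun m => 1 ≤ m ∧ 2 * m + 2 < K i),
      (K i : ℝ) * (2 * ZZ (rot (leg m)) ε) * B' i m := by
  classical
  set C' : ℝ := C + Fintype.card (HK K) with hC'def
  have hC' : 0 ≤ C' := by positivity
  let S : Finset (Conf (rot K)) := univ.filter (fun R => R.Conn ∧ ∃ x μ, R.IsLeaf x μ)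
  let Pr : (x : HK K) → ℕ → Conf (rot K) → Prop := fun x m R =>
    ∃ (T : Conf (rot (leg m))) (Q : Conf (rot (red K x.1 m))) (v : Q.Face → ℝ),
      Surg R x m T Q ∧ Q.Conn ∧ (∀ f, 0 ≤ v f ∧ v f ≤ C' * ε) ∧ (∀ f, Q.LeafFace f → v f = 0) ∧
      R.A ε (ξ R) ≤ 2 * T.A ε 0 * Q.A ε v
  have key : ∀ R ∈ S, ∃ (x : HK K) (m : ℕ), m ∈ (Finset.range (K x.1)).filter
      (fun m => 1 ≤ m ∧ 2 * m + 2 < K x.1) ∧ Pr x m R := by
    intro R hR
    obtain ⟨hc, hl⟩ := (mem_filter.mp hR).2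
    obtain ⟨x, m, μ, T, Q, hm1, hm2, hleaf, hμ1, hsupp, hsg, hQc, hlf⟩ := hsurg R hc hl
    have hz : ∀ h, h.1 = true → ξ R (R.face (jT K x m h)) = 0 := by
      intro h hh
      apply hξ0
      refine ⟨x, μ, hleaf, jT K x m h, rfl, ?_⟩
      exact (hsupp _).mpr ⟨h, hh, rfl⟩
    obtain ⟨l, hl0, hl1, v, hv, hA⟩ := surg_A K R x m hm2 μ T Q hleaf hμ1 hsg ε hε hε2 (ξ R)
      (fun f => (hξ R f).1) hz
    refine ⟨x, m, mem_filter.mpr ⟨mem_range.mpr (by omega), hm1, hm2⟩, T, Q, v, hsg, hQc, ?_, ?_,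
      hA⟩
    · intro f
      obtain ⟨h, rfl⟩ : ∃ h, Q.face h = f := Quotient.exists_rep f
      rw [hv h]
      have a := hξ R (R.face (jR K x m h))
      have hcard : C' * ε = C * ε + (Fintype.card (HK K) : ℝ) * ε := by rw [hC'def]; ring
      have hce : 0 ≤ (Fintype.card (HK K) : ℝ) * ε := by positivity
      split_ifs
      · constructor
        · linarith [a.1]
        · rw [hcard]; linarith [a.2]
      · constructor
        · linarith [a.1]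
        · rw [hcard]; linarith [a.2]
    · intro f hf
      obtain ⟨h, rfl⟩ : ∃ h, Q.face h = f := Quotient.exists_rep f
      obtain ⟨b1, b2⟩ := hlf h hf
      rw [hv h, if_neg b2, hξ0 R _ b1, add_zero]
  have step1 : ∑ R ∈ S, R.A ε (ξ R) ≤ ∑ x : HK K, ∑ m ∈ (Finset.range (K x.1)).filter
      (fun m => 1 ≤ m ∧ 2 * m + 2 < K x.1), ∑ R ∈ S.filter (fun R => Pr x m R), R.A ε (ξ R) := by
    have e1 : ∀ x : HK K, ∀ m : ℕ, ∑ R ∈ S.filter (fun R => Pr x m R), R.A ε (ξ R) =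
        ∑ R ∈ S, if Pr x m R then R.A ε (ξ R) else 0 := fun x m => sum_filter _ _
    simp only [e1]
    have e2 : ∀ x : HK K, ∑ m ∈ (Finset.range (K x.1)).filter
        (fun m => 1 ≤ m ∧ 2 * m + 2 < K x.1), ∑ R ∈ S, (if Pr x m R then R.A ε (ξ R) else 0) =
        ∑ R ∈ S, ∑ m ∈ (Finset.range (K x.1)).filter
        (fun m => 1 ≤ m ∧ 2 * m + 2 < K x.1), (if Pr x m R then R.A ε (ξ R) else 0) :=
      fun x => sum_comm
    simp only [e2]
    rw [sum_comm]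
    refine sum_le_sum (fun R hR => ?_)
    obtain ⟨x, m, hm, hPr⟩ := key R hR
    have nn : ∀ (x : HK K) (m : ℕ), 0 ≤ (if Pr x m R then R.A ε (ξ R) else 0) := by
      intro x m
      split_ifs
      · exact A_nonneg R ε hε _
      · exact le_refl _
    calc R.A ε (ξ R) = (if Pr x m R then R.A ε (ξ R) else 0) := by rw [if_pos hPr]
      _ ≤ ∑ m ∈ (Finset.range (K x.1)).filter (fun m => 1 ≤ m ∧ 2 * m + 2 < K x.1),
          (if Pr x m R then R.A ε (ξ R) else 0) :=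
        single_le_sum (f := fun m => (if Pr x m R then R.A ε (ξ R) else 0)) (fun m _ => nn x m) hm
      _ ≤ ∑ x : HK K, ∑ m ∈ (Finset.range (K x.1)).filter
          (fun m => 1 ≤ m ∧ 2 * m + 2 < K x.1), (if Pr x m R then R.A ε (ξ R) else 0) :=
        single_le_sum (f := fun x : HK K => ∑ m ∈ (Finset.range (K x.1)).filter
          (fun m => 1 ≤ m ∧ 2 * m + 2 < K x.1), (if Pr x m R then R.A ε (ξ R) else 0))
          (fun x _ => sum_nonneg (fun m _ => nn x m)) (mem_univ x)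
  have step2 : ∀ x : HK K, ∀ m ∈ (Finset.range (K x.1)).filter
      (fun m => 1 ≤ m ∧ 2 * m + 2 < K x.1), ∑ R ∈ S.filter (fun R => Pr x m R), R.A ε (ξ R) ≤
      2 * ZZ (rot (leg m)) ε * B' x.1 m := by
    intro x m hm
    obtain ⟨_, hm1, hm2⟩ := mem_filter.mp hm
    exact fixed_bound K ε hε x m hm2 C' (B' x.1 m) (hUB x.1 m hm1 hm2) hC' ξ _
      (fun R hR => (mem_filter.mp hR).2)
  have step3 : ∑ R ∈ S, R.A ε (ξ R) ≤ ∑ x : HK K, ∑ m ∈ (Finset.range (K x.1)).filter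
      (fun m => 1 ≤ m ∧ 2 * m + 2 < K x.1), 2 * ZZ (rot (leg m)) ε * B' x.1 m :=
    step1.trans (sum_le_sum (fun x _ => sum_le_sum (fun m hm => step2 x m hm)))
  refine step3.trans (le_of_eq ?_)
  rw [Fintype.sum_sigma]
  refine sum_congr rfl (fun i _ => ?_)
  simp only [sum_const, card_univ, Fintype.card_fin, nsmul_eq_mul]
  rw [mul_sum]
  refine sum_congr rfl (fun m _ => ?_)
  ring

theorem leaf_eventually {ρ : Type} [Fintype ρ] (K : ρ → ℕ) (hsurg : SurgH K)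
    (hP : ∀ m : ℕ, Tendsto (fun ε => ZZ (rot (leg m)) ε) (𝓝[>] (0:ℝ)) (𝓝 (Ypoly (leg m))))
    (B : ρ → ℕ → ℝ) (hB : ∀ i m, 0 ≤ B i m)
    (h : ∀ i m, 1 ≤ m → 2 * m + 2 < K i → UB (red K i m) (B i m))
    (C : ℝ) (hC : 0 ≤ C) (δ : ℝ) (hδ : 0 < δ) :
    ∀ᶠ ε in 𝓝[>] (0:ℝ), ∀ ξ : (R : Conf (rot K)) → R.Face → ℝ,
      (∀ R f, 0 ≤ ξ R f ∧ ξ R f ≤ C * ε) → (∀ R f, R.LeafFace f → ξ R f = 0) →
      (by
        classical
        exact ∑ R ∈ univ.filter (fun R : Conf (rot K) => R.Conn ∧ ∃ x μ, R.IsLeaf x μ), R.A ε (ξ R)) ≤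
      leafSum K B + δ := by
  classical
  -- the auxiliary function
  let G : ℝ → ℝ := fun d => ∑ i, ∑ m ∈ (Finset.range (K i)).filter
    (fun m => 1 ≤ m ∧ 2 * m + 2 < K i), (K i : ℝ) * (2 * (Ypoly (leg m) + d)) * (B i m + d)
  have hG : Continuous G := by
    refine continuous_finsetSum _ (fun i _ => continuous_finsetSum _ (fun m _ => ?_))
    fun_prop
  have hG0 : G 0 = leafSum K B := by
    simp only [G, leafSum, add_zero]
  obtain ⟨d, hd0, hd⟩ : ∃ d : ℝ, 0 < d ∧ G d ≤ leafSum K B + δ := by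
    have h1 : ∀ᶠ d in 𝓝[>] (0:ℝ), G d < leafSum K B + δ := by
      have h2 : Tendsto G (𝓝[>] (0:ℝ)) (𝓝 (G 0)) := (hG.tendsto 0).mono_left nhdsWithin_le_nhds
      rw [hG0] at h2
      exact h2.eventually (gt_mem_nhds (by linarith))
    obtain ⟨d, h3, h4⟩ := (h1.and self_mem_nhdsWithin).exists
    exact ⟨d, h4, h3.le⟩
  have ev1 : ∀ᶠ ε in 𝓝[>] (0:ℝ), ∀ i, ∀ m ∈ Finset.range (K i), 1 ≤ m → 2 * m + 2 < K i →
      UBat (rot (red K i m)) (C + Fintype.card (HK K)) ε (B i m + d) := by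
    refine eventually_all.mpr (fun i => ?_)
    refine (Filter.eventually_all_finset _).mpr (fun m _ => ?_)
    by_cases hm : 1 ≤ m ∧ 2 * m + 2 < K i
    · have := h i m hm.1 hm.2 (C + Fintype.card (HK K)) (by positivity) d hd0
      filter_upwards [this] with ε hε _ _
      exact hε
    · exact Filter.Eventually.of_forall (fun ε a b => absurd ⟨a, b⟩ hm)
  have ev2 : ∀ᶠ ε in 𝓝[>] (0:ℝ), ∀ i, ∀ m ∈ Finset.range (K i),
      ZZ (rot (leg m)) ε ≤ Ypoly (leg m) + d := by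
    refine eventually_all.mpr (fun i => ?_)
    refine (Filter.eventually_all_finset _).mpr (fun m _ => ?_)
    exact ((hP m).eventually (gt_mem_nhds (show Ypoly (leg m) < Ypoly (leg m) + d by
      linarith))).mono (fun ε hε => hε.le)
  have ev3 : ∀ᶠ ε in 𝓝[>] (0:ℝ), ε ≤ 1 / 2 := by
    have : ∀ᶠ ε in 𝓝 (0:ℝ), ε < 1 / 2 := gt_mem_nhds (by norm_num)
    exact (this.filter_mono nhdsWithin_le_nhds).mono (fun ε hε => hε.le)
  filter_upwards [ev1, ev2, ev3, self_mem_nhdsWithin] with ε h1 h2 h3 h4 ξ hξ hξ0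
  have h4' : 0 < ε := h4
  refine (leaf_bound K hsurg ε h4' h3 C hC (fun i m => B i m + d)
    (fun i m a b => h1 i m (mem_range.mpr (by omega)) a b) ξ hξ hξ0).trans (le_trans ?_ hd)
  refine sum_le_sum (fun i _ => sum_le_sum (fun m hm => ?_))
  have hBd : 0 ≤ B i m + d := by linarith [hB i m]
  refine mul_le_mul_of_nonneg_right ?_ hBd
  refine mul_le_mul_of_nonneg_left ?_ (Nat.cast_nonneg _)
  have := h2 i m (mem_filter.mp hm).1
  linarith

end Pool.Agent.Helper62.MVC2
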