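import Pool.Agent.Helper62.MVC2.Gen
import Pool.Agent.Helper60.MV.B.B1
import Pool.Agent.Helper60.MV.B.Asm

/-!
MV-C2-13. Limits of the regularised volumes of the good connected configurations, and the upper bound of `Yconn`.

Proofs. `limA_tendsto`: `adm_of_good` and `blockB1'` applied to `R.P` (there is a cylinder because there is a half-edge); `R.A ε 0 = AM R.P ε 0`
(definitional up to `funext`); `Tendsto.limUnder_eq`. If `H` is empty: `Edge`, `Cyl` are empty and `R.A ε 0` is the integral of `1` over a one point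
space, constant in `ε`; the theorem below assumes `Nonempty H`.
`C_up'`: `Yconn K = lim ∑_{R conn, good} R.A ε 0 ≤ lim ∑_R R.A ε 0 = lim ZZ = Ypoly K` (`A_nonneg`, `le_of_tendsto_of_tendsto`, eventually in `ε > 0`).
`HK K` is nonempty since `ρ` is and `K i` is odd.
-/

namespace Pool.Agent.Helper62.MVC2

open Finset MeasureTheory Filter Topology Pool.Agent.Helper60.MV

theorem limA_tendsto {H : Type} [Fintype H] [Nonempty H] {σ : Equiv.Perm H} (hσ : AllOdd σ)
    (R : Conf σ) (hR : R.Conn) (hg : R.Good) :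
    Tendsto (fun ε => R.A ε 0) (𝓝[>] (0:ℝ)) (𝓝 R.limA) := by
  have hadm := adm_of_good R hσ hR hg
  obtain ⟨h⟩ := ‹Nonempty H›
  have : Nonempty R.Cyl := ⟨cyc R.β (R.face h)⟩
  obtain ⟨a, _, ha2⟩ := blockB1' R.P hadm
  have h3 : R.limA = a := Tendsto.limUnder_eq ha2
  rw [h3]
  exact ha2

theorem Yconn_tendsto {ρ : Type} [Fintype ρ] [Nonempty ρ] (K : ρ → ℕ) (hK : ∀ i, Odd (K i)) :
    Tendsto (fun ε => (by
      classical exact ∑ R ∈ univ.filter (fun R : Conf (rot K) => R.Conn ∧ R.Good), R.A ε 0))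
      (𝓝[>] (0:ℝ)) (𝓝 (Yconn K)) := by
  classical
  obtain ⟨i0⟩ := ‹Nonempty ρ›
  have : Nonempty (HK K) := ⟨⟨i0, ⟨0, (hK i0).pos⟩⟩⟩
  unfold Yconn
  exact tendsto_finsetSum _ fun R hR =>
    limA_tendsto (rot_allOdd K hK) R (mem_filter.1 hR).2.1 (mem_filter.1 hR).2.2

theorem C_up' {ρ : Type} [Fintype ρ] [Nonempty ρ] (K : ρ → ℕ) (hK : ∀ i, Odd (K i))
    (hP : Tendsto (fun ε => ZZ (rot K) ε) (𝓝[>] (0:ℝ)) (𝓝 (Ypoly K))) :
    Yconn K ≤ Ypoly K := by
  classical
  refine le_of_tendsto_of_tendsto (Yconn_tendsto K hK) hP ?_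
  filter_upwards [self_mem_nhdsWithin] with ε hε
  unfold ZZ
  exact Finset.sum_le_sum_of_subset_of_nonneg (filter_subset _ _)
    fun R _ _ => A_nonneg R ε hε 0

end Pool.Agent.Helper62.MVC2
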