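import Pool.Agent.Helper62.MVC2.Gen
import Pool.Agent.Helper62.MVC2.Prod
import Pool.Agent.Helper62.MVC2.FirstMom

/-!
MV-C2-3. The analytic surgery inequality.

Situation: `F = F₁ ⊕ F₂`, `ι = ι₁ ⊕ ι₂`; the only interaction is that the edge `e₀ ∈ ι₁` has one half-edge in the face
`y ∈ F₁` and one in the face `x ∈ F₂`, while in the system `(F₁, ι₁)` both half-edges are in `y`:
`W(inl f, inl e) + [f = y, e = e₀] = W₁ f e`, `W₁ f e₀ = 2 [f = y]`.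

Proof. (0) `exists_first_moment` (file `FirstMom`).
(1) Let `G(x₁)` be the part of the integrand of `F` from the faces of `F₁`; it depends only on `x₁ : ι₁ → ℝ`; it equals
`GI β₁ W₁ ε 0 (x₁')` with `x₁' = x₁` except that the coordinate `e₀` is halved. The part of the faces of `F₂` is
`GI β₂ W₂ ε (ξ₂ + x₁(e₀) 1_x) (x₂)`. By Fubini on `ι₁ ⊕ ι₂ → ℝ` (as in `GA_prod`),
`GA β W ε ξ = ∫_{x₁ > 0} G(x₁) O(x₁ e₀)`, `O ℓ = GA β₂ W₂ ε (ξ₂ + ℓ 1_x)`.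
(For Fubini: `MeasureTheory.setIntegral_prod` needs the integrability of the whole integrand, `GI_integrableOn`: the
columns of `W` have a positive entry because those of `W₁`, `W₂` have: for `e₀` the entry of `y` is `2 - 1 = 1`.)
(2) Scaling one coordinate: `∫_{x₁>0} G = 2 * GA β₁ W₁ ε 0` (`integral_halve`, file `FirstMom`).
(3) Support: if `G(x₁) ≠ 0`, `x₁ > 0`, then `x₁(e₀) ≤ |F₁| ε`: with `μ` as in the hypotheses,
`x₁(e₀) = ∑_f μ_f p_f = 1/2 ∑_f μ_f (p_f - p_{β₁ f})`, `p_f = ∑_e W(inl f, inl e) x₁ e`, and `|p_f - p_{β₁ f}| < 2 ε`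
(`GI_ne_zero`). Indeed `∑_f μ_f W(inl f, inl e) = ∑_f μ_f W₁ f e - [e = e₀] μ_y = [e = e₀]` by `hμW`.
Apply (0) with `L = |F₁| ε`.
-/

namespace Pool.Agent.Helper62.MVC2

open Finset MeasureTheory Filter Topology Pool.Agent.Helper60.MV

/-- a function on `ι₁ ⊕ ι₂`, transported to `ι` -/
theorem exists_glue {ι₁ ι₂ ι : Type} [Fintype ι₁] [Fintype ι₂] [Fintype ι] (b : ι₁ ⊕ ι₂ ≃ ι) :
    ∃ ψ : ((ι₁ → ℝ) × (ι₂ → ℝ)) → (ι → ℝ), MeasurePreserving ψ volume volume ∧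
      MeasurableEmbedding ψ ∧ (∀ q e, ψ q (b (Sum.inl e)) = q.1 e) ∧
      (∀ q e, ψ q (b (Sum.inr e)) = q.2 e) := by
  refine ⟨fun q => (MeasurableEquiv.piCongrLeft (fun _ : ι => ℝ) b)
    ((MeasurableEquiv.sumPiEquivProdPi (fun _ : ι₁ ⊕ ι₂ => ℝ)).symm q), ?_, ?_, ?_, ?_⟩
  · exact (volume_measurePreserving_piCongrLeft (fun _ : ι => ℝ) b).comp
      (volume_measurePreserving_sumPiEquivProdPi_symm (fun _ : ι₁ ⊕ ι₂ => ℝ))
  · exact (MeasurableEquiv.measurableEmbedding _).comp (MeasurableEquiv.measurableEmbedding _)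
  · intro q e
    have h := Equiv.piCongrLeft_apply_apply (P := fun _ : ι => ℝ) b
      ((MeasurableEquiv.sumPiEquivProdPi (fun _ : ι₁ ⊕ ι₂ => ℝ)).symm q) (Sum.inl e)
    exact h
  · intro q e
    have h := Equiv.piCongrLeft_apply_apply (P := fun _ : ι => ℝ) b
      ((MeasurableEquiv.sumPiEquivProdPi (fun _ : ι₁ ⊕ ι₂ => ℝ)).symm q) (Sum.inr e)
    exact h

/-- factorisation of the integrand -/
theorem GI_split {F₁ F₂ ι₁ ι₂ F ι : Type} [Fintype F₁] [Fintype F₂] [Fintype ι₁] [Fintype ι₂]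
    [Fintype F] [Fintype ι] [DecidableEq F₂] [DecidableEq ι₁]
    (β₁ : F₁ → F₁) (β₂ : F₂ → F₂) (β : F → F)
    (W₂ : F₂ → ι₂ → ℕ) (W : F → ι → ℕ) (ε : ℝ) (ξ₂ : F₂ → ℝ) (ξ : F → ℝ)
    (a : F₁ ⊕ F₂ ≃ F) (b : ι₁ ⊕ ι₂ ≃ ι) (x : F₂) (e₀ : ι₁)
    (hβ₁ : ∀ f, β (a (Sum.inl f)) = a (Sum.inl (β₁ f)))
    (hβ₂ : ∀ f, β (a (Sum.inr f)) = a (Sum.inr (β₂ f)))
    (h12 : ∀ f e, W (a (Sum.inl f)) (b (Sum.inr e)) = 0)
    (h21 : ∀ f e, W (a (Sum.inr f)) (b (Sum.inl e)) = if f = x ∧ e = e₀ then 1 else 0)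
    (h22 : ∀ f e, W (a (Sum.inr f)) (b (Sum.inr e)) = W₂ f e)
    (hξa : ∀ f, ξ (a (Sum.inl f)) = 0) (hξb : ∀ f, ξ (a (Sum.inr f)) = ξ₂ f)
    (z : ι₁ → ℝ) (w : ι₂ → ℝ) (u : ι → ℝ) (hu1 : ∀ e, u (b (Sum.inl e)) = z e)
    (hu2 : ∀ e, u (b (Sum.inr e)) = w e) :
    GI β W ε ξ u = GI β₁ (fun f e => W (a (Sum.inl f)) (b (Sum.inl e))) ε 0 z *
      GI β₂ W₂ ε (fun f => ξ₂ f + if f = x then z e₀ else 0) w := by
  have p1 : ∀ f, ∑ e, (W (a (Sum.inl f)) e : ℝ) * u e + ξ (a (Sum.inl f)) =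
      ∑ e, (W (a (Sum.inl f)) (b (Sum.inl e)) : ℝ) * z e + (0 : F₁ → ℝ) f := by
    intro f
    rw [← Equiv.sum_comp b, Fintype.sum_sum_type, hξa]
    simp [h12, hu1]
  have p2 : ∀ f, ∑ e, (W (a (Sum.inr f)) e : ℝ) * u e + ξ (a (Sum.inr f)) =
      ∑ e, (W₂ f e : ℝ) * w e + (ξ₂ f + if f = x then z e₀ else 0) := by
    intro f
    rw [← Equiv.sum_comp b, Fintype.sum_sum_type, hξb]
    simp only [h21, h22, hu1, hu2]
    have : ∑ e, (((if f = x ∧ e = e₀ then 1 else 0 : ℕ)) : ℝ) * z e = if f = x then z e₀ else 0 := by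
      by_cases hf : f = x
      · simp [hf]
      · simp [hf]
    rw [this]
    ring
  unfold GI
  rw [← Equiv.prod_comp a, Fintype.prod_sum_type]
  congr 1
  · refine Finset.prod_congr rfl (fun f _ => ?_)
    rw [hβ₁, p1, p1]
  · refine Finset.prod_congr rfl (fun f _ => ?_)
    rw [hβ₂, p2, p2]

/-- halving the coordinate `e₀` -/
theorem GI_halve {F₁ ι₁ : Type} [Fintype F₁] [Fintype ι₁] [DecidableEq F₁] [DecidableEq ι₁]
    (β₁ : F₁ → F₁) (W₁ V : F₁ → ι₁ → ℕ) (ε : ℝ) (y : F₁) (e₀ : ι₁)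
    (hW₁ : ∀ f, W₁ f e₀ = if f = y then 2 else 0)
    (h11 : ∀ f e, V f e + (if f = y ∧ e = e₀ then 1 else 0) = W₁ f e) (z : ι₁ → ℝ) :
    GI β₁ V ε 0 z = GI β₁ W₁ ε 0 (Function.update z e₀ (z e₀ / 2)) := by
  have p : ∀ f, ∑ e, (V f e : ℝ) * z e =
      ∑ e, (W₁ f e : ℝ) * (Function.update z e₀ (z e₀ / 2)) e := by
    intro f
    refine Finset.sum_congr rfl (fun e _ => ?_)
    by_cases he : e = e₀
    · subst he
      rw [Function.update_self]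
      have h1 := h11 f e
      have h2 := hW₁ f
      by_cases hf : f = y
      · rw [if_pos ⟨hf, rfl⟩, h2, if_pos hf] at h1
        have h3 : V f e = 1 := by omega
        rw [h3, h2, if_pos hf]
        push_cast
        ring
      · rw [if_neg (fun h => hf h.1), h2, if_neg hf] at h1
        have h3 : V f e = 0 := by omega
        rw [h3, h2, if_neg hf]
        simp
    · rw [Function.update_of_ne he]
      have h1 := h11 f e
      rw [if_neg (fun h => he h.2), add_zero] at h1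
      rw [h1]
  unfold GI
  refine Finset.prod_congr rfl (fun f _ => ?_)
  rw [p, p]

/-- the stem is short -/
theorem stem_le {F₁ ι₁ : Type} [Fintype F₁] [Fintype ι₁] [DecidableEq F₁] [DecidableEq ι₁]
    (β₁ : F₁ → F₁) (hβ₁i : ∀ f, β₁ (β₁ f) = f) (W₁ V : F₁ → ι₁ → ℕ) (ε : ℝ) (hε : 0 < ε)
    (y : F₁) (e₀ : ι₁)
    (hW₁ : ∀ f, W₁ f e₀ = if f = y then 2 else 0)
    (h11 : ∀ f e, V f e + (if f = y ∧ e = e₀ then 1 else 0) = W₁ f e)
    (μ : F₁ → ℤ) (hμβ : ∀ f, μ (β₁ f) = - μ f) (hμ1 : ∀ f, |μ f| ≤ 1)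
    (hμW : ∀ e, ∑ f, μ f * (W₁ f e : ℤ) = if e = e₀ then 2 else 0) (z : ι₁ → ℝ)
    (hz : GI β₁ V ε 0 z ≠ 0) : z e₀ ≤ (Fintype.card F₁ : ℝ) * ε := by
  have hy : μ y = 1 := by
    have h := hμW e₀
    simp only [hW₁, if_true] at h
    have h2 : ∑ f, μ f * (((if f = y then 2 else 0 : ℕ)) : ℤ) = μ y * 2 := by
      rw [Finset.sum_eq_single y]
      · simp
      · intro f _ hf
        simp [hf]
      · simp
    rw [h2] at h
    omega
  have hV : ∀ e, ∑ f, μ f * (V f e : ℤ) = if e = e₀ then 1 else 0 := by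
    intro e
    have h1 : ∀ f, (V f e : ℤ) = (W₁ f e : ℤ) - (if f = y ∧ e = e₀ then 1 else 0) := by
      intro f
      rw [← h11 f e]
      push_cast
      ring
    have h2 : ∑ f, μ f * (V f e : ℤ) = ∑ f, μ f * (W₁ f e : ℤ) -
        ∑ f, μ f * (if f = y ∧ e = e₀ then 1 else 0) := by
      rw [← Finset.sum_sub_distrib]
      refine Finset.sum_congr rfl (fun f _ => ?_)
      rw [h1]
      ring
    rw [h2, hμW]
    by_cases he : e = e₀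
    · have h3 : ∑ f, μ f * (if f = y ∧ e = e₀ then (1 : ℤ) else 0) = μ y := by
        rw [Finset.sum_eq_single y]
        · simp [he]
        · intro f _ hf
          simp [hf]
        · simp
      rw [h3, hy]
      simp [he]
    · simp [he]
  set p : F₁ → ℝ := fun f => ∑ e, (V f e : ℝ) * z e with hp
  have hsum : z e₀ = ∑ f, (μ f : ℝ) * p f := by
    have h1 : ∑ f, (μ f : ℝ) * p f = ∑ e, (((∑ f, μ f * (V f e : ℤ) : ℤ)) : ℝ) * z e := by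
      simp only [hp, Finset.mul_sum]
      rw [Finset.sum_comm]
      refine Finset.sum_congr rfl (fun e _ => ?_)
      push_cast
      rw [Finset.sum_mul]
      refine Finset.sum_congr rfl (fun f _ => ?_)
      ring
    rw [h1]
    simp only [hV]
    rw [Finset.sum_eq_single e₀]
    · simp
    · intro e _ he
      simp [he]
    · simp
  have hinv : ∑ f, (μ f : ℝ) * p f = - ∑ f, (μ f : ℝ) * p (β₁ f) := by
    have h1 : ∑ f, (μ f : ℝ) * p f = ∑ f, (μ (β₁ f) : ℝ) * p (β₁ f) :=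
      (Equiv.sum_comp (⟨β₁, β₁, hβ₁i, hβ₁i⟩ : F₁ ≃ F₁) (fun f => (μ f : ℝ) * p f)).symm
    rw [h1, ← Finset.sum_neg_distrib]
    refine Finset.sum_congr rfl (fun f _ => ?_)
    rw [hμβ]
    push_cast
    ring
  have h2 : 2 * z e₀ = ∑ f, (μ f : ℝ) * (p f - p (β₁ f)) := by
    have h3 : ∑ f, (μ f : ℝ) * (p f - p (β₁ f)) =
        ∑ f, (μ f : ℝ) * p f - ∑ f, (μ f : ℝ) * p (β₁ f) := by
      rw [← Finset.sum_sub_distrib]
      refine Finset.sum_congr rfl (fun f _ => ?_)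
      ring
    rw [h3]
    linarith
  have h4 : ∑ f, (μ f : ℝ) * (p f - p (β₁ f)) ≤ ∑ _f : F₁, 2 * ε := by
    refine Finset.sum_le_sum (fun f _ => ?_)
    have h5 := GI_ne_zero β₁ V ε hε 0 z hz f
    simp only [Pi.zero_apply, add_zero] at h5
    have h6 : |(μ f : ℝ)| ≤ 1 := by exact_mod_cast hμ1 f
    calc (μ f : ℝ) * (p f - p (β₁ f)) ≤ |(μ f : ℝ) * (p f - p (β₁ f))| := le_abs_self _
      _ = |(μ f : ℝ)| * |p f - p (β₁ f)| := abs_mul _ _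
      _ ≤ 1 * (2 * ε) := mul_le_mul h6 h5.le (abs_nonneg _) zero_le_one
      _ = 2 * ε := one_mul _
  rw [Finset.sum_const, Finset.card_univ, nsmul_eq_mul] at h4
  linarith

theorem GA_surg {F₁ F₂ ι₁ ι₂ F ι : Type} [Fintype F₁] [Fintype F₂] [Fintype ι₁] [Fintype ι₂]
    [Fintype F] [Fintype ι] [DecidableEq F₁] [DecidableEq F₂] [DecidableEq ι₁]
    (β₁ : F₁ → F₁) (β₂ : F₂ → F₂) (β : F → F)
    (hβ₁i : ∀ f, β₁ (β₁ f) = f) (hβ₂i : ∀ f, β₂ (β₂ f) = f)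
    (W₁ : F₁ → ι₁ → ℕ) (W₂ : F₂ → ι₂ → ℕ) (W : F → ι → ℕ)
    (hc₁ : ∀ e, ∃ f, 0 < W₁ f e) (hc₂ : ∀ e, ∃ f, 0 < W₂ f e)
    (ε : ℝ) (hε : 0 < ε) (hε2 : ε ≤ 1 / 2) (ξ₂ : F₂ → ℝ) (hξ₂ : ∀ f, 0 ≤ ξ₂ f) (ξ : F → ℝ)
    (a : F₁ ⊕ F₂ ≃ F) (b : ι₁ ⊕ ι₂ ≃ ι) (y : F₁) (x : F₂) (e₀ : ι₁)
    (hβ₁ : ∀ f, β (a (Sum.inl f)) = a (Sum.inl (β₁ f)))
    (hβ₂ : ∀ f, β (a (Sum.inr f)) = a (Sum.inr (β₂ f)))
    (hW₁ : ∀ f, W₁ f e₀ = if f = y then 2 else 0)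
    (h11 : ∀ f e, W (a (Sum.inl f)) (b (Sum.inl e)) + (if f = y ∧ e = e₀ then 1 else 0) = W₁ f e)
    (h12 : ∀ f e, W (a (Sum.inl f)) (b (Sum.inr e)) = 0)
    (h21 : ∀ f e, W (a (Sum.inr f)) (b (Sum.inl e)) = if f = x ∧ e = e₀ then 1 else 0)
    (h22 : ∀ f e, W (a (Sum.inr f)) (b (Sum.inr e)) = W₂ f e)
    (hξa : ∀ f, ξ (a (Sum.inl f)) = 0) (hξb : ∀ f, ξ (a (Sum.inr f)) = ξ₂ f)
    (μ : F₁ → ℤ) (hμβ : ∀ f, μ (β₁ f) = - μ f) (hμ1 : ∀ f, |μ f| ≤ 1)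
    (hμW : ∀ e, ∑ f, μ f * (W₁ f e : ℤ) = if e = e₀ then 2 else 0) :
    ∃ l : ℝ, 0 ≤ l ∧ l ≤ (Fintype.card F₁ : ℝ) * ε ∧
      GA β W ε ξ ≤ 2 * GA β₁ W₁ ε 0 * GA β₂ W₂ ε (fun f => ξ₂ f + if f = x then l else 0) := by
  classical
  obtain ⟨ψ, hψ, hψe, hψ1, hψ2⟩ := exists_glue b
  set V : F₁ → ι₁ → ℕ := fun f e => W (a (Sum.inl f)) (b (Sum.inl e)) with hV
  set G : (ι₁ → ℝ) → ℝ := GI β₁ V ε 0 with hG
  set O : ℝ → ℝ := fun l => GA β₂ W₂ ε (fun f => ξ₂ f + if f = x then l else 0) with hO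
  set S₁ : Set (ι₁ → ℝ) := {z | ∀ e, 0 < z e} with hS₁
  set S₂ : Set (ι₂ → ℝ) := {w | ∀ e, 0 < w e} with hS₂
  set S : Set (ι → ℝ) := {u | ∀ e, 0 < u e} with hS
  have hmS₁ : MeasurableSet S₁ := by
    have : S₁ = ⋂ e, {z : ι₁ → ℝ | 0 < z e} := by ext z; simp [hS₁]
    rw [this]
    exact MeasurableSet.iInter (fun e => measurableSet_lt measurable_const (measurable_pi_apply e))
  have hmS₂ : MeasurableSet S₂ := by
    have : S₂ = ⋂ e, {z : ι₂ → ℝ | 0 < z e} := by ext z; simp [hS₂]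
    rw [this]
    exact MeasurableSet.iInter (fun e => measurableSet_lt measurable_const (measurable_pi_apply e))
  have hpre : ψ ⁻¹' S = S₁ ×ˢ S₂ := by
    ext q
    simp only [hS, hS₁, hS₂, Set.mem_preimage, Set.mem_setOf_eq, Set.mem_prod]
    constructor
    · intro h
      refine ⟨fun e => ?_, fun e => ?_⟩
      · rw [← hψ1]; exact h _
      · rw [← hψ2]; exact h _
    · rintro ⟨h1, h2⟩ e
      obtain ⟨e', rfl⟩ := b.surjective e
      rcases e' with e' | e'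
      · rw [hψ1]; exact h1 _
      · rw [hψ2]; exact h2 _
  have hfac : ∀ q, GI β W ε ξ (ψ q) =
      G q.1 * GI β₂ W₂ ε (fun f => ξ₂ f + if f = x then q.1 e₀ else 0) q.2 := fun q =>
    GI_split β₁ β₂ β W₂ W ε ξ₂ ξ a b x e₀ hβ₁ hβ₂ h12 h21 h22 hξa hξb q.1 q.2 (ψ q) (hψ1 q) (hψ2 q)
  have hβi : ∀ f, β (β f) = f := by
    intro f
    obtain ⟨f', rfl⟩ := a.surjective f
    rcases f' with f' | f'
    · rw [hβ₁, hβ₁, hβ₁i]
    · rw [hβ₂, hβ₂, hβ₂i]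
  have hcV : ∀ e, ∃ f, 0 < V f e := by
    intro e
    by_cases he : e = e₀
    · refine ⟨y, ?_⟩
      have h1 := h11 y e
      have h2 := hW₁ y
      rw [if_pos ⟨rfl, he⟩, he, h2, if_pos rfl] at h1
      simp only [hV, he]
      omega
    · obtain ⟨f, hf⟩ := hc₁ e
      refine ⟨f, ?_⟩
      have h1 := h11 f e
      rw [if_neg (fun h => he h.2)] at h1
      simp only [hV]
      omega
  have hcW : ∀ e, ∃ f, 0 < W f e := by
    intro e
    obtain ⟨e', rfl⟩ := b.surjective e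
    rcases e' with e' | e'
    · obtain ⟨f, hf⟩ := hcV e'
      exact ⟨_, hf⟩
    · obtain ⟨f, hf⟩ := hc₂ e'
      refine ⟨a (Sum.inr f), ?_⟩
      rw [h22]
      exact hf
  have hξ : ∀ f, 0 ≤ ξ f := by
    intro f
    obtain ⟨f', rfl⟩ := a.surjective f
    rcases f' with f' | f'
    · rw [hξa]
    · rw [hξb]; exact hξ₂ _
  have hint : IntegrableOn (GI β W ε ξ) S := GI_integrableOn β hβi W hcW ε hε hε2 ξ hξ
  have hint2 : IntegrableOn (fun q => GI β W ε ξ (ψ q)) (S₁ ×ˢ S₂) := by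
    have := (hψ.integrableOn_comp_preimage hψe (f := GI β W ε ξ) (s := S)).2 hint
    rw [hpre] at this
    exact this
  have hO2 : ∀ z : ι₁ → ℝ, ∫ w in S₂, GI β W ε ξ (ψ (z, w)) = G z * O (z e₀) := by
    intro z
    simp only [hfac]
    rw [integral_const_mul]
    rfl
  have hval : GA β W ε ξ = ∫ z in S₁, G z * O (z e₀) := by
    have h1 : GA β W ε ξ = ∫ q in S₁ ×ˢ S₂, GI β W ε ξ (ψ q) := by
      rw [← hpre]
      exact (hψ.setIntegral_preimage_emb hψe (GI β W ε ξ) S).symm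
    rw [h1, Measure.volume_eq_prod, setIntegral_prod _ hint2]
    exact setIntegral_congr_fun hmS₁ (fun z _ => hO2 z)
  have hGO : IntegrableOn (fun z => G z * O (z e₀)) S₁ := by
    have h1 : Integrable (fun q => GI β W ε ξ (ψ q))
        ((volume.restrict S₁).prod (volume.restrict S₂)) := by
      rw [Measure.prod_restrict, ← Measure.volume_eq_prod]
      exact hint2
    have h2 := h1.integral_prod_left
    refine h2.congr ?_
    exact Filter.Eventually.of_forall (fun z => hO2 z)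
  have hGi : IntegrableOn G S₁ :=
    GI_integrableOn β₁ hβ₁i V hcV ε hε hε2 0 (fun _ => le_refl _)
  obtain ⟨l, hl0, hlL, hl⟩ := exists_first_moment volume S₁ hmS₁ G (fun z => z e₀) O
    ((Fintype.card F₁ : ℝ) * ε) (mul_nonneg (Nat.cast_nonneg _) hε.le)
    (fun z => GI_nonneg β₁ V ε 0 z) hGi hGO
    (fun z hz hne => ⟨(hz e₀).le, stem_le β₁ hβ₁i W₁ V ε hε y e₀ hW₁ h11 μ hμβ hμ1 hμW z hne⟩)
  refine ⟨l, hl0, hlL, ?_⟩
  rw [hval]
  refine hl.trans (le_of_eq ?_)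
  have h3 : ∫ z in S₁, G z = 2 * GA β₁ W₁ ε 0 := by
    have h4 : ∀ z, G z = GI β₁ W₁ ε 0 (Function.update z e₀ (z e₀ / 2)) := fun z =>
      GI_halve β₁ W₁ V ε y e₀ hW₁ h11 z
    simp only [h4]
    exact integral_halve e₀ (GI β₁ W₁ ε 0)
  rw [h3]

end Pool.Agent.Helper62.MVC2
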