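import Pool.Agent.Helper62.MVC2.SurgA
import Pool.Agent.Helper62.MVC2.EmbL
import Pool.Agent.Helper62.MVC2.JTR

/-!
MV-C2-10. The surgery inequality for configurations.

Proof. `A_eq_GA` for `R`, `T`, `R₁` and `GA_surg`. Equivalences `a : T.Face ⊕ R₁.Face ≃ R.Face`, `b : T.Edge ⊕ R₁.Edge ≃ R.Edge`:
`b (inl (T.edge h)) = R.edge (jT h)`, `b (inr (R₁.edge h)) = R.edge (jR h)` (`tauT`, `tauR`, `jT_inj`, `jR_inj`, `jTR_disj`, `jcover`; same
argument as `Emb.edge`); `a (inr (R₁.face h)) = R.face (jR h)` (`faceR`); `a (inl (T.face h)) = R.face (jT h)` for `h.1 = true`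
(`faceT`; every face of `T` contains such an `h`: `legHalf m` is in the face of `T.τ (legHalf m)`, which is a `true` half-edge since it differs from
`legHalf m`, `eq_leg_of_false`). Surjective: `jcover`, and `R.face x = R.face (jR h)` (`facex`), `x = jT (legHalf m)`. Injective: `disj`.
`y₁ := T.face (legHalf m)`, `x₂ := ` the face of `R₁` with `R.face x = R.face (jR h)` (`facex`), `e₀ := T.edge (legHalf m)`.
Weights: the half-edges of `R` are `jT h` (`h.1 = true`), `x`, `jR h`. For `f = T.face`, `e = T.edge`: half-edges of `T` in `f` and `e` are the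
`true` ones and possibly `legHalf m` (in `y₁`, `e₀`): `wt R (a inl f) (b inl e) + [f = y₁, e = e₀] = wt T f e` (`x` is not in an inner face: `facex`,
`disj`). `wt T f e₀ = 2 [f = y₁]` (`e₀ = {legHalf m, T.τ (legHalf m)}`, both in `y₁` by `faceTx`). `wt R (a inr f) (b inl e) = [f = x₂, e = e₀]`
(only `x`). `wt R (a inl f) (b inr e) = 0`, `wt R (a inr f) (b inr e) = wt R₁ f e`.
`β`: `betaT`, `betaR` (with representatives of the partner faces).
`μ₁ : T.Face → ℤ`, `μ₁ (T.face h) = μ (jT h)` for `h.1 = true`: well defined by `faceT` and `hleaf.face`; odd under `T.β`: `betaT`, `hleaf.beta`;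
`|μ₁| ≤ 1`. `∑_f μ₁ f wt T f e = ∑_{h : T.edge h = e} μ₁ (T.face h)`: for `e ≠ e₀` it is `μ (jT h) + μ (R.τ (jT h)) = 0`
(`hleaf.tau`, `jT h ≠ x, R.τ x`); for `e = e₀` it is `2 μ₁ y₁ = 2 μ (R.τ x) = 2`.
Columns of `wt T`, `wt R₁` have positive entries (the edge of `h` has the half-edge `h` in its face).
`ξ` vanishes on the faces `a (inl f)` (`hξ0`). `Fintype.card T.Face ≤ Fintype.card (HK (leg m)) ≤ Fintype.card (HK K)` (`T.face` surjective,
`jT_inj`). `ξ₁ := fun f => ξ (a (inr f)) + if f = x₂ then l else 0`.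
-/

namespace Pool.Agent.Helper62.MVC2

open Finset MeasureTheory Filter Topology Pool.Agent.Helper60.MV

private theorem edge_iff {H : Type} {σ : Equiv.Perm H} (R : Conf σ) (h h' : H) :
    R.edge h = R.edge h' ↔ h' = h ∨ h' = R.τ h := by
  have hsq : R.τ ^ (2 : ℤ) = 1 := by
    ext a
    have : R.τ ^ (2 : ℤ) = R.τ * R.τ := zpow_two R.τ
    rw [this, Equiv.Perm.mul_apply, R.hτ.invol, Equiv.Perm.one_apply]
  have h1 : R.edge h = R.edge h' ↔ R.τ.SameCycle h h' := by
    unfold Conf.edge cyc
    exact Quotient.eq (r := Equiv.Perm.SameCycle.setoid R.τ)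
  rw [h1]
  constructor
  · rintro ⟨i, hi⟩
    rcases Int.even_or_odd' i with ⟨k, hk | hk⟩
    · left
      rw [← hi, hk, zpow_mul, hsq, one_zpow, Equiv.Perm.one_apply]
    · right
      rw [← hi, hk, zpow_add, zpow_mul, hsq, one_zpow, one_mul, zpow_one]
  · rintro (rfl | rfl)
    · exact Equiv.Perm.SameCycle.refl _ _
    · exact ⟨1, by rw [zpow_one]⟩

private theorem edge_emb {H H' : Type} {σ : Equiv.Perm H} {σ' : Equiv.Perm H'} (R : Conf σ)
    (R' : Conf σ') (j : H' → H) (hj : Function.Injective j)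
    (ht : ∀ h, R.τ (j h) = j (R'.τ h)) (h h' : H') :
    R.edge (j h) = R.edge (j h') ↔ R'.edge h = R'.edge h' := by
  rw [edge_iff, edge_iff, ht, hj.eq_iff, hj.eq_iff]

private theorem edge_mem {H H' : Type} {σ : Equiv.Perm H} {σ' : Equiv.Perm H'} (R : Conf σ)
    (R' : Conf σ') (j : H' → H)
    (ht : ∀ h, R.τ (j h) = j (R'.τ h)) (k : H) (h : H') (hk : R.edge k = R.edge (j h)) :
    ∃ h', k = j h' := by
  rcases (edge_iff R (j h) k).mp hk.symm with h1 | h1
  · exact ⟨h, h1⟩
  · exact ⟨R'.τ h, by rw [h1, ht]⟩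

private theorem face_surj {H : Type} {σ : Equiv.Perm H} (R : Conf σ) (f : R.Face) :
    ∃ h, R.face h = f := Quotient.exists_rep f

private theorem edge_surj {H : Type} {σ : Equiv.Perm H} (R : Conf σ) (e : R.Edge) :
    ∃ h, R.edge h = e := Quotient.exists_rep e

private theorem wt_pos {H : Type} [Fintype H] {σ : Equiv.Perm H} (R : Conf σ) (e : R.Edge) :
    ∃ f, 0 < wt R f e := by
  classical
  obtain ⟨h, hh⟩ := edge_surj R e
  refine ⟨R.face h, ?_⟩
  unfold wt
  rw [Finset.card_pos]
  exact ⟨h, by simp [hh]⟩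

private theorem wt_eq {H : Type} [Fintype H] [DecidableEq H] {σ : Equiv.Perm H} (R : Conf σ)
    (f : R.Face) (e : R.Edge) (s : Finset H) (hs : ∀ h, h ∈ s ↔ R.face h = f ∧ R.edge h = e) :
    wt R f e = s.card := by
  classical
  unfold wt
  congr 1
  ext h
  simp [hs h]

private theorem sum_wt {H : Type} [Fintype H] [DecidableEq H] {σ : Equiv.Perm H} (R : Conf σ)
    (μ : R.Face → ℤ) (h : H) :
    ∑ f, μ f * (wt R f (R.edge h) : ℤ) = μ (R.face h) + μ (R.face (R.τ h)) := by
  classical
  have h1 : ∀ f, (wt R f (R.edge h) : ℤ) =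
      ∑ k ∈ ({h, R.τ h} : Finset H), if R.face k = f then 1 else 0 := by
    intro f
    have h2 : wt R f (R.edge h) = (({h, R.τ h} : Finset H).filter (fun k => R.face k = f)).card := by
      apply wt_eq
      intro k
      rw [Finset.mem_filter, Finset.mem_insert, Finset.mem_singleton, eq_comm (a := R.edge k),
        edge_iff, and_comm]
    rw [h2, Finset.card_filter]
    push_cast
    rfl
  simp_rw [h1, Finset.mul_sum]
  rw [Finset.sum_comm]
  have h3 : ∀ k ∈ ({h, R.τ h} : Finset H),
      (∑ f, μ f * (if R.face k = f then 1 else 0 : ℤ)) = μ (R.face k) := by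
    intro k _
    simp
  rw [Finset.sum_congr rfl h3, Finset.sum_pair (R.hτ.fpf h).symm]

theorem surg_A {ρ : Type} [Fintype ρ] (K : ρ → ℕ) (R : Conf (rot K)) (x : HK K) (m : ℕ)
    (hm : 2 * m + 2 < K x.1) (μ : HK K → ℤ) (T : Conf (rot (leg m)))
    (R₁ : Conf (rot (red K x.1 m))) (hleaf : R.IsLeaf x μ) (hμ1 : ∀ h, |μ h| ≤ 1)
    (hS : Surg R x m T R₁) (ε : ℝ) (hε : 0 < ε) (hε2 : ε ≤ 1 / 2) (ξ : R.Face → ℝ)
    (hξ : ∀ f, 0 ≤ ξ f) (hξ0 : ∀ h, h.1 = true → ξ (R.face (jT K x m h)) = 0) :
    ∃ l : ℝ, 0 ≤ l ∧ l ≤ (Fintype.card (HK K) : ℝ) * ε ∧ ∃ ξ₁ : R₁.Face → ℝ,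
      (∀ h, ξ₁ (R₁.face h) = ξ (R.face (jR K x m h)) +
        (by classical exact if R.face (jR K x m h) = R.face x then l else 0)) ∧
      R.A ε ξ ≤ 2 * T.A ε 0 * R₁.A ε ξ₁ := by
  classical
  have hjT := jT_inj K x m hm
  have hjR := jR_inj K x m hm
  have hdis := jTR_disj K x m hm
  have hleg := jT_leg K x m
  have htau_leg : (T.τ (legHalf m)).1 = true := by
    by_contra hcon
    have h1 : (T.τ (legHalf m)).1 = false := by simpa using hcon
    exact T.hτ.fpf _ (eq_leg_of_false m _ h1)
  have htrue : ∀ h : HK (leg m), h ≠ legHalf m → h.1 = true := by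
    intro h hh
    by_contra hcon
    have h1 : h.1 = false := by simpa using hcon
    exact hh (eq_leg_of_false m _ h1)
  have hTex : ∀ f : T.Face, ∃ h : HK (leg m), h.1 = true ∧ T.face h = f := by
    intro f
    obtain ⟨h, hh⟩ := face_surj T f
    by_cases h1 : h = legHalf m
    · refine ⟨T.τ (legHalf m), htau_leg, ?_⟩
      rw [← hS.faceTx, ← h1, hh]
    · exact ⟨h, htrue h h1, hh⟩
  choose rT hrT1 hrT2 using hTex
  choose rR hrR using face_surj R₁
  choose eT heT using edge_surj T
  choose eR heR using edge_surj R₁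
  obtain ⟨hx, hhx⟩ := hS.facex
  let aT : T.Face → R.Face := fun f => R.face (jT K x m (rT f))
  let aR : R₁.Face → R.Face := fun f => R.face (jR K x m (rR f))
  let bT : T.Edge → R.Edge := fun e => R.edge (jT K x m (eT e))
  let bR : R₁.Edge → R.Edge := fun e => R.edge (jR K x m (eR e))
  have haT : ∀ h, h.1 = true → aT (T.face h) = R.face (jT K x m h) := fun h hh =>
    (hS.faceT _ _ (hrT1 _) hh).mpr (hrT2 _)
  have haR : ∀ h, aR (R₁.face h) = R.face (jR K x m h) := fun h =>
    (hS.faceR _ _).mpr (hrR _)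
  have hbT : ∀ h, bT (T.edge h) = R.edge (jT K x m h) := fun h =>
    (edge_emb R T _ hjT hS.tauT _ _).mpr (heT _)
  have hbR : ∀ h, bR (R₁.edge h) = R.edge (jR K x m h) := fun h =>
    (edge_emb R R₁ _ hjR hS.tauR _ _).mpr (heR _)
  have haTinj : Function.Injective aT := by
    intro f f' hff
    have h1 := (hS.faceT _ _ (hrT1 f) (hrT1 f')).mp hff
    rw [hrT2, hrT2] at h1
    exact h1
  have haRinj : Function.Injective aR := by
    intro f f' hff
    have h1 := (hS.faceR _ _).mp hff
    rw [hrR, hrR] at h1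
    exact h1
  have haTR : ∀ f f', aT f ≠ aR f' := fun f f' => hS.disj _ _ (hrT1 f)
  have hxR : R.face x = aR (R₁.face hx) := by rw [haR, hhx]
  have ha : Function.Bijective (Sum.elim aT aR) := by
    refine ⟨haTinj.sumElim haRinj haTR, ?_⟩
    intro f
    obtain ⟨k, rfl⟩ := face_surj R f
    rcases jcover K x m hm k with ⟨h, rfl⟩ | ⟨h, rfl⟩
    · by_cases h1 : h = legHalf m
      · refine ⟨Sum.inr (R₁.face hx), ?_⟩
        rw [h1, hleg, Sum.elim_inr, hxR]
      · exact ⟨Sum.inl (T.face h), by rw [Sum.elim_inl, haT h (htrue h h1)]⟩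
    · exact ⟨Sum.inr (R₁.face h), by rw [Sum.elim_inr, haR]⟩
  have hbTR : ∀ e e', bT e ≠ bR e' := by
    intro e e' hee
    obtain ⟨h', hh'⟩ := edge_mem R R₁ (jR K x m) hS.tauR _ _ hee
    exact hdis _ _ hh'
  have hb : Function.Bijective (Sum.elim bT bR) := by
    refine ⟨Function.Injective.sumElim ?_ ?_ hbTR, ?_⟩
    · intro e e' hee
      have h1 := (edge_emb R T _ hjT hS.tauT _ _).mp hee
      rw [heT, heT] at h1
      exact h1
    · intro e e' hee
      have h1 := (edge_emb R R₁ _ hjR hS.tauR _ _).mp hee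
      rw [heR, heR] at h1
      exact h1
    · intro e
      obtain ⟨k, rfl⟩ := edge_surj R e
      rcases jcover K x m hm k with ⟨h, rfl⟩ | ⟨h, rfl⟩
      · exact ⟨Sum.inl (T.edge h), by rw [Sum.elim_inl, hbT]⟩
      · exact ⟨Sum.inr (R₁.edge h), by rw [Sum.elim_inr, hbR]⟩
  let a : T.Face ⊕ R₁.Face ≃ R.Face := Equiv.ofBijective _ ha
  let b : T.Edge ⊕ R₁.Edge ≃ R.Edge := Equiv.ofBijective _ hb
  -- half-edges over `bT e`, `bR e`
  have hbTmem : ∀ k e, R.edge k = bT e → ∃ h, k = jT K x m h ∧ T.edge h = e := by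
    intro k e hk
    obtain ⟨h, rfl⟩ := edge_mem R T (jT K x m) hS.tauT _ _ hk
    refine ⟨h, rfl, ?_⟩
    have h1 := (edge_emb R T _ hjT hS.tauT _ _).mp hk
    rw [heT] at h1
    exact h1
  have hbRmem : ∀ k e, R.edge k = bR e → ∃ h, k = jR K x m h ∧ R₁.edge h = e := by
    intro k e hk
    obtain ⟨h, rfl⟩ := edge_mem R R₁ (jR K x m) hS.tauR _ _ hk
    refine ⟨h, rfl, ?_⟩
    have h1 := (edge_emb R R₁ _ hjR hS.tauR _ _).mp hk
    rw [heR] at h1
    exact h1
  have hxT : ∀ f, R.face x ≠ aT f := by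
    intro f h1
    rw [hxR] at h1
    exact haTR _ _ h1.symm
  let μ₁ : T.Face → ℤ := fun f => μ (jT K x m (rT f))
  have hμ₁ : ∀ h, h.1 = true → μ₁ (T.face h) = μ (jT K x m h) := fun h hh =>
    hleaf.face _ _ ((hS.faceT _ _ (hrT1 _) hh).mpr (hrT2 _))
  have key := GA_surg (F₁ := T.Face) (F₂ := R₁.Face) (ι₁ := T.Edge) (ι₂ := R₁.Edge)
    (F := R.Face) (ι := R.Edge) T.β R₁.β R.β T.hβ.invol R₁.hβ.invol (wt T) (wt R₁) (wt R)
    (wt_pos T) (wt_pos R₁) ε hε hε2 (fun f => ξ (aR f)) (fun f => hξ _) ξ a b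
    (T.face (legHalf m)) (R₁.face hx) (T.edge (legHalf m)) ?_ ?_ ?_ ?_ ?_ ?_ ?_ ?_ ?_ μ₁ ?_ ?_ ?_
  · obtain ⟨l, hl0, hl1, hl2⟩ := key
    refine ⟨l, hl0, hl1.trans ?_, fun f => ξ (aR f) + if f = R₁.face hx then l else 0, ?_, ?_⟩
    · apply mul_le_mul_of_nonneg_right _ hε.le
      have h1 : Fintype.card T.Face ≤ Fintype.card (HK (leg m)) :=
        Fintype.card_le_of_surjective T.face (face_surj T)
      have h2 : Fintype.card (HK (leg m)) ≤ Fintype.card (HK K) :=
        Fintype.card_le_of_injective _ hjT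
      exact_mod_cast h1.trans h2
    · intro h
      simp only [haR]
      congr 1
      by_cases h1 : R₁.face h = R₁.face hx
      · rw [if_pos h1, if_pos (by rw [hhx]; exact (hS.faceR _ _).mpr h1)]
      · rw [if_neg h1, if_neg (by rw [hhx]; exact fun h2 => h1 ((hS.faceR _ _).mp h2))]
    · rw [A_eq_GA R ε hε, A_eq_GA T ε hε, A_eq_GA R₁ ε hε]
      exact hl2
  · -- hβ₁
    intro f
    change R.β (aT f) = aT (T.β f)
    have h1 := (hS.betaT (rT f) (rT (T.β f)) (hrT1 _) (hrT1 _)).mpr (by rw [hrT2, hrT2])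
    exact h1
  · intro f
    change R.β (aR f) = aR (R₁.β f)
    have h1 := (hS.betaR (rR f) (rR (R₁.β f))).mpr (by rw [hrR, hrR])
    exact h1
  · -- hW₁
    intro f
    by_cases hf : f = T.face (legHalf m)
    · rw [if_pos hf]
      rw [wt_eq T f _ {legHalf m, T.τ (legHalf m)}, Finset.card_pair (T.hτ.fpf _).symm]
      intro h
      rw [Finset.mem_insert, Finset.mem_singleton, eq_comm (a := T.edge h), edge_iff]
      constructor
      · intro h1
        refine ⟨?_, h1⟩
        rcases h1 with h1 | h1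
        · rw [h1, hf]
        · rw [h1, hf, hS.faceTx]
      · exact fun h1 => h1.2
    · rw [if_neg hf]
      rw [wt_eq T f _ ∅, Finset.card_empty]
      intro h
      constructor
      · intro h1
        simp at h1
      · rintro ⟨h1, h2⟩
        exfalso
        rw [eq_comm, edge_iff] at h2
        apply hf
        rcases h2 with h2 | h2
        · rw [← h1, h2]
        · rw [← h1, h2, hS.faceTx]
  · -- h11
    intro f e
    change wt R (aT f) (bT e) + _ = _
    rw [wt_eq R (aT f) (bT e) ((univ.filter (fun h : HK (leg m) => h.1 = true ∧ T.face h = f ∧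
      T.edge h = e)).image (jT K x m))]
    · rw [Finset.card_image_of_injective _ hjT]
      have h1 : wt T f e = (univ.filter (fun h : HK (leg m) => T.face h = f ∧
          T.edge h = e)).card := wt_eq T f e _ (by intro h; simp)
      rw [h1, ← Finset.card_filter_add_card_filter_not
        (s := univ.filter (fun h : HK (leg m) => T.face h = f ∧ T.edge h = e))
        (fun h : HK (leg m) => h.1 = true)]
      congr 1
      · congr 1
        ext h
        simp only [Finset.mem_filter, Finset.mem_univ, true_and]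
        tauto
      · by_cases hf : f = T.face (legHalf m) ∧ e = T.edge (legHalf m)
        · rw [if_pos hf]
          symm
          rw [Finset.card_eq_one]
          refine ⟨legHalf m, ?_⟩
          ext h
          simp only [Finset.mem_filter, Finset.mem_univ, true_and, Finset.mem_singleton]
          constructor
          · rintro ⟨_, h2⟩
            by_contra h3
            exact h2 (htrue h h3)
          · rintro rfl
            exact ⟨⟨hf.1.symm, hf.2.symm⟩, by simp [legHalf]⟩
        · rw [if_neg hf]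
          symm
          rw [Finset.card_eq_zero, Finset.filter_eq_empty_iff]
          intro h hh h2
          rw [Finset.mem_filter] at hh
          have h3 : h = legHalf m := by
            by_contra h3
            exact h2 (htrue h h3)
          rw [h3] at hh
          exact hf ⟨hh.2.1.symm, hh.2.2.symm⟩
    · intro k
      rw [Finset.mem_image]
      constructor
      · rintro ⟨h, hh, rfl⟩
        rw [Finset.mem_filter] at hh
        obtain ⟨_, h1, h2, h3⟩ := hh
        rw [← h2, ← h3, haT h h1, hbT]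
        exact ⟨rfl, rfl⟩
      · rintro ⟨h1, h2⟩
        obtain ⟨h, rfl, h3⟩ := hbTmem k e h2
        have h4 : h ≠ legHalf m := by
          rintro rfl
          rw [hleg] at h1
          exact hxT _ h1
        refine ⟨h, ?_, rfl⟩
        rw [Finset.mem_filter]
        refine ⟨Finset.mem_univ _, htrue h h4, ?_, h3⟩
        apply haTinj
        rw [haT h (htrue h h4), h1]
  · -- h12
    intro f e
    change wt R (aT f) (bR e) = 0
    rw [wt_eq R (aT f) (bR e) ∅, Finset.card_empty]
    intro k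
    constructor
    · intro h1
      simp at h1
    · rintro ⟨h1, h2⟩
      exfalso
      obtain ⟨h, rfl, _⟩ := hbRmem k e h2
      exact hS.disj _ _ (hrT1 f) h1.symm
  · -- h21
    intro f e
    change wt R (aR f) (bT e) = _
    have hk : ∀ k, R.face k = aR f → R.edge k = bT e →
        k = x ∧ f = R₁.face hx ∧ e = T.edge (legHalf m) := by
      intro k h1 h2
      obtain ⟨h, rfl, h3⟩ := hbTmem k e h2
      have h4 : h = legHalf m := by
        by_contra h4
        exact hS.disj _ _ (htrue h h4) h1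
      rw [h4] at h1 h3 ⊢
      rw [hleg] at h1 ⊢
      refine ⟨rfl, ?_, h3.symm⟩
      apply haRinj
      rw [← h1, hxR]
    by_cases hf : f = R₁.face hx ∧ e = T.edge (legHalf m)
    · rw [if_pos hf, wt_eq R (aR f) (bT e) {x}, Finset.card_singleton]
      intro k
      rw [Finset.mem_singleton]
      constructor
      · rintro rfl
        rw [hf.1, hf.2, hxR, hbT, hleg]
        exact ⟨rfl, rfl⟩
      · rintro ⟨h1, h2⟩
        exact (hk k h1 h2).1
    · rw [if_neg hf, wt_eq R (aR f) (bT e) ∅, Finset.card_empty]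
      intro k
      constructor
      · intro h1
        simp at h1
      · rintro ⟨h1, h2⟩
        exact absurd (hk k h1 h2).2 hf
  · -- h22
    intro f e
    change wt R (aR f) (bR e) = _
    rw [wt_eq R (aR f) (bR e) ((univ.filter (fun h : HK (red K x.1 m) => R₁.face h = f ∧
      R₁.edge h = e)).image (jR K x m))]
    · rw [Finset.card_image_of_injective _ hjR]
      exact (wt_eq R₁ f e _ (by intro h; simp)).symm
    · intro k
      rw [Finset.mem_image]
      constructor
      · rintro ⟨h, hh, rfl⟩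
        rw [Finset.mem_filter] at hh
        obtain ⟨_, h2, h3⟩ := hh
        rw [← h2, ← h3, haR, hbR]
        exact ⟨rfl, rfl⟩
      · rintro ⟨h1, h2⟩
        obtain ⟨h, rfl, h3⟩ := hbRmem k e h2
        refine ⟨h, ?_, rfl⟩
        rw [Finset.mem_filter]
        refine ⟨Finset.mem_univ _, ?_, h3⟩
        apply haRinj
        rw [haR, h1]
  · intro f
    exact hξ0 _ (hrT1 f)
  · intro f
    rfl
  · -- hμβ
    intro f
    exact hleaf.beta _ _ ((hS.betaT (rT f) (rT (T.β f)) (hrT1 _) (hrT1 _)).mpr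
      (by rw [hrT2, hrT2]))
  · intro f
    exact hμ1 _
  · -- hμW
    intro e
    by_cases he : e = T.edge (legHalf m)
    · rw [if_pos he, he, sum_wt, hS.faceTx, hμ₁ _ htau_leg, ← hS.tauT, hleg, hleaf.one]
      norm_num
    · rw [if_neg he]
      obtain ⟨h, rfl⟩ := edge_surj T e
      have h1 : h ≠ legHalf m := by
        rintro rfl
        exact he rfl
      have h2 : T.τ h ≠ legHalf m := by
        intro h2
        apply he
        rw [edge_iff]
        exact Or.inr h2.symm
      rw [sum_wt, hμ₁ _ (htrue _ h1), hμ₁ _ (htrue _ h2), ← hS.tauT, hleaf.tau, add_neg_cancel]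
      · intro h3
        rw [← hleg] at h3
        exact h1 (hjT h3)
      · intro h3
        rw [← hleg, hS.tauT] at h3
        apply h2
        rw [hjT h3, T.hτ.invol]

end Pool.Agent.Helper62.MVC2
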